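import Pool.Agent.W925.Sym4

/-!
# Symmetric matrices of rank four: an example without shrunk subspace
-/

set_option autoImplicit false

namespace Pool.Agent.W925.Sym

open Matrix Module MvPolynomial

/-- the matrix of the cross product with the `i`-th unit vector -/
def crs : Fin 3 → Matrix (Fin 3) (Fin 3) ℚ
  | 0 => !![0, 0, 0; 0, 0, -1; 0, 1, 0]
  | 1 => !![0, 0, 1; 0, 0, 0; -1, 0, 0]
  | 2 => !![0, -1, 0; 1, 0, 0; 0, 0, 0]

/-- three symmetric `6 × 6` matrices of rank four -/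
def six (i : Fin 3) : Matrix (Fin 3 ⊕ Fin 3) (Fin 3 ⊕ Fin 3) ℚ :=
  Matrix.fromBlocks 0 (crs i) (crs i)ᵀ 0

theorem six_symm (i : Fin 3) : (six i).IsSymm := by
  unfold Matrix.IsSymm six
  rw [fromBlocks_transpose, transpose_transpose, transpose_zero]

theorem crs_mulVec (y : Fin 3 → ℚ) : crs 0 *ᵥ y = ![0, -y 2, y 1] ∧ crs 1 *ᵥ y = ![y 2, 0, -y 0] ∧
    crs 2 *ᵥ y = ![-y 1, y 0, 0] := by
  refine ⟨?_, ?_, ?_⟩ <;> funext i <;> fin_cases i <;>
    simp [crs, mulVec, dotProduct, Fin.sum_univ_three]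

theorem crs_images (W : Submodule ℚ (Fin 3 → ℚ)) :
    finrank ℚ W ≤ finrank ℚ (⨆ i, W.map (crs i).mulVecLin : Submodule ℚ (Fin 3 → ℚ)) := by
  set E := (⨆ i, W.map (crs i).mulVecLin : Submodule ℚ (Fin 3 → ℚ)) with hE
  have hmem : ∀ i, ∀ y ∈ W, crs i *ᵥ y ∈ E := fun i y hy =>
    Submodule.mem_iSup_of_mem i ⟨y, hy, rfl⟩
  by_cases hbot : W = ⊥
  · rw [hbot, finrank_bot]
    exact Nat.zero_le _
  obtain ⟨y, hy, hy0⟩ := Submodule.exists_mem_ne_zero_of_ne_bot hbot
  have h2 : 2 ≤ finrank ℚ E := by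
    have hpair : ∀ i j : Fin 3, LinearIndependent ℚ ![crs i *ᵥ y, crs j *ᵥ y] → 2 ≤ finrank ℚ E := by
      intro i j hli
      have hle : Submodule.span ℚ (Set.range ![crs i *ᵥ y, crs j *ᵥ y]) ≤ E := by
        rw [Submodule.span_le]
        rintro _ ⟨l, rfl⟩
        fin_cases l
        · exact hmem i y hy
        · exact hmem j y hy
      have h5 := Submodule.finrank_mono hle
      rwa [finrank_span_eq_card hli, Fintype.card_fin] at h5
    obtain ⟨a, ha⟩ := Function.ne_iff.1 hy0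
    rw [Pi.zero_apply] at ha
    obtain ⟨c0, c1, c2⟩ := crs_mulVec y
    fin_cases a
    · apply hpair 1 2
      rw [LinearIndependent.pair_iff, c1, c2]
      intro s t hst
      have e1 := congrFun hst 1
      have e2 := congrFun hst 2
      simp at e1 e2
      simp only [Fin.zero_eta] at ha
      exact ⟨e2.resolve_right ha, e1.resolve_right ha⟩
    · apply hpair 0 2
      rw [LinearIndependent.pair_iff, c0, c2]
      intro s t hst
      have e1 := congrFun hst 0
      have e2 := congrFun hst 2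
      simp at e1 e2
      simp only [Fin.mk_one] at ha
      exact ⟨e2.resolve_right ha, e1.resolve_right ha⟩
    · apply hpair 0 1
      rw [LinearIndependent.pair_iff, c0, c1]
      intro s t hst
      have e1 := congrFun hst 0
      have e2 := congrFun hst 1
      simp at e1 e2
      simp only [Fin.reduceFinMk] at ha
      exact ⟨e2.resolve_right ha, e1.resolve_right ha⟩
  by_cases h3 : finrank ℚ W ≤ 2
  · exact h3.trans h2
  have hle := Submodule.finrank_le W
  rw [finrank_fintype_fun_eq_card, Fintype.card_fin] at hle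
  have hW : W = ⊤ := by
    apply Submodule.eq_top_of_finrank_eq
    rw [finrank_fintype_fun_eq_card, Fintype.card_fin]
    omega
  have hE : E = ⊤ := by
    rw [eq_top_iff]
    intro z _
    have e0 := hmem 2 ![0, -z 0, 0] (by rw [hW]; trivial)
    have e1 := hmem 0 ![0, 0, -z 1] (by rw [hW]; trivial)
    have e2 := hmem 1 ![-z 2, 0, 0] (by rw [hW]; trivial)
    have h := E.add_mem (E.add_mem e0 e1) e2
    rw [(crs_mulVec _).1, (crs_mulVec _).2.1, (crs_mulVec _).2.2] at h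
    convert h using 1
    funext i
    fin_cases i <;> simp
  rw [hE, hW]

theorem crs_transpose (i : Fin 3) : (crs i)ᵀ = - crs i := by
  fin_cases i <;> ext a b <;> fin_cases a <;> fin_cases b <;> simp [crs]

theorem crs_images' (W : Submodule ℚ (Fin 3 → ℚ)) :
    finrank ℚ W ≤ finrank ℚ (⨆ i, W.map (crs i)ᵀ.mulVecLin : Submodule ℚ (Fin 3 → ℚ)) := by
  have h : ∀ i, W.map (crs i)ᵀ.mulVecLin = W.map (crs i).mulVecLin := by
    intro i
    rw [crs_transpose]
    ext y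
    constructor
    · rintro ⟨x, hx, rfl⟩
      exact ⟨-x, W.neg_mem hx, by simp [mulVec_neg]⟩
    · rintro ⟨x, hx, rfl⟩
      exact ⟨-x, W.neg_mem hx, by simp [mulVec_neg]⟩
  rw [iSup_congr h]
  exact crs_images W

theorem six_mulVec_inl (i : Fin 3) (v : Fin 3 ⊕ Fin 3 → ℚ) (a : Fin 3) :
    (six i *ᵥ v) (Sum.inl a) = (crs i *ᵥ (fun b => v (Sum.inr b))) a := by
  simp [six, mulVec, dotProduct]

theorem six_mulVec_inr (i : Fin 3) (v : Fin 3 ⊕ Fin 3 → ℚ) (a : Fin 3) :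
    (six i *ᵥ v) (Sum.inr a) = ((crs i)ᵀ *ᵥ (fun b => v (Sum.inl b))) a := by
  simp [six, mulVec, dotProduct]

theorem six_images (U : Submodule ℚ (Fin 3 ⊕ Fin 3 → ℚ)) :
    finrank ℚ U ≤ finrank ℚ (imageSum 0 six U) := by
  set f₁ : (Fin 3 ⊕ Fin 3 → ℚ) →ₗ[ℚ] (Fin 3 → ℚ) := LinearMap.funLeft ℚ ℚ Sum.inl with hf₁
  set f₂ : (Fin 3 ⊕ Fin 3 → ℚ) →ₗ[ℚ] (Fin 3 → ℚ) := LinearMap.funLeft ℚ ℚ Sum.inr with hf₂
  set E := imageSum 0 six U with hE
  have hEm : ∀ i, ∀ u ∈ U, six i *ᵥ u ∈ E := fun i u hu =>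
    Submodule.mem_sup_right (Submodule.mem_iSup_of_mem i ⟨u, hu, rfl⟩)
  have a1 := finrank_map_add f₂ U
  have a2 := finrank_map_add f₁ (LinearMap.ker f₂ ⊓ U)
  have a3 : (LinearMap.ker f₁ ⊓ (LinearMap.ker f₂ ⊓ U) : Submodule ℚ (Fin 3 ⊕ Fin 3 → ℚ)) = ⊥ := by
    rw [eq_bot_iff]
    rintro v ⟨h1, h2, _⟩
    have h1' : (fun a => v (Sum.inl a)) = 0 := h1
    have h2' : (fun a => v (Sum.inr a)) = 0 := h2
    rw [Submodule.mem_bot]
    funext a
    rcases a with a | a
    · exact congrFun h1' a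
    · exact congrFun h2' a
  rw [a3, finrank_bot, add_zero] at a2
  have b1 := finrank_map_add f₁ E
  have b2 := finrank_map_add f₂ (LinearMap.ker f₁ ⊓ E)
  have c1 : finrank ℚ (U.map f₂) ≤ finrank ℚ (E.map f₁) := by
    refine (crs_images _).trans (Submodule.finrank_mono (iSup_le fun i => ?_))
    rintro _ ⟨_, ⟨u, hu, rfl⟩, rfl⟩
    refine ⟨six i *ᵥ u, hEm i u hu, ?_⟩
    funext a
    exact six_mulVec_inl i u a
  have c2 : finrank ℚ ((LinearMap.ker f₂ ⊓ U).map f₁) ≤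
      finrank ℚ ((LinearMap.ker f₁ ⊓ E).map f₂) := by
    refine (crs_images' _).trans (Submodule.finrank_mono (iSup_le fun i => ?_))
    rintro _ ⟨_, ⟨u, ⟨hu0, hu⟩, rfl⟩, rfl⟩
    refine ⟨six i *ᵥ u, ⟨?_, hEm i u hu⟩, ?_⟩
    · have hu0' : (fun b => u (Sum.inr b)) = 0 := hu0
      change f₁ (six i *ᵥ u) = 0
      funext a
      change (six i *ᵥ u) (Sum.inl a) = 0
      rw [six_mulVec_inl, hu0', mulVec_zero, Pi.zero_apply]
    · funext a
      exact six_mulVec_inr i u a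
  omega

theorem six_rank (i : Fin 3) : (six i).rank ≤ 4 := by
  have h := LinearMap.finrank_range_add_finrank_ker (six i).mulVecLin
  rw [Module.finrank_fintype_fun_eq_card, Fintype.card_sum, Fintype.card_fin] at h
  change (six i).rank + _ = _ at h
  -- two independent vectors in the kernel
  have hz : crs i *ᵥ Pi.single i 1 = 0 := by
    fin_cases i <;> funext a <;> fin_cases a <;> simp [crs, mulVec, dotProduct, Fin.sum_univ_three]
  have hz' : (crs i)ᵀ *ᵥ Pi.single i 1 = 0 := by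
    rw [crs_transpose, neg_mulVec, hz, neg_zero]
  set v₁ : Fin 3 ⊕ Fin 3 → ℚ := Sum.elim (Pi.single i 1) 0 with hv₁
  set v₂ : Fin 3 ⊕ Fin 3 → ℚ := Sum.elim 0 (Pi.single i 1) with hv₂
  have h1 : six i *ᵥ v₁ = 0 := by
    funext a
    rcases a with a | a
    · rw [six_mulVec_inl]
      have : (fun b => v₁ (Sum.inr b)) = 0 := rfl
      rw [this, mulVec_zero]
      rfl
    · rw [six_mulVec_inr]
      have : (fun b => v₁ (Sum.inl b)) = Pi.single i 1 := rfl
      rw [this, hz']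
      rfl
  have h2 : six i *ᵥ v₂ = 0 := by
    funext a
    rcases a with a | a
    · rw [six_mulVec_inl]
      have : (fun b => v₂ (Sum.inr b)) = Pi.single i 1 := rfl
      rw [this, hz]
      rfl
    · rw [six_mulVec_inr]
      have : (fun b => v₂ (Sum.inl b)) = 0 := rfl
      rw [this, mulVec_zero]
      rfl
  have hli : LinearIndependent ℚ ![v₁, v₂] := by
    rw [LinearIndependent.pair_iff]
    intro s t hst
    have e1 := congrFun hst (Sum.inl i)
    have e2 := congrFun hst (Sum.inr i)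
    simp [hv₁, hv₂] at e1 e2
    exact ⟨e1, e2⟩
  have hle : Submodule.span ℚ (Set.range ![v₁, v₂]) ≤ LinearMap.ker (six i).mulVecLin := by
    rw [Submodule.span_le]
    rintro _ ⟨l, rfl⟩
    fin_cases l
    · exact h1
    · exact h2
  have h5 := Submodule.finrank_mono hle
  rw [finrank_span_eq_card hli, Fintype.card_fin] at h5
  omega

theorem six_symb_rank : (symbK (0 : Matrix (Fin 3 ⊕ Fin 3) (Fin 3 ⊕ Fin 3) ℚ) six).rank ≤ 4 := by
  have h := rank_add_ker (0 : Matrix (Fin 3 ⊕ Fin 3) (Fin 3 ⊕ Fin 3) ℚ) six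
  rw [Fintype.card_sum, Fintype.card_fin] at h
  set v₁ : Fin 3 ⊕ Fin 3 → MvPolynomial (Fin 3) ℚ := Sum.elim (fun i => X i) 0 with hv₁
  set v₂ : Fin 3 ⊕ Fin 3 → MvPolynomial (Fin 3) ℚ := Sum.elim 0 (fun i => X i) with hv₂
  have h1 : symb (0 : Matrix (Fin 3 ⊕ Fin 3) (Fin 3 ⊕ Fin 3) ℚ) six *ᵥ v₁ = 0 := by
    funext a
    rcases a with a | a
    · simp [mulVec, dotProduct, symb_apply, six, hv₁]
    · fin_cases a <;>
      simp [mulVec, dotProduct, symb_apply, six, hv₁, Fin.sum_univ_three, crs] <;> ring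
  have h2 : symb (0 : Matrix (Fin 3 ⊕ Fin 3) (Fin 3 ⊕ Fin 3) ℚ) six *ᵥ v₂ = 0 := by
    funext a
    rcases a with a | a
    · fin_cases a <;>
      simp [mulVec, dotProduct, symb_apply, six, hv₂, Fin.sum_univ_three, crs] <;> ring
    · simp [mulVec, dotProduct, symb_apply, six, hv₂]
  have hX : algebraMap (MvPolynomial (Fin 3) ℚ) (KK 3 ℚ) (X 0) ≠ 0 := by
    rw [Ne, FaithfulSMul.algebraMap_eq_zero_iff]
    exact X_ne_zero 0
  have hli : LinearIndependent (KK 3 ℚ) ![toK v₁, toK v₂] := by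
    rw [LinearIndependent.pair_iff]
    intro s t hst
    have e1 := congrFun hst (Sum.inl 0)
    have e2 := congrFun hst (Sum.inr 0)
    simp only [Pi.add_apply, Pi.smul_apply, toK, hv₁, hv₂, Sum.elim_inl, Sum.elim_inr,
      Pi.zero_apply, map_zero, mul_zero, add_zero, zero_add, smul_eq_mul] at e1 e2
    exact ⟨(mul_eq_zero.1 e1).resolve_right hX, (mul_eq_zero.1 e2).resolve_right hX⟩
  have hk : ∀ v : Fin 3 ⊕ Fin 3 → MvPolynomial (Fin 3) ℚ,
      symb (0 : Matrix (Fin 3 ⊕ Fin 3) (Fin 3 ⊕ Fin 3) ℚ) six *ᵥ v = 0 →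
      toK v ∈ LinearMap.ker (symbK (0 : Matrix (Fin 3 ⊕ Fin 3) (Fin 3 ⊕ Fin 3) ℚ) six).mulVecLin := by
    intro v hv
    rw [LinearMap.mem_ker, mulVecLin_apply, symbK, toK_mulVec, hv]
    funext a
    simp [toK]
  have hle : Submodule.span (KK 3 ℚ) (Set.range ![toK v₁, toK v₂]) ≤
      LinearMap.ker (symbK (0 : Matrix (Fin 3 ⊕ Fin 3) (Fin 3 ⊕ Fin 3) ℚ) six).mulVecLin := by
    rw [Submodule.span_le]
    rintro _ ⟨l, rfl⟩
    fin_cases l
    · exact hk _ h1
    · exact hk _ h2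
  have h5 := Submodule.finrank_mono hle
  rw [finrank_span_eq_card hli, Fintype.card_fin] at h5
  omega

end Pool.Agent.W925.Sym
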