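import Pool.Agent.W925.UnifPr

/-! The data of a stable ideal are stable (project of helper373, MP_424f45_al). -/

set_option autoImplicit false

namespace Pool.Agent.W925.UnifCFG4

open Pool.Agent.W373.Unif Pool.Agent.W925.Unif

theorem main : S_Cfg4 := by
  intro p _ L _ _ x M I hp hMG hRot
  have h3 := three_ne (p := p) hp
  have h4 := four_ne (p := p) hp
  -- a rotation
  set f := M.lift (fun a => x (rot a)) with hf
  have hfx : ∀ a, f (x a) = x (rot a) := fun a => M.lift_x _ a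
  -- brackets
  have hbr : ∀ a, ∀ y ∈ I, ⁅x a, y⁆ ∈ I := fun a y hy => lie_mem_right _ _ I (x a) y hy
  have sup_ind : ∀ (P : L → Prop), P 0 → (∀ y z, P y → P z → P (y + z)) →
      (∀ j, ∀ y ∈ I, y ∈ wsp ℤ_[p] x j → P y) → ∀ y ∈ I, P y := by
    intro P h0 hadd hj y hy
    refine Submodule.iSup_induction _ (motive := P) (hMG y hy) ?_ h0 hadd
    intro j z hz
    exact hj j z hz.1 hz.2
  refine ⟨⟨?_, ?_, ?_, ?_, ?_, ?_⟩, ?_, ?_, ?_⟩
  · exact fun F hF => hF.1
  · intro F hF j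
    refine ⟨stabT_C2 _ F hF.1 j, ?_⟩
    refine sup_ind _ (pr2_zero M _) (fun y z hy hz => by rw [pr2_add, hy, hz, add_zero]) ?_
    intro i y hyI hyw
    rw [pr2_mask M F i j hyw, hF.2 y hyI, ite_self]
  · intro F hF
    refine ⟨stabR_C2 _ F hF.1, fun y hy => ?_⟩
    rw [pr2_rot f hfx M F y]
    exact hF.2 _ (hRot f hfx y hy)
  · intro F hF
    refine ⟨hF.1, fun a => ⟨fun b c => hF.1.1 a b c, fun y hy => ?_⟩⟩
    have h1 := pr3_bracket M hF.1 a y
    rw [hF.2 _ (hbr a y hy), mul_zero] at h1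
    exact (mul_eq_zero.1 h1.symm).resolve_left h3
  · intro F hF j
    refine ⟨stabT_C3 _ F hF.1 j, ?_⟩
    refine sup_ind _ (pr3_zero M _) (fun y z hy hz => by rw [pr3_add, hy, hz, add_zero]) ?_
    intro i y hyI hyw
    rw [pr3_mask M F i j hyw, hF.2 y hyI, ite_self]
  · intro F hF
    refine ⟨stabR_C3 _ F hF.1, fun y hy => ?_⟩
    rw [pr3_rot f hfx M F y]
    exact hF.2 _ (hRot f hfx y hy)
  · intro F hF
    refine ⟨hF.1, fun a => ⟨hF.1.1 a, fun y hy => ?_⟩⟩
    have h1 := pr4_bracket M hF.1 a y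
    rw [hF.2 _ (hbr a y hy), mul_zero] at h1
    exact (mul_eq_zero.1 h1.symm).resolve_left h4
  · intro F hF j
    refine ⟨stabT_C4 F hF.1 j, ?_⟩
    refine sup_ind _ (pr4_zero M _) (fun y z hy hz => by rw [pr4_add, hy, hz, add_zero]) ?_
    intro i y hyI hyw
    rw [pr4_mask M F i j hyw, hF.2 y hyI, ite_self]
  · intro F hF
    refine ⟨stabR_C4 F hF.1, fun y hy => ?_⟩
    rw [pr4_rot f hfx M F y]
    exact hF.2 _ (hRot f hfx y hy)

end Pool.Agent.W925.UnifCFG4
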