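import Pool.Agent.W925.UnifDeg

/-! CFG5 (project of helper373, MP_424f45_al). -/

set_option autoImplicit false

namespace Pool.Agent.W925.UnifCFG5

open Pool.Agent.W373.Unif Pool.Agent.W925.Unif

section
variable {p : ℕ} [Fact p.Prime] {L : Type} [LieRing L] [LieAlgebra ℤ_[p] L] {x : X → L}

theorem pb3 {I : LieIdeal ℤ_[p] L} (h : ∀ w, (p : ℤ_[p]) • b2 x w ∈ I) (w : W3) :
    (p : ℤ_[p]) • b3 x w ∈ I := by
  obtain ⟨a, w⟩ := w
  have h1 := I.lie_mem (x := x a) (h w)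
  rw [lie_smul] at h1
  exact h1

theorem pb4 {I : LieIdeal ℤ_[p] L} (h : ∀ w, (p : ℤ_[p]) • b2 x w ∈ I) (w : W4) :
    (p : ℤ_[p]) • b4 x w ∈ I := by
  obtain ⟨a, w⟩ := w
  have h1 := I.lie_mem (x := x a) (pb3 h w)
  rw [lie_smul] at h1
  exact h1

end

theorem main (hD : S_Dsw) : S_Cfg5 := by
  intro p _ L _ _ x M I m l hp hMG hR hb hm hl
  have hm0 : (p : ℤ_[p]) ^ m • x 5 ∈ I := (hm m).2 le_rfl
  have hl0 : (p : ℤ_[p]) ^ l • x 0 ∈ I := (hl l).2 le_rfl
  ext y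
  constructor
  · intro hy
    have hy' : y ∈ I := hy
    refine ⟨?_, ?_, ?_, ?_, ?_⟩
    · exact dvd_of_smul_mem (N := (I : Submodule ℤ_[p] L)) (z := x 5)
        (fun n hn => (hm n).1 hn) (cf1_mem M hMG 5 hy')
    · intro a ha
      obtain ⟨k, hk⟩ := exists_rot a ha
      have h1 := rot_iter M hR k _ a (cf1_mem M hMG a hy')
      rw [hk] at h1
      exact dvd_of_smul_mem (N := (I : Submodule ℤ_[p] L)) (z := x 0)
        (fun n hn => (hl n).1 hn) h1
    · intro F hF; exact hF.2 y hy'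
    · intro F hF; exact hF.2 y hy'
    · intro F hF; exact hF.2 y hy'
  · rintro ⟨h5, ha, h2, h3, h4⟩
    have e1 : S1 M y ∈ I := by
      unfold S1
      refine Submodule.sum_mem (I : Submodule ℤ_[p] L) fun a _ => ?_
      by_cases h : a = 5
      · subst h
        exact smul_mem_of_dvd (N := (I : Submodule ℤ_[p] L)) hm0 h5
      · obtain ⟨k, hk⟩ := exists_rot' a h
        have h1 := rot_iter M hR k _ 0 hl0
        rw [hk] at h1
        exact smul_mem_of_dvd (N := (I : Submodule ℤ_[p] L)) h1 (ha a h)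
    have e2 : S2 M y ∈ I := by
      by_contra hc
      obtain ⟨F, hF1, hF2⟩ := dual (b2 x) (I : Submodule ℤ_[p] L) hb (M.cf2 y) hc
      refine hF2 (h2 F ⟨C2_of_kill hF1, fun z hz => hF1 (M.cf2 z) (S2_mem hD hp M hMG hz)⟩)
    have e3 : S3 M y ∈ I := by
      by_contra hc
      obtain ⟨F, hF1, hF2⟩ := dual (b3 x) (I : Submodule ℤ_[p] L) (pb3 hb) (M.cf3 y) hc
      refine hF2 (h3 F ⟨C3_of_kill hF1, fun z hz => hF1 (M.cf3 z) (S3_mem hD hp M hMG hz)⟩)
    have e4 : S4 M y ∈ I := by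
      by_contra hc
      obtain ⟨F, hF1, hF2⟩ := dual (b4 x) (I : Submodule ℤ_[p] L) (pb4 hb) (M.cf4 y) hc
      refine hF2 (h4 F ⟨C4_of_kill hF1, fun z hz => hF1 (M.cf4 z) (S4_mem hD hp M hMG hz)⟩)
    have e5 : (12 : ℤ_[p]) • y ∈ (I : Submodule ℤ_[p] L) := by
      rw [dsw hD M y]
      exact Submodule.add_mem _ (Submodule.add_mem _ (Submodule.add_mem _
        (Submodule.smul_mem _ _ e1) (Submodule.smul_mem _ _ e2)) (Submodule.smul_mem _ _ e3))
        (Submodule.smul_mem _ _ e4)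
    exact mem_of_unit_smul (unit12 hp) e5

end Pool.Agent.W925.UnifCFG5
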