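import Pool.Agent.W925.UnifDeg

/-! CFG6B (project of helper373, MP_424f45_al). -/

set_option autoImplicit false

namespace Pool.Agent.W925.UnifCFG6B

open Pool.Agent.W373.Unif Pool.Agent.W925.Unif

section
variable {p : ℕ} [Fact p.Prime] {L : Type} [LieRing L] [LieAlgebra ℤ_[p] L] {x : X → L}

theorem nak {W : Type} (B : W → L) (I : Submodule ℤ_[p] L) (n : ℕ)
    (hn : ∀ y : L, (p : ℤ_[p]) ^ n • y ∈ I)
    (h : ∀ w, ∃ u ∈ I, ∃ z ∈ Submodule.span ℤ_[p] (Set.range B), B w = u + (p : ℤ_[p]) • z) :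
    ∀ w, B w ∈ I := by
  have H : ∀ y ∈ Submodule.span ℤ_[p] (Set.range B), ∃ u ∈ I,
      ∃ z ∈ Submodule.span ℤ_[p] (Set.range B), y = u + (p : ℤ_[p]) • z := by
    intro y hy
    induction hy using Submodule.span_induction with
    | mem y hy => obtain ⟨w, rfl⟩ := hy; exact h w
    | zero => exact ⟨0, I.zero_mem, 0, Submodule.zero_mem _, by simp⟩
    | add y y' _ _ h1 h2 =>
      obtain ⟨u, hu, z, hz, e⟩ := h1
      obtain ⟨u', hu', z', hz', e'⟩ := h2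
      refine ⟨u + u', I.add_mem hu hu', z + z', Submodule.add_mem _ hz hz', ?_⟩
      rw [e, e', smul_add]; abel
    | smul r y _ h1 =>
      obtain ⟨u, hu, z, hz, e⟩ := h1
      refine ⟨r • u, I.smul_mem r hu, r • z, Submodule.smul_mem _ r hz, ?_⟩
      rw [e, smul_add, smul_smul, smul_smul, mul_comm]
  have H2 : ∀ k : ℕ, ∀ y ∈ Submodule.span ℤ_[p] (Set.range B), ∃ u ∈ I,
      ∃ z ∈ Submodule.span ℤ_[p] (Set.range B), y = u + (p : ℤ_[p]) ^ k • z := by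
    intro k
    induction k with
    | zero => intro y hy; exact ⟨0, I.zero_mem, y, hy, by simp⟩
    | succ k ih =>
      intro y hy
      obtain ⟨u, hu, z, hz, e⟩ := ih y hy
      obtain ⟨u', hu', z', hz', e'⟩ := H z hz
      refine ⟨u + (p : ℤ_[p]) ^ k • u', I.add_mem hu (I.smul_mem _ hu'), z', hz', ?_⟩
      rw [e, e', smul_add, smul_smul, pow_succ]; abel
  intro w
  obtain ⟨u, hu, z, hz, e⟩ := H2 n (B w) (Submodule.subset_span ⟨w, rfl⟩)
  rw [e]
  exact I.add_mem hu (hn z)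

theorem lc_mem_span {W : Type} [Fintype W] (B : W → L) (a : W → ℤ_[p]) :
    lc B a ∈ Submodule.span ℤ_[p] (Set.range B) :=
  Submodule.sum_mem _ fun w _ => Submodule.smul_mem _ _ (Submodule.subset_span ⟨w, rfl⟩)

theorem gen {W : Type} [Fintype W] [DecidableEq W] (B : W → L)
    (cf : L →ₗ[ℤ_[p]] (W → ℤ_[p])) (r : ℤ_[p]) (hr : IsUnit r)
    (hS : ∀ w, lc B (cf (B w)) = r • B w) (I : Submodule ℤ_[p] L)
    (hI : ∀ z ∈ I, lc B (cf z) ∈ I) (n : ℕ) (hn : ∀ y : L, (p : ℤ_[p]) ^ n • y ∈ I)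
    (hF : ∀ F : W → ZMod p, (∀ a, lc B a ∈ I → ev a F = 0) → F = 0) : ∀ w, B w ∈ I := by
  apply nak B I n hn
  intro w
  let T : Submodule ℤ_[p] L := LinearMap.range (LinearMap.lsmul ℤ_[p] L (p : ℤ_[p]))
  have hT : ∀ y : L, (p : ℤ_[p]) • y ∈ I ⊔ T := fun y =>
    Submodule.mem_sup_right ⟨y, rfl⟩
  have h1 : B w ∈ I ⊔ T := by
    by_contra hc
    have hc' : lc B (Pi.single w (1 : ℤ_[p])) ∉ I ⊔ T := by rwa [lc_single]
    obtain ⟨F, hF1, hF2⟩ := dual B (I ⊔ T) (fun w => hT _) _ hc'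
    apply hF2
    rw [hF F (fun a ha => hF1 a (Submodule.mem_sup_left ha))]
    simp [ev]
  obtain ⟨u, hu, v, ⟨z, rfl⟩, e⟩ := Submodule.mem_sup.1 h1
  have e2 : r • B w = lc B (cf u) + (p : ℤ_[p]) • lc B (cf z) := by
    rw [← hS w, ← e, map_add, lc_add, LinearMap.lsmul_apply, map_smul, lc_smul]
  obtain ⟨s, rfl⟩ := hr
  refine ⟨(↑s⁻¹ : ℤ_[p]) • lc B (cf u), I.smul_mem _ (hI u hu), (↑s⁻¹ : ℤ_[p]) • lc B (cf z),
    Submodule.smul_mem _ _ (lc_mem_span B _), ?_⟩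
  have e3 := congrArg (fun t => (↑s⁻¹ : ℤ_[p]) • t) e2
  simp only [smul_smul, Units.inv_mul, one_smul, smul_add] at e3
  rw [e3, smul_smul, mul_comm]

end

theorem main (hD : S_Dsw) (h4 : S_Cfg4) : S_Cfg6b := by
  intro p _ L _ _ x M n I hI hp
  obtain ⟨hMG, hR, hcard, hlcs⟩ := hI
  obtain ⟨hpair, hle4, ht4, hr4⟩ := h4 p L x M I hp hMG hR
  have hn : ∀ y : L, (p : ℤ_[p]) ^ n • y ∈ (I : Submodule ℤ_[p] L) := by
    intro y
    have h1 : Nat.card (L ⧸ (I : Submodule ℤ_[p] L)) •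
        (Submodule.Quotient.mk y : L ⧸ (I : Submodule ℤ_[p] L)) = 0 := card_nsmul_eq_zero'
    rw [hcard] at h1
    rw [← Submodule.Quotient.mk_eq_zero (I : Submodule ℤ_[p] L), Submodule.Quotient.mk_smul]
    rw [← h1, ← Nat.cast_pow, Nat.cast_smul_eq_nsmul]
  have B4 : ¬ ∀ w, b4 x w ∈ (I : Submodule ℤ_[p] L) := by
    intro h
    apply hlcs
    intro y hy
    have hy' : y ∈ (LieModule.lowerCentralSeries ℤ_[p] L L 3 : Submodule ℤ_[p] L) := hy
    rw [M.lcs3] at hy'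
    have : Submodule.span ℤ_[p] (Set.range (b4 x)) ≤ (I : Submodule ℤ_[p] L) := by
      rw [Submodule.span_le]
      rintro _ ⟨w, rfl⟩
      exact h w
    exact this hy'
  have B3 : ¬ ∀ w, b3 x w ∈ (I : Submodule ℤ_[p] L) := by
    intro h
    apply B4
    rintro ⟨a, w⟩
    exact I.lie_mem (x := x a) (h w)
  have B2 : ¬ ∀ w, b2 x w ∈ (I : Submodule ℤ_[p] L) := by
    intro h
    apply B3
    rintro ⟨a, w⟩
    exact I.lie_mem (x := x a) (h w)
  have n2 : VI2 M I ≠ ⊥ := by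
    intro hb
    apply B2
    refine gen (b2 x) M.cf2 2 (unit2 hp) (fun w => S2_b2 hD hp M w) _
      (fun z hz => S2_mem hD hp M hMG hz) n hn ?_
    intro F hF
    have h1 : F ∈ VI2 M I :=
      ⟨C2_of_kill hF, fun z hz => hF (M.cf2 z) (S2_mem hD hp M hMG hz)⟩
    rw [hb] at h1
    exact (Submodule.mem_bot _).1 h1
  have n3 : VI3 M I ≠ ⊥ := by
    intro hb
    apply B3
    refine gen (b3 x) M.cf3 3 (unit3 hp) (fun w => S3_b3 hD hp M w) _
      (fun z hz => S3_mem hD hp M hMG hz) n hn ?_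
    intro F hF
    have h1 : F ∈ VI3 M I :=
      ⟨C3_of_kill hF, fun z hz => hF (M.cf3 z) (S3_mem hD hp M hMG hz)⟩
    rw [hb] at h1
    exact (Submodule.mem_bot _).1 h1
  have n4 : VI4 M I ≠ ⊥ := by
    intro hb
    apply B4
    refine gen (b4 x) M.cf4 4 (unit4 hp) (fun w => S4_b4 hD hp M w) _
      (fun z hz => S4_mem hD hp M hMG hz) n hn ?_
    intro F hF
    have h1 : F ∈ VI4 M I :=
      ⟨C4_of_kill hF, fun z hz => hF (M.cf4 z) (S4_mem hD hp M hMG hz)⟩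
    rw [hb] at h1
    exact (Submodule.mem_bot _).1 h1
  refine ⟨five_le2 (two_ne p hp) hpair.le2 hpair.t2 hpair.r2 n2,
    five_le3 (two_ne p hp) (fun F hF => (hpair.le3 hF).1) hpair.t3 hpair.r3 n3,
    five_le4 (two_ne p hp) (fun F hF => (hle4 hF).1) ht4 hr4 n4, ?_⟩
  intro hx0
  have hxa : ∀ a : X, a ≠ 5 → x a ∈ I := by
    intro a ha
    obtain ⟨k, hk⟩ := exists_rot' a ha
    have h1 := rot_iter M hR k 1 0 (by rwa [one_smul])
    rwa [hk, one_smul] at h1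
  apply B2
  rintro ⟨a, b⟩
  by_cases hb : b = 5
  · by_cases ha : a = 5
    · subst ha; subst hb
      have : b2 x (5, 5) = (0 : L) := lie_self _
      rw [this]; exact Submodule.zero_mem _
    · have h1 := I.lie_mem (x := x b) (hxa a ha)
      have h2 : b2 x (a, b) = -⁅x b, x a⁆ := (lie_skew (x a) (x b)).symm
      rw [h2]
      exact Submodule.neg_mem _ h1
  · exact I.lie_mem (x := x a) (hxa b hb)

end Pool.Agent.W925.UnifCFG6B
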