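import Pool.Agent.W373.Unif.Statements
import Pool.Agent.W373.Unif.Basic

/-! COMB (project of helper373, MP_424f45_al). -/

set_option autoImplicit false

namespace Pool.Agent.W925.UnifCOMB

open Pool.Agent.W373.Unif

/-! ### the spaces `DT i` -/

theorem tri_rot : ∀ i : Fin 4, ∀ w : W3, tri i (rot3 w) → tri i w := by decide +kernel
theorem tri_disj : ∀ w : W3, ∀ i j : Fin 4, tri i w → tri j w → i = j := by decide +kernel

section
variable {k : Type} [Field k]

theorem tri_wt {i : Fin 4} {w w' : W3} (h : wt3 w' = wt3 w) (hw : tri i w) : tri i w' := by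
  obtain ⟨j, hj⟩ := hw
  exact ⟨j, h.trans hj⟩

theorem stabT_DT (i : Fin 4) : StabT wt4 (DT k i) := by
  intro F hF j
  refine ⟨stabT_C4 F hF.1 j, fun x w hw => ?_⟩
  have := hF.2 x w hw
  simp only [this, ite_self]

theorem stabR_DT (i : Fin 4) : StabR rot4 (DT k i) := by
  intro F hF
  refine ⟨stabR_C4 F hF.1, fun x w hw => ?_⟩
  exact hF.2 (rot x) (rot3 w) (fun h => hw (tri_rot i w h))

theorem DT_disj {i j : Fin 4} (hij : i ≠ j) {F : W4 → k} (h1 : F ∈ DT k i) (h2 : F ∈ DT k j) :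
    F = 0 := by
  funext w
  obtain ⟨x, w⟩ := w
  by_cases h : tri i w
  · by_cases h' : tri j w
    · exact absurd (tri_disj w i j h h') hij
    · exact h2.2 x w h'
  · exact h1.2 x w h

/-- unit vectors -/
def sg {W : Type} [DecidableEq W] (v : W) : W → ℤ := fun w => if w = v then 1 else 0

theorem sum_sg {W : Type} [Fintype W] [DecidableEq W] (v : W) (F : W → k) :
    ∑ w, ((sg v w : ℤ) : k) * F w = F v := by
  rw [Finset.sum_eq_single v]
  · simp [sg]
  · intro b _ hb
    simp [sg, hb]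
  · intro h; exact absurd (Finset.mem_univ v) h

/-- integer system for `DT i` -/
def Amat (i : Fin 4) : (W4 ⊕ W4) ⊕ (W4 ⊕ W4) → W4 → ℤ
  | Sum.inl (Sum.inl (x, a, b, c)) => fun w => sg (x, a, b, c) w + sg (x, a, c, b) w
  | Sum.inl (Sum.inr (x, a, b, c)) => fun w =>
      sg (x, a, b, c) w + sg (x, b, c, a) w + sg (x, c, a, b) w
  | Sum.inr (Sum.inl (a, b, c, d)) => fun w =>
      sg (a, b, c, d) w - sg (b, a, c, d) w + sg (c, d, a, b) w - sg (d, c, a, b) w
  | Sum.inr (Sum.inr v) => fun w => if tri i v.2 then 0 else sg v w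

theorem solZ_Amat (i : Fin 4) : solZ (Amat i) k = DT k i := by
  ext F
  constructor
  · intro h
    refine ⟨⟨fun x => ⟨fun a b c => ?_, fun a b c => ?_⟩, fun a b c d => ?_⟩, fun x w hw => ?_⟩
    · have h1 := h (Sum.inl (Sum.inl (x, a, b, c)))
      simp only [Amat, Int.cast_add, add_mul, Finset.sum_add_distrib, sum_sg] at h1
      exact h1
    · have h1 := h (Sum.inl (Sum.inr (x, a, b, c)))
      simp only [Amat, Int.cast_add, add_mul, Finset.sum_add_distrib, sum_sg] at h1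
      exact h1
    · have h1 := h (Sum.inr (Sum.inl (a, b, c, d)))
      simp only [Amat, Int.cast_add, Int.cast_sub, add_mul, sub_mul, Finset.sum_add_distrib,
        Finset.sum_sub_distrib, sum_sg] at h1
      exact h1
    · have h1 := h (Sum.inr (Sum.inr (x, w)))
      simp only [Amat, if_neg hw, sum_sg] at h1
      exact h1
  · rintro ⟨⟨h1, h2⟩, h3⟩ ((⟨x, a, b, c⟩ | ⟨x, a, b, c⟩) | (⟨a, b, c, d⟩ | ⟨x, w⟩))
    · simp only [Amat, Int.cast_add, add_mul, Finset.sum_add_distrib, sum_sg]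
      exact (h1 x).1 a b c
    · simp only [Amat, Int.cast_add, add_mul, Finset.sum_add_distrib, sum_sg]
      exact (h1 x).2 a b c
    · simp only [Amat, Int.cast_add, Int.cast_sub, add_mul, sub_mul, Finset.sum_add_distrib,
        Finset.sum_sub_distrib, sum_sg]
      exact h2 a b c d
    · simp only [Amat]
      by_cases h : tri i w
      · simp [h]
      · simp only [if_neg h, sum_sg]
        exact h3 x w h

end

/-! ### finiteness and roots of unity -/

instance finSub {k W : Type} [Field k] [Finite k] [Finite W] : Finite (Submodule k (W → k)) :=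
  Finite.of_injective (fun V : Submodule k (W → k) => (V : Set (W → k))) SetLike.coe_injective

theorem exists_root (p : ℕ) [Fact p.Prime] (hp : p % 5 ^ 6 = 1) :
    ∃ ζ : ZMod p, IsPrimitiveRoot ζ (5 ^ 6) := by
  obtain ⟨g, hg⟩ := IsCyclic.exists_ofOrder_eq_natCard (α := (ZMod p)ˣ)
  rw [Nat.card_eq_fintype_card, ZMod.card_units_eq_totient, Nat.totient_prime Fact.out] at hg
  have h1 : 5 ^ 6 ∣ p - 1 := by
    have := Nat.div_add_mod p (5 ^ 6)
    exact ⟨p / 5 ^ 6, by omega⟩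
  obtain ⟨m, hm⟩ := h1
  have hpos : 0 < p - 1 := by
    have := (Fact.out : p.Prime).two_le
    omega
  have hm0 : m ≠ 0 := by rintro rfl; omega
  have h2 : orderOf (g ^ m) = 5 ^ 6 := by
    rw [orderOf_pow_of_dvd hm0 (by rw [hg, hm]; exact dvd_mul_left _ _), hg, hm]
    exact Nat.mul_div_cancel _ (Nat.pos_of_ne_zero hm0)
  refine ⟨((g ^ m : (ZMod p)ˣ) : ZMod p), ?_⟩
  rw [IsPrimitiveRoot.coe_units_iff, ← h2]
  exact IsPrimitiveRoot.orderOf _

theorem card_split {α : Type} [Finite α] (P Q : α → Prop) :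
    Nat.card {a // P a} = Nat.card {a // P a ∧ Q a} + Nat.card {a // P a ∧ ¬ Q a} := by
  classical
  rw [← Nat.card_sum]
  apply Nat.card_congr
  exact
    { toFun := fun a => if h : Q a.1 then Sum.inl ⟨a.1, a.2, h⟩ else Sum.inr ⟨a.1, a.2, h⟩
      invFun := fun s => Sum.elim (fun a => ⟨a.1, a.2.1⟩) (fun a => ⟨a.1, a.2.1⟩) s
      left_inv := by
        intro a
        by_cases h : Q a.1
        · simp [h]
        · simp [h]
      right_inv := by
        rintro (a | a)
        · simp [a.2.2]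
        · simp [a.2.2] }

section
variable (p : ℕ) [Fact p.Prime]

/-- subspaces counted by `R_i` -/
def PR (i : Fin 4) (V : Submodule (ZMod p) (W4 → ZMod p)) : Prop :=
  V ≤ DT (ZMod p) i ∧ StabT wt4 V ∧ StabR rot4 V ∧ Module.finrank (ZMod p) V = 5

/-- the non full configurations -/
noncomputable def nf : ℕ :=
  Nat.card {V : Submodule (ZMod p) (W2 → ZMod p) × Submodule (ZMod p) (W3 → ZMod p) ×
    Submodule (ZMod p) (W4 → ZMod p) // IsCfg 4 V.1 V.2.1 V.2.2 ∧ ¬ Full V.1 V.2.1}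

theorem nf_eq (hN : S_CombN) (hp : 5 < p) : nf p = ∑ i : Fin 4,
    Nat.card {V : Submodule (ZMod p) (W4 → ZMod p) // PR p i V ∧
      Module.finrank (ZMod p) (dV V) = 5} := by
  unfold nf
  rw [← Nat.card_sigma]
  symm
  refine Nat.card_congr (Equiv.ofBijective (fun s => ⟨(CP (ZMod p) s.1, dV s.2.1, s.2.1), ?_⟩)
    ⟨?_, ?_⟩)
  · exact (hN p hp _ _ _).2 ⟨s.1, s.2.2.1.1, s.2.2.1.2.1, s.2.2.1.2.2.1, s.2.2.1.2.2.2, s.2.2.2,
      rfl, rfl⟩
  · rintro ⟨i, V, hV⟩ ⟨j, V', hV'⟩ h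
    have h1 := congrArg (fun t => t.1.2.2) h
    simp only at h1
    subst h1
    by_cases hij : i = j
    · subst hij; rfl
    · exfalso
      have hbot : V = ⊥ := by
        rw [eq_bot_iff]
        intro F hF
        rw [Submodule.mem_bot]
        exact DT_disj hij (hV.1.1 hF) (hV'.1.1 hF)
      have h5 := hV.1.2.2.2
      rw [hbot, finrank_bot] at h5
      exact absurd h5 (by norm_num)
  · rintro ⟨⟨V2, V3, V4⟩, hV⟩
    obtain ⟨i, h1, h2, h3, h4, h5, h6, h7⟩ := (hN p hp _ _ _).1 hV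
    refine ⟨⟨i, V4, ⟨h1, h2, h3, h4⟩, h5⟩, ?_⟩
    simp only at h6 h7
    subst h6 h7
    rfl

theorem R_eq (hC : S_Cnt) (hS : S_Stab) (hp : p % 5 ^ 6 = 1) (i : Fin 4) :
    Nat.card {V : Submodule (ZMod p) (W4 → ZMod p) // PR p i V} ≡
      (Module.finrank (ZMod p) (DT (ZMod p) i)).choose 5 [MOD 5] := by
  obtain ⟨ζ, hζ⟩ := exists_root p hp
  have h1 := hS (ZMod p) W4 ζ wt4 rot4 hζ wt4_lt wt4_iff rot4_five (DT (ZMod p) i)
    (stabT_DT i) (stabR_DT i) 5
  have h2 := hC (ZMod p) (DT (ZMod p) i) ζ hζ (by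
    refine lt_of_le_of_lt (Submodule.finrank_le _) ?_
    rw [Module.finrank_fintype_fun_eq_card]
    simp only [Fintype.card_prod, Fintype.card_fin]
    norm_num) 5
  exact h1.trans h2

end

theorem main : S_EC → S_Cnt → S_Stab → S_CombA → S_CombF → S_CombN → S_CombE → S_Comb := by
  intro hEC hC hS hA hF hN hE
  obtain ⟨N3, c3, h3⟩ := hA 3
  obtain ⟨N4, c4, h4⟩ := hA 4
  have hg : ∀ i : Fin 4, ∃ N g : ℕ, ∀ (p : ℕ) [Fact p.Prime], N < p →
      Module.finrank (ZMod p) (DT (ZMod p) i) = g := by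
    intro i
    obtain ⟨N, g, h⟩ := hEC _ _ (Amat i)
    refine ⟨N, g, fun p _ hp => ?_⟩
    rw [← h p hp, solZ_Amat]
  choose N g hg using hg
  refine ⟨max (max N3 N4) (max 5 (max (max (N 0) (N 1)) (max (N 2) (N 3)))),
    2 * c3 + c4 + ((g 0).choose 5 + (g 1).choose 5 + (g 2).choose 5 + (g 3).choose 5) + 6, ?_⟩
  intro p _ hp hp1
  have hp5 : 5 < p := by omega
  have e3 : cfgCount p 3 ≡ c3 [MOD 5] := by
    have : cfgCount p 3 = Nat.card {V : Submodule (ZMod p) (W2 → ZMod p) ×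
        Submodule (ZMod p) (W3 → ZMod p) × Submodule (ZMod p) (W4 → ZMod p) //
        IsCfg 3 V.1 V.2.1 V.2.2 ∧ Full V.1 V.2.1} := by
      unfold cfgCount
      apply Nat.card_congr
      exact Equiv.subtypeEquivRight fun V => ⟨fun h => ⟨h, hF p hp5 _ _ _ h⟩, fun h => h.1⟩
    rw [this]
    exact h3 p (by omega) hp1
  have e4 : cfgCount p 4 = Nat.card {V : Submodule (ZMod p) (W2 → ZMod p) ×
        Submodule (ZMod p) (W3 → ZMod p) × Submodule (ZMod p) (W4 → ZMod p) //
        IsCfg 4 V.1 V.2.1 V.2.2 ∧ Full V.1 V.2.1} + nf p := by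
    unfold cfgCount nf
    exact card_split _ _
  have e5 := h4 p (by omega) hp1
  have e6 := nf_eq p hN hp5
  rw [Fin.sum_univ_four] at e6
  have e7 : ∀ i : Fin 4, Nat.card {V : Submodule (ZMod p) (W4 → ZMod p) // PR p i V} =
      Nat.card {V : Submodule (ZMod p) (W4 → ZMod p) // PR p i V ∧
        Module.finrank (ZMod p) (dV V) = 5} +
      Nat.card {V4 : Submodule (ZMod p) (W4 → ZMod p) // V4 ≤ DT (ZMod p) i ∧ StabT wt4 V4 ∧
        StabR rot4 V4 ∧ Module.finrank (ZMod p) V4 = 5 ∧ Module.finrank (ZMod p) (dV V4) ≠ 5} := by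
    intro i
    rw [card_split (PR p i) (fun V => Module.finrank (ZMod p) (dV V) = 5)]
    congr 1
    apply Nat.card_congr
    refine Equiv.subtypeEquivRight fun V => ?_
    unfold PR
    tauto
  have e8 := fun i => R_eq p hC hS hp1 i
  have g0 := hg 0 p (by omega)
  have g1 := hg 1 p (by omega)
  have g2 := hg 2 p (by omega)
  have g3 := hg 3 p (by omega)
  have r0 := e8 0
  have r1 := e8 1
  have r2 := e8 2
  have r3 := e8 3
  rw [g0] at r0
  rw [g1] at r1
  rw [g2] at r2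
  rw [g3] at r3
  have s0 := e7 0
  have s1 := e7 1
  have s2 := e7 2
  have s3 := e7 3
  have t0 := hE p hp5 0
  have t1 := hE p hp5 1
  have t2 := hE p hp5 2
  have t3 := hE p hp5 3
  rw [if_pos (by decide)] at t0 t1
  rw [if_neg (by decide)] at t2 t3
  have hpm : p % 5 = 1 := by omega
  unfold Nat.ModEq at *
  omega

end Pool.Agent.W925.UnifCOMB
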