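import Mathlib

set_option autoImplicit false

/-!
# A `G_δ` subgroup of the permutations of `ℕ` is closed

If `G` is a subgroup of `Equiv.Perm ℕ` whose image in Baire space is a `G_δ` set, then `G`
contains every permutation which is a pointwise limit of elements of `G`.
-/

namespace Pool.Agent.W925.Cof

open Set

/-- A basic neighbourhood in Baire space. -/
theorem exists_finset_of_mem_nhds {f : ℕ → ℕ} {U : Set (ℕ → ℕ)} (hU : IsOpen U) (hf : f ∈ U) :
    ∃ F : Finset ℕ, ∀ g : ℕ → ℕ, (∀ x ∈ F, g x = f x) → g ∈ U := by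
  rw [isOpen_pi_iff] at hU
  obtain ⟨F, u, hu, hsub⟩ := hU f hf
  refine ⟨F, fun g hg => hsub ?_⟩
  intro x hx
  rw [hg x hx]
  exact (hu x hx).2

/-- The cylinder of functions agreeing with `f` on the finite set `F` is open. -/
theorem isOpen_cyl (f : ℕ → ℕ) (F : Finset ℕ) : IsOpen {g : ℕ → ℕ | ∀ x ∈ F, g x = f x} := by
  have : {g : ℕ → ℕ | ∀ x ∈ F, g x = f x} = ⋂ x ∈ F, (fun g : ℕ → ℕ => g x) ⁻¹' {f x} := by
    ext g; simp
  rw [this]
  apply isOpen_biInter_finset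
  intro x _
  exact (isOpen_discrete _).preimage (continuous_apply x)

theorem mem_closure_iff_finset {f : ℕ → ℕ} {S : Set (ℕ → ℕ)} :
    f ∈ closure S ↔ ∀ F : Finset ℕ, ∃ g ∈ S, ∀ x ∈ F, g x = f x := by
  rw [mem_closure_iff]
  constructor
  · intro h F
    obtain ⟨g, hg1, hg2⟩ := h _ (isOpen_cyl f F) (by simp)
    exact ⟨g, hg2, hg1⟩
  · intro h o ho hfo
    obtain ⟨F, hF⟩ := exists_finset_of_mem_nhds ho hfo
    obtain ⟨g, hg, hgF⟩ := h F
    exact ⟨g, hF g hgF, hg⟩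

/-- The set of functions underlying a group of permutations. -/
def img (G : Subgroup (Equiv.Perm ℕ)) : Set (ℕ → ℕ) :=
  (fun g : Equiv.Perm ℕ => (⇑g : ℕ → ℕ)) '' (G : Set (Equiv.Perm ℕ))

theorem mem_img {G : Subgroup (Equiv.Perm ℕ)} {g : Equiv.Perm ℕ} :
    (⇑g : ℕ → ℕ) ∈ img G ↔ g ∈ G := by
  constructor
  · rintro ⟨h, hh, he⟩
    have : h = g := DFunLike.coe_injective he
    rw [← this]; exact hh
  · intro h; exact ⟨g, h, rfl⟩

/-- Left multiplication by a limit of `G` preserves the closure. -/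
theorem comp_mem_closure {G : Subgroup (Equiv.Perm ℕ)} {s : Equiv.Perm ℕ}
    (hs : ∀ F : Finset ℕ, ∃ g ∈ G, ∀ x ∈ F, g x = s x) {f : ℕ → ℕ} (hf : f ∈ closure (img G)) :
    (⇑s ∘ f) ∈ closure (img G) := by
  rw [mem_closure_iff_finset] at hf ⊢
  intro F
  obtain ⟨_, ⟨g, hg, rfl⟩, hgF⟩ := hf F
  obtain ⟨a, ha, haF⟩ := hs (F.image f)
  refine ⟨⇑(a * g), ⟨a * g, G.mul_mem ha hg, rfl⟩, ?_⟩
  intro x hx
  have h1 := hgF x hx
  simp only at h1
  rw [Equiv.Perm.mul_apply, h1, Function.comp_apply]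
  exact haF _ (Finset.mem_image_of_mem _ hx)

theorem inv_limit {G : Subgroup (Equiv.Perm ℕ)} {s : Equiv.Perm ℕ}
    (hs : ∀ F : Finset ℕ, ∃ g ∈ G, ∀ x ∈ F, g x = s x) :
    ∀ F : Finset ℕ, ∃ g ∈ G, ∀ x ∈ F, g x = s⁻¹ x := by
  intro F
  obtain ⟨a, ha, haF⟩ := hs (F.image (⇑s⁻¹))
  refine ⟨a⁻¹, G.inv_mem ha, ?_⟩
  intro x hx
  rw [Equiv.Perm.inv_eq_iff_eq, haF _ (Finset.mem_image_of_mem _ hx)]
  simp

/-- **Closedness.** A subgroup of `Sym(ℕ)` that is a `G_δ` subset of Baire space contains every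
permutation of `ℕ` that is a pointwise limit of its elements. -/
theorem mem_of_limit {G : Subgroup (Equiv.Perm ℕ)} (hG : IsGδ (img G)) {s : Equiv.Perm ℕ}
    (hs : ∀ F : Finset ℕ, ∃ g ∈ G, ∀ x ∈ F, g x = s x) : s ∈ G := by
  classical
  set C : Set (ℕ → ℕ) := closure (img G) with hC
  have hCcl : IsClosed C := isClosed_closure
  have : PolishSpace C := hCcl.polishSpace
  have : BaireSpace C := inferInstance
  -- the homeomorphism of C given by left multiplication with s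
  have hs' := inv_limit hs
  let A : Set C := {f | (f : ℕ → ℕ) ∈ img G}
  let B : Set C := {f | (⇑s⁻¹ ∘ (f : ℕ → ℕ)) ∈ img G}
  have hA : IsGδ A := hG.preimage continuous_subtype_val
  have hcont : Continuous (fun f : C => (⇑s⁻¹ ∘ (f : ℕ → ℕ))) := by
    apply continuous_pi
    intro x
    exact continuous_of_discreteTopology.comp ((continuous_apply x).comp continuous_subtype_val)
  have hB : IsGδ B := hG.preimage hcont
  have hAd : Dense A := by
    intro f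
    rw [mem_closure_iff_nhds]
    intro t ht
    rw [nhds_subtype_eq_comap, Filter.mem_comap] at ht
    obtain ⟨u, hu, hut⟩ := ht
    obtain ⟨v, hvu, hv, hfv⟩ := mem_nhds_iff.1 hu
    obtain ⟨g, hgv, hgG⟩ := mem_closure_iff.1 f.2 v hv hfv
    exact ⟨⟨g, subset_closure hgG⟩, hut (hvu hgv), hgG⟩
  have hBd : Dense B := by
    intro f
    rw [mem_closure_iff_nhds]
    intro t ht
    rw [nhds_subtype_eq_comap, Filter.mem_comap] at ht
    obtain ⟨u, hu, hut⟩ := ht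
    obtain ⟨v, hvu, hv, hfv⟩ := mem_nhds_iff.1 hu
    obtain ⟨F, hF⟩ := exists_finset_of_mem_nhds hv hfv
    have h1 : (⇑s⁻¹ ∘ (f : ℕ → ℕ)) ∈ C := comp_mem_closure hs' f.2
    obtain ⟨g, hgG, hgF⟩ := mem_closure_iff_finset.1 h1 F
    have h2 : (⇑s ∘ g) ∈ C := comp_mem_closure hs (subset_closure hgG)
    refine ⟨⟨⇑s ∘ g, h2⟩, hut (hvu (hF _ ?_)), ?_⟩
    · intro x hx
      simp [hgF x hx]
    · change (⇑s⁻¹ ∘ (⇑s ∘ g)) ∈ img G
      have : (⇑s⁻¹ ∘ (⇑s ∘ g)) = g := by ext x; simp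
      rw [this]; exact hgG
  have hAB : Dense (A ∩ B) := Dense.inter_of_Gδ hA hB hAd hBd
  have : Nonempty C := ⟨⟨⇑(1 : Equiv.Perm ℕ), subset_closure (mem_img.2 G.one_mem)⟩⟩
  obtain ⟨f, hfA, hfB⟩ := hAB.nonempty
  obtain ⟨g, hg, hgf⟩ := hfA
  obtain ⟨k, hk, hkf⟩ := hfB
  have : s = g * k⁻¹ := by
    ext x
    have h1 : k (k⁻¹ x) = s⁻¹ (g (k⁻¹ x)) := by
      have := congrFun hkf (k⁻¹ x)
      simp only [Function.comp_apply] at this
      rw [this, ← hgf]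
    rw [Equiv.Perm.mul_apply]
    have h2 : x = s⁻¹ (g (k⁻¹ x)) := by rw [← h1]; simp
    have h3 : s x = s (s⁻¹ (g (k⁻¹ x))) := by rw [← h2]
    rw [h3]; simp
  rw [this]
  exact G.mul_mem hg (G.inv_mem hk)

end Pool.Agent.W925.Cof
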