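import Mathlib

set_option autoImplicit false

/-!
# A closed group with finitely many orbits for all pointwise stabilisers is not cofinitary

Let `G` be a subgroup of `Equiv.Perm ℕ`, closed under pointwise limits, such that for every finite
`E ⊆ ℕ` the pointwise stabiliser `G_E` has only finitely many orbits.  Then `G` has an element
other than the identity with infinitely many fixed points.
-/

namespace Pool.Agent.W925.Cof

open Set

/-- The pointwise stabiliser in `G` of the finite set `E` has finitely many orbits on `ℕ`: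
a finite set `R` meets all of them. -/
def FinOrb (G : Subgroup (Equiv.Perm ℕ)) (E : Finset ℕ) : Prop :=
  ∃ R : Finset ℕ, ∀ x : ℕ, ∃ h ∈ G, (∀ e ∈ E, h e = e) ∧ h x ∈ R

theorem pigeon {α : Type*} (R : Finset α) (P : α → ℕ → Prop)
    (hmono : ∀ m N N', N ≤ N' → P m N' → P m N) (h : ∀ N, ∃ m ∈ R, P m N) :
    ∃ m ∈ R, ∀ N, P m N := by
  by_contra hc
  push Not at hc
  choose! f hf using hc
  obtain ⟨m, hm, hP⟩ := h (R.sup f)
  exact hf m hm (hmono _ _ _ (Finset.le_sup hm) hP)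

/-- `g` extends `p` and has at least `N` fixed points. -/
def Ext (p : Finset (ℕ × ℕ)) (N : ℕ) (g : Equiv.Perm ℕ) : Prop :=
  (∀ q ∈ p, g q.1 = q.2) ∧ ∃ T : Finset ℕ, N ≤ T.card ∧ ∀ x ∈ T, g x = x

/-- `p` extends to elements of `G` with arbitrarily many fixed points. -/
def Good (G : Subgroup (Equiv.Perm ℕ)) (p : Finset (ℕ × ℕ)) : Prop :=
  ∀ N : ℕ, ∃ g ∈ G, Ext p N g

theorem Ext.mono {p : Finset (ℕ × ℕ)} {N N' : ℕ} {g : Equiv.Perm ℕ} (h : Ext p N' g)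
    (hN : N ≤ N') : Ext p N g := by
  obtain ⟨h1, T, h2, h3⟩ := h
  exact ⟨h1, T, hN.trans h2, h3⟩

/-- Conjugates have the same number of fixed points. -/
theorem conj_fix {N : ℕ} {g k : Equiv.Perm ℕ} (h : ∃ T : Finset ℕ, N ≤ T.card ∧ ∀ x ∈ T, g x = x) :
    ∃ T : Finset ℕ, N ≤ T.card ∧ ∀ x ∈ T, (k * g * k⁻¹) x = x := by
  obtain ⟨T, h2, h3⟩ := h
  refine ⟨T.map k.toEmbedding, by simpa using h2, ?_⟩
  intro x hx
  rw [Finset.mem_map] at hx
  obtain ⟨y, hy, rfl⟩ := hx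
  simp [h3 y hy]

/-- Conjugating by an element which fixes the support of `p` preserves `Ext`. -/
theorem Ext.conj {p : Finset (ℕ × ℕ)} {N : ℕ} {g k : Equiv.Perm ℕ} (h : Ext p N g)
    (hk1 : ∀ q ∈ p, k q.1 = q.1) (hk2 : ∀ q ∈ p, k q.2 = q.2) : Ext p N (k * g * k⁻¹) := by
  refine ⟨?_, conj_fix h.2⟩
  intro q hq
  have h1 : k⁻¹ q.1 = q.1 := by
    rw [Equiv.Perm.inv_eq_iff_eq]; exact (hk1 q hq).symm
  rw [Equiv.Perm.mul_apply, Equiv.Perm.mul_apply, h1, h.1 q hq, hk2 q hq]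

theorem Ext.insert {p : Finset (ℕ × ℕ)} {N : ℕ} {g : Equiv.Perm ℕ} (h : Ext p N g) {a b : ℕ}
    (hab : g a = b) : Ext (insert (a, b) p) N g := by
  refine ⟨?_, h.2⟩
  intro q hq
  rw [Finset.mem_insert] at hq
  rcases hq with rfl | hq
  · exact hab
  · exact h.1 q hq

/-- The support of a finite partial map. -/
def supp (p : Finset (ℕ × ℕ)) : Finset ℕ := p.image Prod.fst ∪ p.image Prod.snd

theorem fst_mem_supp {p : Finset (ℕ × ℕ)} {q : ℕ × ℕ} (hq : q ∈ p) : q.1 ∈ supp p :=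
  Finset.mem_union_left _ (Finset.mem_image_of_mem _ hq)

theorem snd_mem_supp {p : Finset (ℕ × ℕ)} {q : ℕ × ℕ} (hq : q ∈ p) : q.2 ∈ supp p :=
  Finset.mem_union_right _ (Finset.mem_image_of_mem _ hq)

variable {G : Subgroup (Equiv.Perm ℕ)}

theorem Good.ext_dom (hO : ∀ E, FinOrb G E) {p : Finset (ℕ × ℕ)} (hp : Good G p) (m : ℕ) :
    ∃ m', Good G (insert (m, m') p) := by
  obtain ⟨R, hR⟩ := hO (insert m (supp p))
  have := pigeon R (fun m' N => ∃ g ∈ G, Ext (insert (m, m') p) N g)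
    (fun m' N N' hN ⟨g, hg, hE⟩ => ⟨g, hg, hE.mono hN⟩) ?_
  · obtain ⟨m', _, h⟩ := this
    exact ⟨m', h⟩
  · intro N
    obtain ⟨g, hg, hE⟩ := hp N
    obtain ⟨k, hk, hkE, hkR⟩ := hR (g m)
    refine ⟨k (g m), hkR, k * g * k⁻¹, G.mul_mem (G.mul_mem hk hg) (G.inv_mem hk), ?_⟩
    apply Ext.insert (hE.conj ?_ ?_)
    · have h1 : k⁻¹ m = m := by
        rw [Equiv.Perm.inv_eq_iff_eq]; exact (hkE m (Finset.mem_insert_self _ _)).symm
      rw [Equiv.Perm.mul_apply, Equiv.Perm.mul_apply, h1]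
    · intro q hq
      exact hkE _ (Finset.mem_insert_of_mem (fst_mem_supp hq))
    · intro q hq
      exact hkE _ (Finset.mem_insert_of_mem (snd_mem_supp hq))

theorem Good.swap {p : Finset (ℕ × ℕ)} (hp : Good G p) : Good G (p.image Prod.swap) := by
  intro N
  obtain ⟨g, hg, hE, T, hT, hTf⟩ := hp N
  refine ⟨g⁻¹, G.inv_mem hg, ?_, T, hT, ?_⟩
  · intro q hq
    rw [Finset.mem_image] at hq
    obtain ⟨r, hr, rfl⟩ := hq
    rw [Equiv.Perm.inv_eq_iff_eq]
    exact (hE r hr).symm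
  · intro x hx
    rw [Equiv.Perm.inv_eq_iff_eq]
    exact (hTf x hx).symm

theorem Good.ext_ran (hO : ∀ E, FinOrb G E) {p : Finset (ℕ × ℕ)} (hp : Good G p) (m : ℕ) :
    ∃ m', Good G (insert (m', m) p) := by
  obtain ⟨m', h⟩ := hp.swap.ext_dom hO m
  refine ⟨m', ?_⟩
  have := h.swap
  rw [Finset.image_insert, Finset.image_image] at this
  simpa using this

theorem Good.ext_fix (hO : ∀ E, FinOrb G E) {p : Finset (ℕ × ℕ)} (hp : Good G p) :
    ∃ m, m ∉ p.image Prod.fst ∧ Good G (insert (m, m) p) := by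
  obtain ⟨R, hR⟩ := hO (supp p)
  have := pigeon R (fun m N => m ∉ supp p ∧ ∃ g ∈ G, Ext (insert (m, m) p) N g)
    (fun m N N' hN ⟨h1, g, hg, hE⟩ => ⟨h1, g, hg, hE.mono hN⟩) ?_
  · obtain ⟨m, _, h⟩ := this
    refine ⟨m, fun h1 => (h 0).1 (Finset.mem_union_left _ h1), fun N => (h N).2⟩
  · intro N
    obtain ⟨g, hg, hE⟩ := hp (N + (supp p).card + 1)
    obtain ⟨T, hT, hTf⟩ := hE.2
    have : ∃ x ∈ T, x ∉ supp p := by
      by_contra hc
      push Not at hc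
      have := Finset.card_le_card (fun x hx => hc x hx : T ⊆ supp p)
      omega
    obtain ⟨x, hxT, hxp⟩ := this
    obtain ⟨k, hk, hkE, hkR⟩ := hR x
    refine ⟨k x, hkR, ?_, k * g * k⁻¹, G.mul_mem (G.mul_mem hk hg) (G.inv_mem hk), ?_⟩
    · intro hc
      apply hxp
      have h1 : k (k x) = k x := hkE _ hc
      have h2 : k x = x := k.injective h1
      rwa [h2] at hc
    · apply Ext.insert ((hE.mono (by omega)).conj ?_ ?_)
      · simp [hTf x hxT]
      · intro q hq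
        exact hkE _ (fst_mem_supp hq)
      · intro q hq
        exact hkE _ (snd_mem_supp hq)

theorem Good.start (hO : ∀ E, FinOrb G E) : ∃ a b : ℕ, a ≠ b ∧ Good G {(a, b)} := by
  obtain ⟨R₀, hR₀⟩ := hO ∅
  choose R hR using (fun r : ℕ => hO {r})
  have := pigeon (R₀.biUnion (fun r => (R r).image (fun s => (r, s))))
    (fun q N => q.1 ≠ q.2 ∧ ∃ g ∈ G, Ext {q} N g)
    (fun q N N' hN ⟨h1, g, hg, hE⟩ => ⟨h1, g, hg, hE.mono hN⟩) ?_
  · obtain ⟨⟨a, b⟩, _, h⟩ := this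
    exact ⟨a, b, (h 0).1, fun N => (h N).2⟩
  · intro N
    obtain ⟨R', hR'⟩ := hO (Finset.range N)
    obtain ⟨x, hx⟩ := Infinite.exists_notMem_finset R'
    obtain ⟨g, hg, hgE, hgR⟩ := hR' x
    have hgx : g x ≠ x := fun h => hx (h ▸ hgR)
    obtain ⟨k₀, hk₀, _, hk₀R⟩ := hR₀ x
    obtain ⟨k₁, hk₁, hk₁E, hk₁R⟩ := hR (k₀ x) (k₀ (g x))
    have hk₁x : k₁ (k₀ x) = k₀ x := hk₁E _ (Finset.mem_singleton_self _)
    refine ⟨(k₀ x, k₁ (k₀ (g x))), ?_, ?_, (k₁ * k₀) * g * (k₁ * k₀)⁻¹,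
      G.mul_mem (G.mul_mem (G.mul_mem hk₁ hk₀) hg) (G.inv_mem (G.mul_mem hk₁ hk₀)), ?_, ?_⟩
    · rw [Finset.mem_biUnion]
      exact ⟨k₀ x, hk₀R, Finset.mem_image_of_mem _ hk₁R⟩
    · intro hc
      simp only at hc
      rw [← hk₁x] at hc
      have h1 := k₁.injective (by rw [hk₁x] at hc; rw [← hc]; exact hk₁x : k₁ (k₀ x) = k₁ (k₀ (g x)))
      exact hgx (k₀.injective h1).symm
    · intro q hq
      rw [Finset.mem_singleton] at hq
      subst hq
      simp only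
      rw [Equiv.Perm.mul_apply, Equiv.Perm.mul_apply]
      have : (k₁ * k₀)⁻¹ (k₀ x) = x := by
        rw [Equiv.Perm.inv_eq_iff_eq, Equiv.Perm.mul_apply, hk₁x]
      rw [this, Equiv.Perm.mul_apply]
    · apply conj_fix
      exact ⟨Finset.range N, by simp, hgE⟩

/-- One step of the construction. -/
theorem Good.step (hO : ∀ E, FinOrb G E) {p : Finset (ℕ × ℕ)} (hp : Good G p) (n : ℕ) :
    ∃ p', Good G p' ∧ p ⊆ p' ∧ (∃ y, (n, y) ∈ p') ∧ (∃ x, (x, n) ∈ p') ∧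
      ∃ m, m ∉ p.image Prod.fst ∧ (m, m) ∈ p' := by
  obtain ⟨m, hm, h1⟩ := hp.ext_fix hO
  obtain ⟨y, h2⟩ := h1.ext_dom hO n
  obtain ⟨x, h3⟩ := h2.ext_ran hO n
  refine ⟨_, h3, ?_, ⟨y, by simp⟩, ⟨x, by simp⟩, m, hm, by simp⟩
  intro q hq
  simp [hq]

/-- **No closed oligomorphic group is cofinitary.** -/
theorem exists_infinite_fix (hcl : ∀ s : Equiv.Perm ℕ,
      (∀ F : Finset ℕ, ∃ g ∈ G, ∀ x ∈ F, g x = s x) → s ∈ G)
    (hO : ∀ E, FinOrb G E) : ∃ g ∈ G, g ≠ 1 ∧ {x : ℕ | g x = x}.Infinite := by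
  classical
  obtain ⟨a, b, hab, h0⟩ := Good.start hO
  choose! nxt hn using (fun (p : Finset (ℕ × ℕ)) (n : ℕ) (hp : Good G p) => hp.step hO n)
  let P : ℕ → Finset (ℕ × ℕ) := fun k => Nat.rec {(a, b)} (fun n p => nxt p n) k
  have hP0 : P 0 = {(a, b)} := rfl
  have hPs : ∀ k, P (k + 1) = nxt (P k) k := fun k => rfl
  have hPG : ∀ k, Good G (P k) := by
    intro k
    induction k with
    | zero => exact h0
    | succ k ih => rw [hPs]; exact (hn (P k) k ih).1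
  have hPmono : Monotone P := by
    apply monotone_nat_of_le_succ
    intro k
    rw [hPs]
    exact (hn (P k) k (hPG k)).2.1
  have hdom : ∀ n, ∃ y, (n, y) ∈ P (n + 1) := fun n => by
    rw [hPs]; exact (hn (P n) n (hPG n)).2.2.1
  have hran : ∀ n, ∃ x, (x, n) ∈ P (n + 1) := fun n => by
    rw [hPs]; exact (hn (P n) n (hPG n)).2.2.2.1
  have hfix : ∀ n, ∃ m, m ∉ (P n).image Prod.fst ∧ (m, m) ∈ P (n + 1) := fun n => by
    rw [hPs]; exact (hn (P n) n (hPG n)).2.2.2.2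
  have hg : ∀ k, ∃ g ∈ G, ∀ q ∈ P k, g q.1 = q.2 := by
    intro k
    obtain ⟨g, hg, hE⟩ := hPG k 0
    exact ⟨g, hg, hE.1⟩
  -- the relation is a bijection
  have hfun : ∀ x y y' k k', (x, y) ∈ P k → (x, y') ∈ P k' → y = y' := by
    intro x y y' k k' h1 h2
    obtain ⟨g, _, hE⟩ := hg (max k k')
    have e1 := hE _ (hPmono (le_max_left k k') h1)
    have e2 := hE _ (hPmono (le_max_right k k') h2)
    simp only at e1 e2
    rw [← e1, ← e2]
  have hinj : ∀ x x' y k k', (x, y) ∈ P k → (x', y) ∈ P k' → x = x' := by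
    intro x x' y k k' h1 h2
    obtain ⟨g, _, hE⟩ := hg (max k k')
    have e1 := hE _ (hPmono (le_max_left k k') h1)
    have e2 := hE _ (hPmono (le_max_right k k') h2)
    simp only at e1 e2
    exact g.injective (by rw [e1, e2])
  choose σ hσ using hdom
  choose τ hτ using hran
  let s : Equiv.Perm ℕ :=
    { toFun := σ
      invFun := τ
      left_inv := fun x => hinj (τ (σ x)) x (σ x) (σ x + 1) (x + 1) (hτ (σ x)) (hσ x)
      right_inv := fun x => hfun (τ x) (σ (τ x)) x (τ x + 1) (x + 1) (hσ (τ x)) (hτ x) }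
  have hs : ∀ x y k, (x, y) ∈ P k → s x = y :=
    fun x y k h => hfun x (σ x) y (x + 1) k (hσ x) h
  refine ⟨s, ?_, ?_, ?_⟩
  · apply hcl
    intro F
    obtain ⟨g, hgG, hE⟩ := hg (F.sup id + 1)
    refine ⟨g, hgG, ?_⟩
    intro x hx
    have hle : x + 1 ≤ F.sup id + 1 := Nat.succ_le_succ (Finset.le_sup (f := id) hx)
    exact hE _ (hPmono hle (hσ x))
  · intro h1
    have := hs a b 0 (by rw [hP0]; exact Finset.mem_singleton_self _)
    rw [h1] at this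
    exact hab this
  · intro hfin
    obtain ⟨M, hM⟩ := hfin.bddAbove
    obtain ⟨m, hm1, hm2⟩ := hfix (M + 1)
    have h1 : m ≤ M := hM (hs m m (M + 1 + 1) hm2)
    apply hm1
    rw [Finset.mem_image]
    exact ⟨(m, σ m), hPmono (Nat.succ_le_succ h1) (hσ m), rfl⟩

end Pool.Agent.W925.Cof
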