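import Mathlib
import Pool.Agent.W925.Cof2

set_option autoImplicit false

/-!
# Pointwise stabilisers in a maximal cofinitary group have finitely many orbits

Let `G` be a cofinitary group of permutations of `ℕ`, and `E` a finite set whose pointwise
stabiliser in `G` has infinitely many orbits.  We construct a permutation `f ∉ G` such that the
group generated by `G` and `f` is cofinitary.  So `G` is not maximal.
-/

namespace Pool.Agent.W925.Cof

open Set

/-- `m` is far from the finite set `Y`. -/
def New (G : Subgroup (Equiv.Perm ℕ)) (E : Finset ℕ) (m : ℕ) (Y : Finset ℕ) : Prop :=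
  ∀ g ∈ G, (∀ e ∈ E, g e ∈ Y) → g m ∉ Y

theorem New.notMem {G : Subgroup (Equiv.Perm ℕ)} {E : Finset ℕ} {m : ℕ} {Y : Finset ℕ}
    (h : New G E m Y) (hE : E ⊆ Y) : m ∉ Y :=
  h 1 G.one_mem (fun _ he => hE he)

theorem exists_new {G : Subgroup (Equiv.Perm ℕ)} {E : Finset ℕ} (h : ¬ FinOrb G E)
    (Y : Finset ℕ) : ∃ m, New G E m Y := by
  classical
  by_contra hc
  apply h
  unfold New at hc
  push Not at hc
  choose g hg hgE hgY using hc
  let d : ℕ → (E → Y) × Y := fun m => (fun e => ⟨g m e, hgE m e e.2⟩, ⟨g m m, hgY m⟩)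
  let r : (E → Y) × Y → ℕ := fun a => if ha : ∃ x, d x = a then ha.choose else 0
  refine ⟨Finset.univ.image r, ?_⟩
  intro x
  have hx : ∃ x', d x' = d x := ⟨x, rfl⟩
  have hr : d (r (d x)) = d x := by
    simp only [r, hx, dif_pos]
    exact hx.choose_spec
  set x' := r (d x) with hx'
  have h1 : ∀ e ∈ E, g x' e = g x e := by
    intro e he
    have := congrArg Prod.fst hr
    have := congrFun this ⟨e, he⟩
    exact congrArg Subtype.val this
  have h2 : g x' x' = g x x := by
    have := congrArg Prod.snd hr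
    exact congrArg Subtype.val this
  refine ⟨(g x')⁻¹ * g x, G.mul_mem (G.inv_mem (hg x')) (hg x), ?_, ?_⟩
  · intro e he
    rw [Equiv.Perm.mul_apply, Equiv.Perm.inv_eq_iff_eq, h1 e he]
  · have : ((g x')⁻¹ * g x) x = x' := by
      rw [Equiv.Perm.mul_apply, Equiv.Perm.inv_eq_iff_eq, h2]
    rw [this]
    exact Finset.mem_image_of_mem _ (Finset.mem_univ _)

/-- `f` or its inverse. -/
def act (f : Equiv.Perm ℕ) (ε : Bool) : Equiv.Perm ℕ := if ε then f else f⁻¹

theorem act_not_act (f : Equiv.Perm ℕ) (ε : Bool) : act f ε * act f (!ε) = 1 := by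
  cases ε <;> simp [act]

/-- The combinatorial structure of the new permutation `f`. -/
structure FStr (G : Subgroup (Equiv.Perm ℕ)) (E : Finset ℕ) (f : Equiv.Perm ℕ)
    (S : Bool → ℕ → ℕ) (Y : ℕ → Finset ℕ) : Prop where
  mono : Monotone Y
  self : ∀ n, n ∈ Y n
  sub : ∀ n, E ⊆ Y n
  f0 : ∀ ε u, S (!ε) (act f ε u) = S ε u
  f1 : ∀ ε u, New G E u (Y (S ε u)) ∨ New G E (act f ε u) (Y (S ε u))
  f2 : ∀ ε u ε' u', S ε' u' ≤ S ε u → New G E u (Y (S ε u)) →
    u' ∈ Y (S ε u) ∨ (ε' = ε ∧ u' = u)
  f3 : ∀ ε u s, S ε u < s → u ∈ Y s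

/-- The finite set to be avoided at stage `s`. -/
def Zset (E : Finset ℕ) (s : ℕ) (A : Finset (ℕ × ℕ)) : Finset ℕ :=
  Finset.range (s + 1) ∪ E ∪ supp A

theorem exists_old (A : Finset ℕ) (k : ℕ) : ∃ n, n ∉ A ∧ (k ∈ A ∨ n = k) := by
  by_cases h : k ∈ A
  · obtain ⟨x, hx⟩ := Infinite.exists_notMem_finset A
    exact ⟨x, hx, Or.inl h⟩
  · exact ⟨k, h, Or.inr rfl⟩

theorem exists_next {G : Subgroup (Equiv.Perm ℕ)} {E : Finset ℕ}
    (hN : ∀ Y : Finset ℕ, ∃ m, New G E m Y) (s : ℕ) (A : Finset (ℕ × ℕ)) :
    ∃ q : ℕ × ℕ,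
      (Even s → q.1 ∉ A.image Prod.fst ∧ (s / 2 ∈ A.image Prod.fst ∨ q.1 = s / 2) ∧
        New G E q.2 (insert q.1 (Zset E s A))) ∧
      (¬ Even s → q.2 ∉ A.image Prod.snd ∧ (s / 2 ∈ A.image Prod.snd ∨ q.2 = s / 2) ∧
        New G E q.1 (insert q.2 (Zset E s A))) := by
  by_cases h : Even s
  · obtain ⟨n, hn1, hn2⟩ := exists_old (A.image Prod.fst) (s / 2)
    obtain ⟨m, hm⟩ := hN (insert n (Zset E s A))
    exact ⟨(n, m), fun _ => ⟨hn1, hn2, hm⟩, fun h' => absurd h h'⟩
  · obtain ⟨n, hn1, hn2⟩ := exists_old (A.image Prod.snd) (s / 2)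
    obtain ⟨m, hm⟩ := hN (insert n (Zset E s A))
    exact ⟨(m, n), fun h' => absurd h' h, fun _ => ⟨hn1, hn2, hm⟩⟩

theorem exists_fstr {G : Subgroup (Equiv.Perm ℕ)} {E : Finset ℕ}
    (hN : ∀ Y : Finset ℕ, ∃ m, New G E m Y) :
    ∃ (f : Equiv.Perm ℕ) (S : Bool → ℕ → ℕ) (Y : ℕ → Finset ℕ), FStr G E f S Y := by
  classical
  choose nxt hn using exists_next hN
  let H : ℕ → Finset (ℕ × ℕ) := fun k => Nat.rec ∅ (fun n p => insert (nxt n p) p) k
  have hH0 : H 0 = ∅ := rfl
  have hHs : ∀ k, H (k + 1) = insert (nxt k (H k)) (H k) := fun k => rfl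
  clear_value H
  have hHmono : Monotone H := by
    apply monotone_nat_of_le_succ
    intro k
    rw [hHs]
    exact Finset.subset_insert _ _
  obtain ⟨p, hp⟩ : ∃ p : ℕ → ℕ × ℕ, ∀ k, p k = nxt k (H k) := ⟨fun k => nxt k (H k), fun k => rfl⟩
  have hpH : ∀ s t, s < t → p s ∈ H t := by
    intro s t hst
    apply hHmono (Nat.succ_le_of_lt hst)
    rw [Nat.succ_eq_add_one, hHs, hp]
    exact Finset.mem_insert_self _ _
  have hHp : ∀ t, ∀ q ∈ H t, ∃ s < t, q = p s := by
    intro t
    induction t with
    | zero => intro q hq; rw [hH0] at hq; simp at hq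
    | succ t ih =>
      intro q hq
      rw [hHs, Finset.mem_insert] at hq
      rcases hq with rfl | hq
      · exact ⟨t, Nat.lt_succ_self t, (hp t).symm⟩
      · obtain ⟨s, hs, rfl⟩ := ih q hq
        exact ⟨s, hs.trans (Nat.lt_succ_self t), rfl⟩
  have hq : ∀ s, (Even s → (p s).1 ∉ (H s).image Prod.fst ∧
        (s / 2 ∈ (H s).image Prod.fst ∨ (p s).1 = s / 2) ∧
        New G E (p s).2 (insert (p s).1 (Zset E s (H s)))) ∧
      (¬ Even s → (p s).2 ∉ (H s).image Prod.snd ∧
        (s / 2 ∈ (H s).image Prod.snd ∨ (p s).2 = s / 2) ∧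
        New G E (p s).1 (insert (p s).2 (Zset E s (H s)))) := by
    intro s
    rw [hp]
    exact hn s (H s)
  obtain ⟨a, ha⟩ : ∃ a : ℕ → ℕ, ∀ s, a s = (p s).1 := ⟨_, fun s => rfl⟩
  obtain ⟨b, hb⟩ : ∃ b : ℕ → ℕ, ∀ s, b s = (p s).2 := ⟨_, fun s => rfl⟩
  simp only [← ha, ← hb] at hq
  have haH : ∀ s t, s < t → a s ∈ (H t).image Prod.fst := fun s t hst => by
    rw [ha]; exact Finset.mem_image_of_mem _ (hpH s t hst)
  have hbH : ∀ s t, s < t → b s ∈ (H t).image Prod.snd := fun s t hst => by
    rw [hb]; exact Finset.mem_image_of_mem _ (hpH s t hst)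
  obtain ⟨Y, hY⟩ : ∃ Y : ℕ → Finset ℕ, ∀ s,
      Y s = insert (if Even s then a s else b s) (Zset E s (H s)) := ⟨_, fun s => rfl⟩
  have haY : ∀ s t, s < t → a s ∈ Y t := fun s t hst => by
    rw [hY, Zset, supp]
    exact Finset.mem_insert_of_mem (Finset.mem_union_right _
      (Finset.mem_union_left _ (haH s t hst)))
  have hbY : ∀ s t, s < t → b s ∈ Y t := fun s t hst => by
    rw [hY, Zset, supp]
    exact Finset.mem_insert_of_mem (Finset.mem_union_right _
      (Finset.mem_union_right _ (hbH s t hst)))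
  have hEY : ∀ s, E ⊆ Y s := fun s e he => by
    rw [hY, Zset]
    exact Finset.mem_insert_of_mem (Finset.mem_union_left _ (Finset.mem_union_right _ he))
  have hselfY : ∀ s, s ∈ Y s := fun s => by
    rw [hY, Zset]
    exact Finset.mem_insert_of_mem (Finset.mem_union_left _ (Finset.mem_union_left _
      (Finset.mem_range.2 (Nat.lt_succ_self s))))
  have hYmono : Monotone Y := by
    apply monotone_nat_of_le_succ
    intro s x hx
    rw [hY s, Finset.mem_insert] at hx
    rcases hx with rfl | hx
    · split_ifs with h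
      · exact haY s (s + 1) (Nat.lt_succ_self s)
      · exact hbY s (s + 1) (Nat.lt_succ_self s)
    · rw [hY]
      apply Finset.mem_insert_of_mem
      rw [Zset, Finset.mem_union, Finset.mem_union, Finset.mem_range] at hx ⊢
      rcases hx with (hx | hx) | hx
      · left; left; omega
      · left; right; exact hx
      · right
        rw [supp, Finset.mem_union] at hx ⊢
        rcases hx with hx | hx
        · left; exact Finset.image_subset_image (hHmono (Nat.le_succ s)) hx
        · right; exact Finset.image_subset_image (hHmono (Nat.le_succ s)) hx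
  -- new and old points
  have hnewb : ∀ s, Even s → New G E (b s) (Y s) := fun s hs => by
    rw [hY, if_pos hs]; exact ((hq s).1 hs).2.2
  have hnewa : ∀ s, ¬ Even s → New G E (a s) (Y s) := fun s hs => by
    rw [hY, if_neg hs]; exact ((hq s).2 hs).2.2
  have holda : ∀ s, Even s → a s ∈ Y s := fun s hs => by
    rw [hY, if_pos hs]; exact Finset.mem_insert_self _ _
  have holdb : ∀ s, ¬ Even s → b s ∈ Y s := fun s hs => by
    rw [hY, if_neg hs]; exact Finset.mem_insert_self _ _
  have hane : ∀ s t, s < t → a s ≠ a t := by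
    intro s t hst he
    by_cases h : Even t
    · exact ((hq t).1 h).1 (he ▸ haH s t hst)
    · exact (hnewa t h).notMem (hEY t) (he ▸ haY s t hst)
  have hbne : ∀ s t, s < t → b s ≠ b t := by
    intro s t hst he
    by_cases h : Even t
    · exact (hnewb t h).notMem (hEY t) (he ▸ hbY s t hst)
    · exact ((hq t).2 h).1 (he ▸ hbH s t hst)
  have hainj : Function.Injective a := by
    intro s t hst
    rcases lt_trichotomy s t with h | h | h
    · exact absurd hst (hane s t h)
    · exact h
    · exact absurd hst.symm (hane t s h)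
  have hbinj : Function.Injective b := by
    intro s t hst
    rcases lt_trichotomy s t with h | h | h
    · exact absurd hst (hbne s t h)
    · exact h
    · exact absurd hst.symm (hbne t s h)
  have hasurj : Function.Surjective a := by
    intro k
    have h := ((hq (2 * k)).1 (by simp)).2.1
    have h2 : 2 * k / 2 = k := by omega
    rw [h2] at h
    rcases h with h | h
    · rw [Finset.mem_image] at h
      obtain ⟨q, hq1, hq2⟩ := h
      obtain ⟨s, _, rfl⟩ := hHp _ q hq1
      exact ⟨s, by rw [ha]; exact hq2⟩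
    · exact ⟨_, h⟩
  have hbsurj : Function.Surjective b := by
    intro k
    have h := ((hq (2 * k + 1)).2 (by simp)).2.1
    have h2 : (2 * k + 1) / 2 = k := by omega
    rw [h2] at h
    rcases h with h | h
    · rw [Finset.mem_image] at h
      obtain ⟨q, hq1, hq2⟩ := h
      obtain ⟨s, _, rfl⟩ := hHp _ q hq1
      exact ⟨s, by rw [hb]; exact hq2⟩
    · exact ⟨_, h⟩
  let ea : ℕ ≃ ℕ := Equiv.ofBijective a ⟨hainj, hasurj⟩
  let eb : ℕ ≃ ℕ := Equiv.ofBijective b ⟨hbinj, hbsurj⟩
  have hea : ∀ s, ea s = a s := fun s => rfl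
  have heb : ∀ s, eb s = b s := fun s => rfl
  let f : Equiv.Perm ℕ := ea.symm.trans eb
  have hf : ∀ u, f u = b (ea.symm u) := fun u => rfl
  have hfi : ∀ u, f⁻¹ u = a (eb.symm u) := fun u => rfl
  let S : Bool → ℕ → ℕ := fun ε u => if ε then ea.symm u else eb.symm u
  have hSt : ∀ u, S true u = ea.symm u := fun u => rfl
  have hSf : ∀ u, S false u = eb.symm u := fun u => rfl
  have haS : ∀ u, a (S true u) = u := fun u => by rw [hSt, ← hea]; simp
  have hbS : ∀ u, b (S false u) = u := fun u => by rw [hSf, ← heb]; simp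
  have hfS : ∀ u, f u = b (S true u) := fun u => rfl
  have hfiS : ∀ u, f⁻¹ u = a (S false u) := fun u => rfl
  have hSa : ∀ s, S true (a s) = s := fun s => hainj (haS _)
  have hSb : ∀ s, S false (b s) = s := fun s => hbinj (hbS _)
  clear_value S f
  refine ⟨f, S, Y, hYmono, hselfY, hEY, ?_, ?_, ?_, ?_⟩
  · intro ε u
    cases ε
    · simp only [act, Bool.not_false, Bool.false_eq_true, if_false]
      rw [hfiS, hSa]
    · simp only [act, Bool.not_true, if_true]
      rw [hfS, hSb]
  · intro ε u
    cases ε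
    · simp only [act, Bool.false_eq_true, if_false]
      rw [hfiS]
      by_cases h : Even (S false u)
      · left
        have := hnewb _ h
        rwa [hbS] at this
      · right
        exact hnewa _ h
    · simp only [act, if_true]
      rw [hfS]
      by_cases h : Even (S true u)
      · right
        exact hnewb _ h
      · left
        have := hnewa _ h
        rwa [haS] at this
  · intro ε u ε' u' hle hnew
    rcases lt_or_eq_of_le hle with hlt | heq
    · left
      cases ε'
      · have := hbY _ _ hlt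
        rwa [hbS] at this
      · have := haY _ _ hlt
        rwa [haS] at this
    · have hnm := hnew.notMem (hEY _)
      cases ε <;> cases ε'
      · right
        refine ⟨rfl, ?_⟩
        rw [← hbS u', heq, hbS]
      · left
        by_cases h : Even (S false u)
        · have := holda _ h
          rw [← heq, haS] at this
          rwa [← heq]
        · have := holdb _ h
          rw [hbS] at this
          exact absurd this hnm
      · left
        by_cases h : Even (S true u)
        · have := holda _ h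
          rw [haS] at this
          exact absurd this hnm
        · have := holdb _ h
          rw [← heq, hbS] at this
          rwa [← heq]
      · right
        refine ⟨rfl, ?_⟩
        rw [← haS u', heq, haS]
  · intro ε u s hlt
    cases ε
    · have := hbY _ _ hlt
      rwa [hbS] at this
    · have := haY _ _ hlt
      rwa [haS] at this

end Pool.Agent.W925.Cof
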