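import Mathlib
import Pool.Agent.W925.Cof3

set_option autoImplicit false

/-!
# The group generated by `G` and the generic permutation `f` is cofinitary
-/

namespace Pool.Agent.W925.Cof

open Set

variable {G : Subgroup (Equiv.Perm ℕ)} {E : Finset ℕ} {f : Equiv.Perm ℕ}
  {S : Bool → ℕ → ℕ} {Y : ℕ → Finset ℕ}

/-- The analysis of a cycle: either everything is small, or some two cyclically adjacent letters
of opposite sign are separated by an element of `G` fixing the point between them. -/
theorem cycle_analysis (hF : FStr G E f S Y) {n : ℕ} (g : Fin (n + 1) → Equiv.Perm ℕ)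
    (hg : ∀ i, g i ∈ G) (ε : Fin (n + 1) → Bool) (s' : ℕ)
    (hs1 : ∀ i, ∀ e ∈ E, g i e ∈ Y s') (hs2 : ∀ i, ∀ e ∈ E, (g i)⁻¹ e ∈ Y s')
    (y : Fin (n + 1) → ℕ) (hy : ∀ i, y i = g i (act f (ε i) (y (i + 1)))) :
    (∀ i, y i ∈ Y s') ∨ ∃ i, ε (i + 1) = !ε i ∧ g (i + 1) (y (i + 1)) = y (i + 1) := by
  obtain ⟨i, hi⟩ := Finite.exists_max (fun i : Fin (n + 1) => S (ε i) (y (i + 1)))
  rcases lt_or_ge (S (ε i) (y (i + 1))) s' with hlt | hge
  · left
    intro j
    have := hF.f3 (ε (j - 1)) (y (j - 1 + 1)) s' (lt_of_le_of_lt (hi (j - 1)) hlt)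
    rwa [sub_add_cancel] at this
  · right
    have hsub : Y s' ⊆ Y (S (ε i) (y (i + 1))) := hF.mono hge
    rcases hF.f1 (ε i) (y (i + 1)) with hnew | hnew
    · -- entrance is new
      set u := act f (ε (i + 1)) (y (i + 1 + 1)) with hu
      have hSu : S (!ε (i + 1)) u = S (ε (i + 1)) (y (i + 1 + 1)) := hF.f0 _ _
      have hle : S (!ε (i + 1)) u ≤ S (ε i) (y (i + 1)) := by
        rw [hSu]; exact hi (i + 1)
      have hgu : y (i + 1) = g (i + 1) u := hy (i + 1)
      rcases hF.f2 (ε i) (y (i + 1)) (!ε (i + 1)) u hle hnew with h | ⟨h1, h2⟩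
      · exfalso
        apply hnew (g (i + 1))⁻¹ (G.inv_mem (hg _)) (fun e he => hsub (hs2 _ e he))
        have hgi : (g (i + 1))⁻¹ (y (i + 1)) = u := by
          rw [Equiv.Perm.inv_eq_iff_eq]; exact hgu
        rw [hgi]
        exact h
      · refine ⟨i, ?_, ?_⟩
        · rw [← h1]; simp
        · rw [h2] at hgu
          exact hgu.symm
    · -- exit is new
      set u := act f (ε i) (y (i + 1)) with hu
      have hSu : S (!ε i) u = S (ε i) (y (i + 1)) := hF.f0 _ _
      have hyi : y i = g i u := hy i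
      have hle : S (ε (i - 1)) (y i) ≤ S (!ε i) u := by
        rw [hSu]
        have := hi (i - 1)
        simp only [sub_add_cancel] at this
        exact this
      rw [← hSu] at hnew hsub
      rcases hF.f2 (!ε i) u (ε (i - 1)) (y i) hle hnew with h | ⟨h1, h2⟩
      · exfalso
        apply hnew (g i) (hg _) (fun e he => hsub (hs1 _ e he))
        rw [← hyi]
        exact h
      · refine ⟨i - 1, ?_, ?_⟩
        · rw [sub_add_cancel, h1]; simp
        · rw [sub_add_cancel]
          rw [← h2] at hyi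
          exact hyi.symm

/-- The value of a word. -/
def ev (f : Equiv.Perm ℕ) (L : List (Equiv.Perm ℕ × Bool)) : Equiv.Perm ℕ :=
  (L.map (fun q => q.1 * act f q.2)).prod

theorem ev_nil : ev f [] = 1 := rfl

theorem ev_cons (q : Equiv.Perm ℕ × Bool) (L : List (Equiv.Perm ℕ × Bool)) :
    ev f (q :: L) = q.1 * act f q.2 * ev f L := by
  simp [ev]

theorem ev_append (L M : List (Equiv.Perm ℕ × Bool)) : ev f (L ++ M) = ev f L * ev f M := by
  simp [ev]

/-- `G` is cofinitary. -/
def Cofin (G : Subgroup (Equiv.Perm ℕ)) : Prop :=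
  ∀ g ∈ G, g ≠ 1 → Set.Finite {n : ℕ | g n = n}

theorem finite_preimage (w : Equiv.Perm ℕ) {A : Set ℕ} (hA : A.Finite) :
    {x | w x ∈ A}.Finite :=
  hA.preimage (w.injective.injOn)

theorem key (hC : Cofin G) (hF : FStr G E f S Y) {n : ℕ} (L : List (Equiv.Perm ℕ × Bool))
    (hL : L.length = n + 1) (hLG : ∀ q ∈ L, q.1 ∈ G) (hinf : {x | ev f L x = x}.Infinite) :
    ∃ i : Fin (n + 1), (L.get ((i + 1).cast hL.symm)).1 = 1 ∧
      (L.get ((i + 1).cast hL.symm)).2 = !(L.get (i.cast hL.symm)).2 := by
  classical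
  by_contra hc
  push Not at hc
  let g : Fin (n + 1) → Equiv.Perm ℕ := fun i => (L.get (i.cast hL.symm)).1
  let ε : Fin (n + 1) → Bool := fun i => (L.get (i.cast hL.symm)).2
  have hg : ∀ i, g i ∈ G := fun i => hLG _ (List.get_mem _ _)
  -- a bound for the stages
  obtain ⟨s', hs'⟩ : ∃ s', ∀ i, ∀ e ∈ E, g i e ≤ s' ∧ (g i)⁻¹ e ≤ s' := by
    refine ⟨(Finset.univ : Finset (Fin (n + 1))).sup
      (fun i => E.sup (fun e => max (g i e) ((g i)⁻¹ e))), ?_⟩
    intro i e he
    have h1 : max (g i e) ((g i)⁻¹ e) ≤ E.sup (fun e => max (g i e) ((g i)⁻¹ e)) :=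
      Finset.le_sup (f := fun e => max (g i e) ((g i)⁻¹ e)) he
    have h2 := Finset.le_sup (f := fun i => E.sup (fun e => max (g i e) ((g i)⁻¹ e)))
      (Finset.mem_univ i)
    exact ⟨(le_max_left _ _).trans (h1.trans h2), (le_max_right _ _).trans (h1.trans h2)⟩
  have hs1 : ∀ i, ∀ e ∈ E, g i e ∈ Y s' := fun i e he =>
    hF.mono (hs' i e he).1 (hF.self _)
  have hs2 : ∀ i, ∀ e ∈ E, (g i)⁻¹ e ∈ Y s' := fun i e he =>
    hF.mono (hs' i e he).2 (hF.self _)
  -- the cycle of a fixed point
  have hcyc : ∀ x, ev f L x = x → ∀ i : Fin (n + 1),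
      ev f (L.drop i) x = g i (act f (ε i) (ev f (L.drop ((i + 1 : Fin (n + 1)) : ℕ)) x)) := by
    intro x hx i
    have hi : (i : ℕ) < L.length := by rw [hL]; exact i.2
    have h1 : L.drop i = L.get (i.cast hL.symm) :: L.drop ((i : ℕ) + 1) := by
      rw [List.get_eq_getElem]
      exact (List.drop_eq_getElem_cons hi)
    have h2 : ev f (L.drop ((i + 1 : Fin (n + 1)) : ℕ)) x = ev f (L.drop ((i : ℕ) + 1)) x := by
      by_cases hlast : i = Fin.last n
      · subst hlast
        have h3 : L.drop ((Fin.last n : ℕ) + 1) = [] := by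
          apply List.drop_eq_nil_of_le
          rw [hL]; simp
        rw [h3, Fin.last_add_one]
        simpa [ev_nil] using hx
      · rw [Fin.val_add_one_of_lt (lt_of_le_of_ne (Fin.le_last i) hlast)]
    rw [h2, h1, ev_cons, Equiv.Perm.mul_apply, Equiv.Perm.mul_apply]
  apply hinf
  have hsub : {x | ev f L x = x} ⊆ (↑(Y s') : Set ℕ) ∪ ⋃ i : Fin (n + 1),
      {x | ε (i + 1) = !ε i ∧ ev f (L.drop ((i + 1 : Fin (n + 1)) : ℕ)) x ∈
        {z | g (i + 1) z = z}} := by
    intro x hx
    rcases cycle_analysis hF g hg ε s' hs1 hs2 (fun i => ev f (L.drop i) x) (hcyc x hx)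
      with h | ⟨i, h1, h2⟩
    · left
      have := h 0
      simp only [Fin.val_zero, List.drop_zero] at this
      rwa [show ev f L x = x from hx] at this
    · right
      rw [Set.mem_iUnion]
      exact ⟨i, h1, h2⟩
  refine Set.Finite.subset ?_ hsub
  apply Set.Finite.union (Finset.finite_toSet _)
  apply Set.finite_iUnion
  intro i
  by_cases h : ε (i + 1) = !ε i
  · have hne : g (i + 1) ≠ 1 := fun h1 => hc i h1 h
    refine Set.Finite.subset (finite_preimage (ev f (L.drop ((i + 1 : Fin (n + 1)) : ℕ)))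
      (hC _ (hg (i + 1)) hne)) ?_
    intro x hx
    exact hx.2
  · refine Set.Finite.subset Set.finite_empty ?_
    intro x hx
    exact (h hx.1).elim

theorem conj_infinite {w u : Equiv.Perm ℕ} (h : {x | w x = x}.Infinite) :
    {x | (u⁻¹ * w * u) x = x}.Infinite := by
  have : {x | (u⁻¹ * w * u) x = x} = ⇑u ⁻¹' {x | w x = x} := by
    ext x
    simp only [Set.mem_preimage, Equiv.Perm.mul_apply]
    change (u⁻¹ (w (u x)) = x) ↔ (w (u x) = u x)
    rw [Equiv.Perm.inv_eq_iff_eq]
  rw [this]
  intro hfin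
  apply h
  have h2 := hfin.image ⇑u
  rwa [Set.image_preimage_eq _ u.surjective] at h2

/-- Every word with infinitely many fixed points has trivial value. -/
theorem word_trivial (hC : Cofin G) (hF : FStr G E f S Y) :
    ∀ (n : ℕ) (L : List (Equiv.Perm ℕ × Bool)), L.length = n → (∀ q ∈ L, q.1 ∈ G) →
      {x | ev f L x = x}.Infinite → ev f L = 1 := by
  intro n
  induction n using Nat.strong_induction_on with
  | _ n ih =>
    intro L hL hLG hinf
    rcases n with _ | n
    · rw [List.length_eq_zero_iff] at hL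
      rw [hL, ev_nil]
    · obtain ⟨i, hi1, hi2⟩ := key hC hF L hL hLG hinf
      have hn : n ≠ 0 := by
        rintro rfl
        have h1 : i + 1 = i := Fin.ext (by have := i.2; have := (i + 1).2; omega)
        rw [h1] at hi2
        simp at hi2
      -- rotate
      have hile : (i : ℕ) ≤ L.length := by rw [hL]; exact i.2.le
      have hrot : L.rotate i = L.drop i ++ L.take i := List.rotate_eq_drop_append_take hile
      have hL' : (L.rotate i).length = n + 1 := by rw [List.length_rotate, hL]
      have h0 : (L.rotate i)[0]'(by omega) = L.get (i.cast hL.symm) := by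
        rw [List.getElem_rotate, List.get_eq_getElem]
        congr 1
        simp [hL, Nat.mod_eq_of_lt i.2]
      have h1 : (L.rotate i)[1]'(by omega) = L.get ((i + 1).cast hL.symm) := by
        rw [List.getElem_rotate, List.get_eq_getElem]
        congr 1
        simp [hL, Fin.val_add, Nat.add_comm]
      obtain ⟨q₁, L₁, hL₁⟩ : ∃ q₁ L₁, L.rotate i = q₁ :: L₁ := by
        cases h : L.rotate i with
        | nil => rw [h] at hL'; simp at hL'
        | cons a b => exact ⟨a, b, rfl⟩
      obtain ⟨q₂, L₂, hL₂⟩ : ∃ q₂ L₂, L₁ = q₂ :: L₂ := by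
        cases h : L₁ with
        | nil => rw [hL₁, h] at hL'; simp at hL'; omega
        | cons a b => exact ⟨a, b, rfl⟩
      rw [hL₂] at hL₁
      have hq1 : q₁ = L.get (i.cast hL.symm) := by
        rw [← h0]; simp [hL₁]
      have hq2 : q₂ = L.get ((i + 1).cast hL.symm) := by
        rw [← h1]; simp [hL₁]
      rw [← hq1, ← hq2] at hi2
      rw [← hq2] at hi1
      have hev : ev f (L.rotate i) = q₁.1 * ev f L₂ := by
        rw [hL₁, ev_cons, ev_cons, hi1, hi2, one_mul, ← mul_assoc, mul_assoc q₁.1,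
          act_not_act, mul_one]
      have hconj : ev f (L.rotate i) = (ev f (L.take i))⁻¹ * ev f L * ev f (L.take i) := by
        rw [hrot, ev_append]
        have : ev f L = ev f (L.take i) * ev f (L.drop i) := by
          rw [← ev_append, List.take_append_drop]
        rw [this]; group
      have hinf' : {x | ev f (L.rotate i) x = x}.Infinite := by
        rw [hconj]; exact conj_infinite hinf
      have hmem : ∀ q ∈ L.rotate i, q.1 ∈ G := fun q hq => hLG q (List.mem_rotate.1 hq)
      have htriv : ev f (L.rotate i) = 1 := by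
        cases hL₂' : L₂ with
        | nil =>
          rw [hev, hL₂', ev_nil, mul_one] at hinf' ⊢
          have hq₁ : q₁.1 ∈ G := hmem q₁ (by rw [hL₁]; simp)
          by_contra hne
          exact hinf' (hC _ hq₁ hne)
        | cons q₃ L₃ =>
          have he : ev f (L.rotate i) = ev f ((q₁.1 * q₃.1, q₃.2) :: L₃) := by
            rw [hev, hL₂', ev_cons, ev_cons]
            simp only [mul_assoc]
          rw [he] at hinf' ⊢
          have hlen : n + 1 = L₃.length + 3 := by
            rw [← hL', hL₁, hL₂']; simp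
          refine ih (L₃.length + 1) (by omega) _ (by simp) ?_ hinf'
          intro q hq
          rw [List.mem_cons] at hq
          rcases hq with rfl | hq
          · exact G.mul_mem (hmem q₁ (by rw [hL₁]; simp)) (hmem q₃ (by rw [hL₁, hL₂']; simp))
          · exact hmem q (by rw [hL₁, hL₂']; simp [hq])
      rw [hconj] at htriv
      have : ev f L = ev f (L.take i) * ((ev f (L.take i))⁻¹ * ev f L * ev f (L.take i)) *
        (ev f (L.take i))⁻¹ := by group
      rw [this, htriv]; group

/-- `f` is not in `G`. -/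
theorem notMem (hC : Cofin G) (hF : FStr G E f S Y) : f ∉ G := by
  intro hf
  have hinf : {x | ev f [(f⁻¹, true)] x = x}.Infinite := by
    have : {x | ev f [(f⁻¹, true)] x = x} = Set.univ := by
      ext x
      simp [ev, act]
    rw [this]
    exact Set.infinite_univ
  obtain ⟨i, _, hi⟩ := key (n := 0) hC hF [(f⁻¹, true)] rfl
    (fun q hq => by rw [List.mem_singleton] at hq; subst hq; exact G.inv_mem hf) hinf
  have h1 : i + 1 = i := Fin.ext (by have := i.2; have := (i + 1).2; omega)
  rw [h1] at hi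
  simp at hi

/-- The elements of the group generated by `G` and `f`. -/
theorem mem_sup (h : Equiv.Perm ℕ) (hh : h ∈ Subgroup.closure ((G : Set (Equiv.Perm ℕ)) ∪ {f})) :
    ∃ L : List (Equiv.Perm ℕ × Bool), (∀ q ∈ L, q.1 ∈ G) ∧ ∃ g₀ ∈ G, h = ev f L * g₀ := by
  induction hh using Subgroup.closure_induction_right with
  | one => exact ⟨[], by simp, 1, G.one_mem, by simp [ev_nil]⟩
  | mul_right x hx y hy ih =>
    obtain ⟨L, hL, g₀, hg₀, rfl⟩ := ih
    rcases hy with hy | hy
    · exact ⟨L, hL, g₀ * y, G.mul_mem hg₀ hy, by rw [mul_assoc]⟩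
    · rw [Set.mem_singleton_iff] at hy
      subst hy
      refine ⟨L ++ [(g₀, true)], ?_, 1, G.one_mem, ?_⟩
      · intro q hq
        rw [List.mem_append, List.mem_singleton] at hq
        rcases hq with hq | rfl
        · exact hL q hq
        · exact hg₀
      · rw [ev_append, ev_cons, ev_nil]
        simp [act, mul_assoc]
  | mul_inv_cancel x hx y hy ih =>
    obtain ⟨L, hL, g₀, hg₀, rfl⟩ := ih
    rcases hy with hy | hy
    · exact ⟨L, hL, g₀ * y⁻¹, G.mul_mem hg₀ (G.inv_mem hy), by rw [mul_assoc]⟩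
    · rw [Set.mem_singleton_iff] at hy
      subst hy
      refine ⟨L ++ [(g₀, false)], ?_, 1, G.one_mem, ?_⟩
      · intro q hq
        rw [List.mem_append, List.mem_singleton] at hq
        rcases hq with hq | rfl
        · exact hL q hq
        · exact hg₀
      · rw [ev_append, ev_cons, ev_nil]
        simp [act, mul_assoc]

/-- The group generated by `G` and `f` is cofinitary. -/
theorem cofin_closure (hC : Cofin G) (hF : FStr G E f S Y) :
    Cofin (Subgroup.closure ((G : Set (Equiv.Perm ℕ)) ∪ {f})) := by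
  intro h hh hne
  by_contra hinf
  obtain ⟨L, hL, g₀, hg₀, rfl⟩ := mem_sup h hh
  have h1 : {x | (g₀ * ev f L) x = x}.Infinite := by
    have : g₀ * ev f L = (g₀⁻¹)⁻¹ * (ev f L * g₀) * g₀⁻¹ := by group
    rw [this]
    exact conj_infinite hinf
  have h2 : g₀ * ev f L = 1 := by
    cases L with
    | nil =>
      rw [ev_nil, mul_one] at h1 ⊢
      by_contra hne'
      exact h1 (hC _ hg₀ hne')
    | cons q L' =>
      have he : g₀ * ev f (q :: L') = ev f ((g₀ * q.1, q.2) :: L') := by
        rw [ev_cons, ev_cons]; simp only [mul_assoc]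
      rw [he] at h1 ⊢
      refine word_trivial hC hF _ _ rfl ?_ h1
      intro q' hq'
      rw [List.mem_cons] at hq'
      rcases hq' with rfl | hq'
      · exact G.mul_mem hg₀ (hL q (by simp))
      · exact hL q' (by simp [hq'])
  apply hne
  have : ev f L * g₀ = g₀⁻¹ * (g₀ * ev f L) * g₀ := by group
  rw [this, h2]; group

/-- **Theorem A.** In a maximal cofinitary group the pointwise stabiliser of every finite set has
only finitely many orbits. -/
theorem finOrb_of_maximal (hC : Cofin G)
    (hmax : ∀ H : Subgroup (Equiv.Perm ℕ), G ≤ H → Cofin H → H = G) (E : Finset ℕ) :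
    FinOrb G E := by
  by_contra hE
  obtain ⟨f, S, Y, hF⟩ := exists_fstr (exists_new hE)
  have h1 := hmax (Subgroup.closure ((G : Set (Equiv.Perm ℕ)) ∪ {f}))
    (fun g hg => Subgroup.subset_closure (Or.inl hg)) (cofin_closure hC hF)
  apply notMem hC hF
  rw [← h1]
  exact Subgroup.subset_closure (Or.inr rfl)

end Pool.Agent.W925.Cof
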