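import Mathlib

/-!
# Polynomials with proportional derivatives

If two polynomials over a field of characteristic zero satisfy `g ∂f = f ∂g` for all partial
derivatives and `g ≠ 0`, then `f` is a constant multiple of `g`.
-/

set_option autoImplicit false

namespace Pool.Agent.W925.Sym

open MvPolynomial Matrix

variable {k : Type*} [Field k]

theorem coeff_X_mul_pderiv {σ : Type*} (j : σ) (f : MvPolynomial σ k) (α : σ →₀ ℕ) :
    coeff α (X j * pderiv j f) = (α j : k) * coeff α f := by
  classical
  rw [mul_comm, coeff_mul_X']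
  split_ifs with h
  · rw [coeff_pderiv]
    have h1 : (α - Finsupp.single j 1 : σ →₀ ℕ) + Finsupp.single j 1 = α := by
      apply tsub_add_cancel_of_le
      rw [Finsupp.single_le_iff]
      have := Finsupp.mem_support_iff.1 h
      omega
    rw [h1]
    have h2 : (α - Finsupp.single j 1 : σ →₀ ℕ) j = α j - 1 := by simp
    rw [h2]
    have h3 : 1 ≤ α j := by
      have := Finsupp.mem_support_iff.1 h
      omega
    have h4 : ((α j - 1 : ℕ) : k) + 1 = α j := by
      rw [Nat.cast_sub h3]
      simp
    rw [h4, mul_comm]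
  · rw [Finsupp.notMem_support_iff.1 h]
    simp

theorem degree_le_of_support {σ : Type*} (m : MonomialOrder σ) {f g : MvPolynomial σ k}
    (h : ∀ α, coeff α f = 0 → coeff α g = 0) : m.toSyn (m.degree g) ≤ m.toSyn (m.degree f) := by
  rw [m.degree_le_iff]
  intro b hb
  apply m.le_degree
  rw [mem_support_iff] at hb ⊢
  exact fun h1 => hb (h b h1)

theorem const_mul_of_wronskian [CharZero k] {s : ℕ} (f g : MvPolynomial (Fin s) k) (hg : g ≠ 0)
    (h : ∀ j, g * pderiv j f = f * pderiv j g) : ∃ c : k, f = C c * g := by
  set m : MonomialOrder (Fin s) := MonomialOrder.lex with hm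
  -- leading exponents agree
  have key : ∀ f' : MvPolynomial (Fin s) k, f' ≠ 0 → (∀ j, g * pderiv j f' = f' * pderiv j g) →
      m.degree f' = m.degree g := by
    intro f' hf' h'
    ext j
    have h1 : g * (X j * pderiv j f') = f' * (X j * pderiv j g) := by
      rw [mul_left_comm, h' j, mul_left_comm]
    have h2 := congrArg (coeff (m.degree g + m.degree f')) h1
    rw [m.coeff_mul_of_add_of_degree_le le_rfl (degree_le_of_support m fun α hα => by
      rw [coeff_X_mul_pderiv, hα, mul_zero]), add_comm (m.degree g),
      m.coeff_mul_of_add_of_degree_le le_rfl (degree_le_of_support m fun α hα => by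
      rw [coeff_X_mul_pderiv, hα, mul_zero]), coeff_X_mul_pderiv, coeff_X_mul_pderiv] at h2
    have h3 : coeff (m.degree g) g ≠ 0 := m.leadingCoeff_ne_zero_iff.2 hg
    have h4 : coeff (m.degree f') f' ≠ 0 := m.leadingCoeff_ne_zero_iff.2 hf'
    have h5 : (coeff (m.degree g) g * coeff (m.degree f') f') * ((m.degree f' j : k) - m.degree g j)
        = 0 := by linear_combination h2
    rcases mul_eq_zero.1 h5 with h6 | h6
    · exact absurd h6 (mul_ne_zero h3 h4)
    · exact_mod_cast sub_eq_zero.1 h6
  by_cases hf : f = 0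
  · exact ⟨0, by rw [hf]; simp⟩
  have h3 : coeff (m.degree g) g ≠ 0 := m.leadingCoeff_ne_zero_iff.2 hg
  refine ⟨coeff (m.degree f) f / coeff (m.degree g) g, ?_⟩
  by_contra hne
  set c := coeff (m.degree f) f / coeff (m.degree g) g with hc
  have hF : f - C c * g ≠ 0 := sub_ne_zero.2 hne
  have h1 := key (f - C c * g) hF (fun j => by
    rw [map_sub, pderiv_C_mul]
    have := h j
    linear_combination this)
  have h2 : coeff (m.degree (f - C c * g)) (f - C c * g) ≠ 0 := m.leadingCoeff_ne_zero_iff.2 hF
  apply h2
  rw [h1, coeff_sub, coeff_C_mul, hc, ← key f hf h]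
  have h3' : coeff (m.degree f) g ≠ 0 := by rw [key f hf h]; exact h3
  rw [div_mul_cancel₀ _ h3', sub_self]

/-- A polynomial vector which is proportional to all its partial derivatives is a multiple of a
constant vector. -/
theorem const_direction [CharZero k] {s : ℕ} {n : Type*} (z : n → MvPolynomial (Fin s) k)
    (hz : ∀ j a b, z a * pderiv j (z b) = z b * pderiv j (z a)) :
    ∃ (f : MvPolynomial (Fin s) k) (w : n → k), ∀ a, z a = f * C (w a) := by
  by_cases h : ∀ a, z a = 0
  · exact ⟨0, 0, fun a => by rw [h a]; simp⟩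
  · push Not at h
    obtain ⟨a, ha⟩ := h
    have h1 : ∀ b, ∃ c : k, z b = C c * z a := fun b =>
      const_mul_of_wronskian (z b) (z a) ha fun j => hz j a b
    choose c hc using h1
    exact ⟨z a, c, fun b => by rw [hc b, mul_comm]⟩

end Pool.Agent.W925.Sym
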