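import Pool.Agent.W925.Sym1

/-!
# The kernel of a symmetric matrix of linear forms whose coefficients have Witt index at most one
-/

set_option autoImplicit false

namespace Pool.Agent.W925.Sym

open MvPolynomial Matrix

variable {k : Type*} [Field k] {s : ℕ} {n : Type*} [Fintype n]

/-- the symbolic matrix `A₀ + ∑ x_i A_i` -/
noncomputable def symb (A₀ : Matrix n n k) (A : Fin s → Matrix n n k) :
    Matrix n n (MvPolynomial (Fin s) k) :=
  A₀.map C + ∑ i, (X i : MvPolynomial (Fin s) k) • (A i).map C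

/-- the coordinatewise partial derivative -/
noncomputable def dv (j : Fin s) (v : n → MvPolynomial (Fin s) k) : n → MvPolynomial (Fin s) k :=
  fun a => pderiv j (v a)

omit [Fintype n] in
theorem symb_apply (A₀ : Matrix n n k) (A : Fin s → Matrix n n k) (a b : n) :
    symb A₀ A a b = C (A₀ a b) + ∑ i, X i * C (A i a b) := by
  simp [symb, Matrix.sum_apply]

theorem dv_mulVec (j : Fin s) (M : Matrix n n (MvPolynomial (Fin s) k))
    (v : n → MvPolynomial (Fin s) k) :
    dv j (M *ᵥ v) = (M.map (pderiv j)) *ᵥ v + M *ᵥ dv j v := by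
  funext a
  simp only [dv, mulVec, dotProduct, map_sum, Derivation.leibniz, smul_eq_mul, Pi.add_apply,
    Matrix.map_apply, Finset.sum_add_distrib]
  rw [add_comm]
  congr 1
  exact Finset.sum_congr rfl fun b _ => mul_comm _ _

theorem dv_dot (j : Fin s) (u v : n → MvPolynomial (Fin s) k) :
    pderiv j (u ⬝ᵥ v) = dv j u ⬝ᵥ v + u ⬝ᵥ dv j v := by
  simp only [dv, dotProduct, map_sum, Derivation.leibniz, smul_eq_mul, Finset.sum_add_distrib]
  rw [add_comm]
  congr 1
  exact Finset.sum_congr rfl fun b _ => mul_comm _ _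

omit [Fintype n] in
theorem const_pderiv (j : Fin s) (S : Matrix n n k) :
    (S.map (C : k → MvPolynomial (Fin s) k)).map (pderiv j) = 0 := by
  ext a b
  simp

omit [Fintype n] in
theorem symb_pderiv (A₀ : Matrix n n k) (A : Fin s → Matrix n n k) (j : Fin s) :
    (symb A₀ A).map (pderiv j) = (A j).map C := by
  ext a b : 2
  rw [Matrix.map_apply, symb_apply, map_add, pderiv_C, zero_add, map_sum, Matrix.map_apply,
    Finset.sum_eq_single j]
  · rw [pderiv_mul, pderiv_X_self, pderiv_C, mul_zero, add_zero, one_mul]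
  · intro i _ hi
    rw [pderiv_mul, pderiv_X_of_ne hi, pderiv_C, mul_zero, add_zero, zero_mul]
  · intro h
    exact absurd (Finset.mem_univ _) h

theorem dv_const_mulVec (j : Fin s) (S : Matrix n n k) (v : n → MvPolynomial (Fin s) k) :
    dv j (S.map C *ᵥ v) = S.map C *ᵥ dv j v := by
  rw [dv_mulVec, const_pderiv, zero_mulVec, zero_add]

theorem sym_dot {R : Type*} [CommRing R] (S : Matrix n n R) (hS : S.IsSymm) (u v : n → R) :
    u ⬝ᵥ S *ᵥ v = v ⬝ᵥ S *ᵥ u := by
  rw [dotProduct_mulVec, ← mulVec_transpose, hS, dotProduct_comm]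

omit [Fintype n] in
theorem symm_map {R R' : Type*} (f : R → R') {S : Matrix n n R} (hS : S.IsSymm) :
    (S.map f).IsSymm := by
  unfold Matrix.IsSymm
  rw [← Matrix.transpose_map, hS]

omit [Fintype n] in
theorem symb_symm (A₀ : Matrix n n k) (A : Fin s → Matrix n n k) (h₀ : A₀.IsSymm)
    (h : ∀ i, (A i).IsSymm) : (symb A₀ A).IsSymm := by
  ext a b : 2
  rw [Matrix.transpose_apply, symb_apply, symb_apply, h₀.apply]
  simp_rw [fun i => (h i).apply]

section kernel

variable (A₀ : Matrix n n k) (A : Fin s → Matrix n n k)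

/-- the kernel of the symbolic matrix -/
def Ker (v : n → MvPolynomial (Fin s) k) : Prop := symb A₀ A *ᵥ v = 0

variable {A₀ A}

theorem Ker.apply {v : n → MvPolynomial (Fin s) k} (hv : Ker A₀ A v) (i : Fin s) :
    (A i).map C *ᵥ v = - (symb A₀ A *ᵥ dv i v) := by
  have h := dv_mulVec i (symb A₀ A) v
  rw [hv, symb_pderiv] at h
  have h0 : dv i (0 : n → MvPolynomial (Fin s) k) = 0 := by
    funext a
    simp [dv]
  rw [h0] at h
  exact eq_neg_of_add_eq_zero_left h.symm

variable (h₀ : A₀.IsSymm) (h : ∀ i, (A i).IsSymm)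

include h₀ h

theorem Ker.iso {u v : n → MvPolynomial (Fin s) k} (hu : Ker A₀ A u) (hv : Ker A₀ A v)
    (i : Fin s) : u ⬝ᵥ (A i).map C *ᵥ v = 0 := by
  rw [hv.apply, dotProduct_neg, sym_dot _ (symb_symm A₀ A h₀ h), hu, dotProduct_zero, neg_zero]

theorem Ker.iso_dv [CharZero k] {v : n → MvPolynomial (Fin s) k} (hv : Ker A₀ A v)
    (i j : Fin s) : v ⬝ᵥ (A i).map C *ᵥ dv j v = 0 := by
  have h1 := congrArg (pderiv j) (hv.iso h₀ h hv i)
  rw [dv_dot, dv_const_mulVec, sym_dot _ (symm_map C (h i)) (dv j v) v, map_zero,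
    ← two_mul] at h1
  exact (mul_eq_zero.1 h1).resolve_left two_ne_zero

/-- the second order identity -/
theorem Ker.second [CharZero k] {v : n → MvPolynomial (Fin s) k} (hv : Ker A₀ A v)
    (i j l : Fin s) :
    dv j v ⬝ᵥ (A i).map C *ᵥ dv l v + dv i v ⬝ᵥ (A l).map C *ᵥ dv j v +
      dv i v ⬝ᵥ (A j).map C *ᵥ dv l v = 0 := by
  -- `A ∂_l ∂_j v = - A_l ∂_j v - A_j ∂_l v`
  have e1 : symb A₀ A *ᵥ dv l (dv j v) = - ((A l).map C *ᵥ dv j v) - (A j).map C *ᵥ dv l v := by
    have h1 := congrArg (dv l) (hv.apply j)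
    have h2 : dv l (-(symb A₀ A *ᵥ dv j v)) = -(dv l (symb A₀ A *ᵥ dv j v)) := by
      funext a
      simp [dv]
    rw [dv_const_mulVec, h2, dv_mulVec, symb_pderiv] at h1
    rw [h1]
    abel
  have e2 : dv i v ⬝ᵥ symb A₀ A *ᵥ dv l (dv j v) = - (v ⬝ᵥ (A i).map C *ᵥ dv l (dv j v)) := by
    have h1 := hv.apply i
    rw [sym_dot _ (symb_symm A₀ A h₀ h), sym_dot _ (symm_map C (h i)), h1, dotProduct_neg,
      neg_neg]
  have e3 : v ⬝ᵥ (A i).map C *ᵥ dv l (dv j v) = - (dv l v ⬝ᵥ (A i).map C *ᵥ dv j v) := by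
    have h1 := congrArg (pderiv l) (hv.iso_dv h₀ h i j)
    rw [dv_dot, dv_const_mulVec, map_zero] at h1
    exact eq_neg_of_add_eq_zero_right h1
  rw [e1, e3, neg_neg, dotProduct_sub, dotProduct_neg,
    sym_dot _ (symm_map C (h i)) (dv l v) (dv j v)] at e2
  linear_combination -e2

end kernel

/-- the Witt index of the symmetric matrix `S` (modulo its radical) is at most one -/
def WittLeOne (S : Matrix n n k) : Prop :=
  ∀ V : Submodule k (n → k), (∀ u ∈ V, ∀ v ∈ V, u ⬝ᵥ S *ᵥ v = 0) →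
    Module.finrank k (V.map S.mulVecLin) ≤ 1

theorem minors_of_witt {S : Matrix n n k} (hS : S.IsSymm) (hW : WittLeOne S) (u v : n → k)
    (h1 : u ⬝ᵥ S *ᵥ u = 0) (h2 : u ⬝ᵥ S *ᵥ v = 0) (h3 : v ⬝ᵥ S *ᵥ v = 0) (a b : n) :
    (S *ᵥ u) a * (S *ᵥ v) b = (S *ᵥ v) a * (S *ᵥ u) b := by
  have h := hW (Submodule.span k {u, v}) (by
    intro x hx y hy
    rw [Submodule.mem_span_pair] at hx hy
    obtain ⟨p, q, rfl⟩ := hx
    obtain ⟨p', q', rfl⟩ := hy
    have h2' : v ⬝ᵥ S *ᵥ u = 0 := by rw [sym_dot S hS, h2]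
    simp only [mulVec_add, mulVec_smul, add_dotProduct, dotProduct_add, smul_dotProduct,
      dotProduct_smul, h1, h2, h2', h3, smul_zero, add_zero])
  have hu : S *ᵥ u ∈ (Submodule.span k {u, v}).map S.mulVecLin :=
    ⟨u, Submodule.subset_span (by simp), rfl⟩
  have hv : S *ᵥ v ∈ (Submodule.span k {u, v}).map S.mulVecLin :=
    ⟨v, Submodule.subset_span (by simp), rfl⟩
  rw [finrank_le_one_iff] at h
  obtain ⟨⟨z, hz⟩, hzz⟩ := h
  obtain ⟨c, hc⟩ := hzz ⟨_, hu⟩
  obtain ⟨d, hd⟩ := hzz ⟨_, hv⟩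
  have hc' : c • z = S *ᵥ u := congrArg Subtype.val hc
  have hd' : d • z = S *ᵥ v := congrArg Subtype.val hd
  rw [← hc', ← hd']
  simp only [Pi.smul_apply, smul_eq_mul]
  ring

theorem eval_mulVec (S : Matrix n n k) (v : n → MvPolynomial (Fin s) k) (p : Fin s → k) (a : n) :
    eval p ((S.map C *ᵥ v) a) = (S *ᵥ fun b => eval p (v b)) a := by
  simp [mulVec, dotProduct]

theorem eval_form (S : Matrix n n k) (u v : n → MvPolynomial (Fin s) k) (p : Fin s → k) :
    eval p (u ⬝ᵥ S.map C *ᵥ v) = (fun b => eval p (u b)) ⬝ᵥ S *ᵥ fun b => eval p (v b) := by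
  simp only [dotProduct, map_sum, map_mul, eval_mulVec]

/-- isotropic pairs of polynomial vectors -/
theorem minors_poly [Infinite k] {S : Matrix n n k} (hS : S.IsSymm) (hW : WittLeOne S)
    (u v : n → MvPolynomial (Fin s) k) (h1 : u ⬝ᵥ S.map C *ᵥ u = 0) (h2 : u ⬝ᵥ S.map C *ᵥ v = 0)
    (h3 : v ⬝ᵥ S.map C *ᵥ v = 0) (a b : n) :
    (S.map C *ᵥ u) a * (S.map C *ᵥ v) b = (S.map C *ᵥ v) a * (S.map C *ᵥ u) b := by
  refine MvPolynomial.funext fun p => ?_
  rw [map_mul, map_mul, eval_mulVec, eval_mulVec, eval_mulVec, eval_mulVec]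
  apply minors_of_witt hS hW
  · rw [← eval_form, h1, map_zero]
  · rw [← eval_form, h2, map_zero]
  · rw [← eval_form, h3, map_zero]

section witt

variable [CharZero k] {A₀ : Matrix n n k} {A : Fin s → Matrix n n k} (h₀ : A₀.IsSymm)
  (h : ∀ i, (A i).IsSymm) (hW : ∀ i, WittLeOne (A i))

include h₀ h hW

theorem Ker.self_zero {v : n → MvPolynomial (Fin s) k} (hv : Ker A₀ A v) (j l : Fin s) :
    dv j v ⬝ᵥ (A j).map C *ᵥ dv l v = 0 := by
  have e0 : dv j v ⬝ᵥ (A j).map C *ᵥ dv j v = 0 := by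
    have h1 := hv.second h₀ h j j j
    have h2 : (3 : MvPolynomial (Fin s) k) * (dv j v ⬝ᵥ (A j).map C *ᵥ dv j v) = 0 := by
      linear_combination h1
    have h3 : (3 : MvPolynomial (Fin s) k) ≠ 0 := by
      have h4 : ((3 : ℕ) : MvPolynomial (Fin s) k) ≠ 0 := Nat.cast_ne_zero.2 (by norm_num)
      exact_mod_cast h4
    exact (mul_eq_zero.1 h2).resolve_left h3
  have hm := minors_poly (h j) (hW j) v (dv j v) (hv.iso h₀ h hv j) (hv.iso_dv h₀ h j j) e0
  by_cases hz : (A j).map C *ᵥ v = 0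
  · have h1 : (A j).map C *ᵥ dv j v = 0 := by
      rw [← dv_const_mulVec, hz]
      funext a
      simp [dv]
    rw [sym_dot _ (symm_map C (h j)), h1, dotProduct_zero]
  · obtain ⟨a, ha⟩ := Function.ne_iff.1 hz
    rw [Pi.zero_apply] at ha
    have h1 : ((A j).map C *ᵥ v) a * (dv j v ⬝ᵥ (A j).map C *ᵥ dv l v) = 0 := by
      rw [sym_dot _ (symm_map C (h j)), dotProduct, Finset.mul_sum]
      have h2 : ∑ i, ((A j).map C *ᵥ v) a * (dv l v i * ((A j).map C *ᵥ dv j v) i) =
          ((A j).map C *ᵥ dv j v) a * (dv l v ⬝ᵥ (A j).map C *ᵥ v) := by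
        rw [dotProduct, Finset.mul_sum]
        refine Finset.sum_congr rfl fun i _ => ?_
        linear_combination (dv l v i) * hm a i
      rw [h2, sym_dot _ (symm_map C (h j)), hv.iso_dv h₀ h, mul_zero]
    exact (mul_eq_zero.1 h1).resolve_left ha

theorem Ker.cross_zero {v : n → MvPolynomial (Fin s) k} (hv : Ker A₀ A v) (j l : Fin s) :
    dv j v ⬝ᵥ (A l).map C *ᵥ dv j v = 0 := by
  have h1 := hv.second h₀ h j j l
  rw [hv.self_zero h₀ h hW j l, zero_add, add_zero] at h1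
  exact h1

/-- for every coefficient matrix, its values at the kernel are multiples of one constant vector -/
theorem Ker.exists_const (l : Fin s) : ∃ w : n → k, ∀ v, Ker A₀ A v →
    ∃ f : MvPolynomial (Fin s) k, (A l).map C *ᵥ v = fun a => f * C (w a) := by
  by_cases hz : ∀ v, Ker A₀ A v → (A l).map C *ᵥ v = 0
  · refine ⟨0, fun v hv => ⟨0, ?_⟩⟩
    rw [hz v hv]
    funext a
    simp
  · push Not at hz
    obtain ⟨v, hv, hvz⟩ := hz
    obtain ⟨f, w, hfw⟩ := const_direction ((A l).map C *ᵥ v) (fun j a b => by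
      have hm := minors_poly (h l) (hW l) v (dv j v) (hv.iso h₀ h hv l) (hv.iso_dv h₀ h l j)
        (hv.cross_zero h₀ h hW j l) a b
      have e : ∀ c, pderiv j (((A l).map C *ᵥ v) c) = ((A l).map C *ᵥ dv j v) c := by
        intro c
        rw [← dv_const_mulVec]
        rfl
      rw [e, e]
      linear_combination hm)
    obtain ⟨a, ha⟩ := Function.ne_iff.1 hvz
    rw [Pi.zero_apply, hfw a] at ha
    have hf : f ≠ 0 := left_ne_zero_of_mul ha
    have hwa : w a ≠ 0 := by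
      intro h0
      apply ha
      rw [h0]
      simp
    refine ⟨w, fun v' hv' => ?_⟩
    -- the images of two kernel vectors are proportional
    have hm := fun b => minors_poly (h l) (hW l) v v' (hv.iso h₀ h hv l) (hv.iso h₀ h hv' l)
      (hv'.iso h₀ h hv' l) a b
    refine ⟨C (w a)⁻¹ * ((A l).map C *ᵥ v') a, ?_⟩
    funext b
    have h1 := hm b
    rw [hfw a, hfw b] at h1
    have h2 : f * (C (w a) * ((A l).map C *ᵥ v') b - ((A l).map C *ᵥ v') a * C (w b)) = 0 := by
      linear_combination h1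
    have h3 := sub_eq_zero.1 ((mul_eq_zero.1 h2).resolve_left hf)
    have h4 : C (w a)⁻¹ * C (w a) = (1 : MvPolynomial (Fin s) k) := by
      rw [← C_mul, inv_mul_cancel₀ hwa, C_1]
    linear_combination C (w a)⁻¹ * h3 - ((A l).map C *ᵥ v') b * h4

end witt

end Pool.Agent.W925.Sym
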