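import Pool.Agent.W925.Sym2

/-!
# The rank of symmetric matrices of linear forms whose coefficients have Witt index at most one
-/

set_option autoImplicit false

namespace Pool.Agent.W925.Sym

open MvPolynomial Matrix Module

variable {k : Type*} [Field k] {s : ℕ} {n : Type*} [Fintype n]

/-- the field of rational functions -/
abbrev KK (s : ℕ) (k : Type*) [Field k] := FractionRing (MvPolynomial (Fin s) k)

/-- extension of scalars of a subspace -/
noncomputable def ext (s : ℕ) (W : Submodule k (n → k)) : Submodule (KK s k) (n → KK s k) :=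
  Submodule.span (KK s k) ((fun u a => algebraMap k (KK s k) (u a)) '' (W : Set (n → k)))

omit [Fintype n] in
theorem mem_ext {W : Submodule k (n → k)} {u : n → k} (hu : u ∈ W) :
    (fun a => algebraMap k (KK s k) (u a)) ∈ ext s W := Submodule.subset_span ⟨u, hu, rfl⟩

omit [Fintype n] in
theorem ext_mono {W W' : Submodule k (n → k)} (h : W ≤ W') : ext s W ≤ ext s W' :=
  Submodule.span_mono (Set.image_mono h)

omit [Fintype n] in
theorem ext_span (S : Set (n → k)) : ext s (Submodule.span k S) =
    Submodule.span (KK s k) ((fun u a => algebraMap k (KK s k) (u a)) '' S) := by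
  apply le_antisymm
  · refine Submodule.span_le.2 ?_
    rintro _ ⟨u, hu, rfl⟩
    induction hu using Submodule.span_induction with
    | mem x hx => exact Submodule.subset_span ⟨x, hx, rfl⟩
    | zero =>
      have : (fun a => algebraMap k (KK s k) ((0 : n → k) a)) = 0 := by
        funext a
        simp
      simp only [this]
      exact Submodule.zero_mem _
    | add x y _ _ hx hy =>
      have : (fun a => algebraMap k (KK s k) ((x + y) a)) =
          (fun a => algebraMap k (KK s k) (x a)) + fun a => algebraMap k (KK s k) (y a) := by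
        funext a
        simp
      simp only [this]
      exact Submodule.add_mem _ hx hy
    | smul c x _ hx =>
      have : (fun a => algebraMap k (KK s k) ((c • x) a)) =
          algebraMap k (KK s k) c • fun a => algebraMap k (KK s k) (x a) := by
        funext a
        simp
      simp only [this]
      exact Submodule.smul_mem _ _ hx
  · exact Submodule.span_mono (Set.image_mono Submodule.subset_span)

theorem finrank_ext (W : Submodule k (n → k)) : finrank (KK s k) (ext s W) = finrank k W := by
  classical
  set b := Module.finBasis k W with hb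
  set v : Fin (finrank k W) → n → k := fun i => (b i : n → k) with hv
  have hli : LinearIndependent k v := by
    have := b.linearIndependent.map' W.subtype (Submodule.ker_subtype W)
    exact this
  have hspan : Submodule.span k (Set.range v) = W := by
    have h1 := congrArg (Submodule.map W.subtype) b.span_eq
    rw [Submodule.map_span, Submodule.map_top, Submodule.range_subtype, ← Set.range_comp] at h1
    exact h1
  have h2 : LinearIndependent (KK s k) (fun i => algebraMap k (KK s k) ∘ v i) :=
    linearIndependent_algebraMap_comp_iff.2 hli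
  have h4 : ext s W = Submodule.span (KK s k)
      (Set.range fun i => algebraMap k (KK s k) ∘ v i) := by
    conv_lhs => rw [← hspan]
    rw [ext_span, ← Set.range_comp]
    rfl
  have h3 := finrank_span_eq_card h2
  rw [Fintype.card_fin] at h3
  rw [h4]
  exact h3

/-- the symbolic matrix over the field of rational functions -/
noncomputable def symbK (A₀ : Matrix n n k) (A : Fin s → Matrix n n k) :
    Matrix n n (KK s k) :=
  (symb A₀ A).map (algebraMap (MvPolynomial (Fin s) k) (KK s k))

/-- the polynomial vector `v` over the field of rational functions -/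
noncomputable def toK (v : n → MvPolynomial (Fin s) k) : n → KK s k :=
  fun a => algebraMap _ (KK s k) (v a)

theorem toK_mulVec (M : Matrix n n (MvPolynomial (Fin s) k)) (v : n → MvPolynomial (Fin s) k) :
    M.map (algebraMap _ (KK s k)) *ᵥ toK v = toK (M *ᵥ v) := by
  funext a
  simp [toK, mulVec, dotProduct]

/-- the span of the coefficient vectors of the polynomial vectors in the kernel -/
def hull (A₀ : Matrix n n k) (A : Fin s → Matrix n n k) : Submodule k (n → k) :=
  Submodule.span k {u | ∃ v, Ker A₀ A v ∧ ∃ α, u = fun a => coeff α (v a)}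

omit [Fintype n] in
theorem toK_mem [Finite n] (W : Submodule k (n → k)) (v : n → MvPolynomial (Fin s) k)
    (hv : ∀ α, (fun a => coeff α (v a)) ∈ W) : toK v ∈ ext s W := by
  classical
  have := Fintype.ofFinite n
  have h1 : toK v = ∑ α ∈ Finset.univ.biUnion fun a => (v a).support,
      algebraMap (MvPolynomial (Fin s) k) (KK s k) (monomial α 1) •
        fun a => algebraMap k (KK s k) (coeff α (v a)) := by
    funext a
    rw [Finset.sum_apply]
    have h2 : v a = ∑ α ∈ Finset.univ.biUnion fun a => (v a).support, monomial α (coeff α (v a)) := by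
      conv_lhs => rw [(v a).as_sum]
      apply Finset.sum_subset
      · intro α hα
        exact Finset.mem_biUnion.2 ⟨a, Finset.mem_univ a, hα⟩
      · intro α _ hα
        rw [notMem_support_iff.1 hα, monomial_zero]
    unfold toK
    conv_lhs => rw [h2]
    rw [map_sum]
    refine Finset.sum_congr rfl fun α _ => ?_
    rw [Pi.smul_apply, smul_eq_mul, IsScalarTower.algebraMap_apply k (MvPolynomial (Fin s) k)
      (KK s k), ← map_mul, algebraMap_eq, mul_comm, C_mul_monomial, mul_one]
  rw [h1]
  exact Submodule.sum_mem _ fun α _ => Submodule.smul_mem _ _ (mem_ext (hv α))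

theorem Ker.toK_mem_hull {A₀ : Matrix n n k} {A : Fin s → Matrix n n k}
    {v : n → MvPolynomial (Fin s) k} (hv : Ker A₀ A v) : toK v ∈ ext s (hull A₀ A) :=
  toK_mem _ v fun α => Submodule.subset_span ⟨v, hv, α, rfl⟩

theorem Ker.toK_dv_mem_hull {A₀ : Matrix n n k} {A : Fin s → Matrix n n k}
    {v : n → MvPolynomial (Fin s) k} (hv : Ker A₀ A v) (j : Fin s) :
    toK (dv j v) ∈ ext s (hull A₀ A) := by
  refine toK_mem _ _ fun α => ?_
  have h1 : (fun a => coeff α (dv j v a)) =
      ((α j : k) + 1) • fun a => coeff (α + Finsupp.single j 1) (v a) := by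
    funext a
    rw [dv, coeff_pderiv, Pi.smul_apply, smul_eq_mul, mul_comm]
  rw [h1]
  exact Submodule.smul_mem _ _ (Submodule.subset_span ⟨v, hv, _, rfl⟩)

theorem ker_le_hull (A₀ : Matrix n n k) (A : Fin s → Matrix n n k) :
    LinearMap.ker (symbK A₀ A).mulVecLin ≤ ext s (hull A₀ A) := by
  intro y hy
  obtain ⟨b, hb⟩ := IsLocalization.exist_integer_multiples_of_finite
    (nonZeroDivisors (MvPolynomial (Fin s) k)) y
  choose v hv using hb
  have hb0 : algebraMap (MvPolynomial (Fin s) k) (KK s k) b ≠ 0 := by
    rw [Ne, FaithfulSMul.algebraMap_eq_zero_iff]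
    exact nonZeroDivisors.coe_ne_zero b
  have h1 : toK v = algebraMap (MvPolynomial (Fin s) k) (KK s k) b • y := by
    funext a
    rw [toK, hv a, Pi.smul_apply, smul_eq_mul, Algebra.smul_def]
  have h2 : Ker A₀ A v := by
    have h3 : toK (symb A₀ A *ᵥ v) = 0 := by
      rw [← toK_mulVec, h1, mulVec_smul]
      have : symbK A₀ A *ᵥ y = 0 := hy
      rw [symbK] at this
      rw [this, smul_zero]
    funext a
    have h4 := congrFun h3 a
    rw [toK, Pi.zero_apply, FaithfulSMul.algebraMap_eq_zero_iff] at h4
    exact h4
  have h3 : y = (algebraMap (MvPolynomial (Fin s) k) (KK s k) b)⁻¹ • toK v := by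
    rw [h1, smul_smul, inv_mul_cancel₀ hb0, one_smul]
  rw [h3]
  exact Submodule.smul_mem _ _ h2.toK_mem_hull

/-- the sum of the images of `W` under `A₀` and all the `A_i` -/
def imageSum (A₀ : Matrix n n k) (A : Fin s → Matrix n n k) (W : Submodule k (n → k)) :
    Submodule k (n → k) := W.map A₀.mulVecLin ⊔ ⨆ i, W.map (A i).mulVecLin

theorem symbK_apply_const (A₀ : Matrix n n k) (A : Fin s → Matrix n n k) (u : n → k) :
    symbK A₀ A *ᵥ (fun a => algebraMap k (KK s k) (u a)) =
      (fun a => algebraMap k (KK s k) ((A₀ *ᵥ u) a)) +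
        ∑ i, algebraMap (MvPolynomial (Fin s) k) (KK s k) (X i) •
          fun a => algebraMap k (KK s k) ((A i *ᵥ u) a) := by
  funext a
  simp only [symbK, mulVec, dotProduct, Matrix.map_apply, symb_apply, map_add, map_sum, map_mul,
    Pi.add_apply, Finset.sum_apply, Pi.smul_apply, smul_eq_mul, add_mul, Finset.sum_add_distrib,
    Finset.sum_mul, Finset.mul_sum]
  have e : ∀ c : k, algebraMap (MvPolynomial (Fin s) k) (KK s k) (C c) = algebraMap k (KK s k) c := by
    intro c
    rw [IsScalarTower.algebraMap_apply k (MvPolynomial (Fin s) k) (KK s k), algebraMap_eq]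
  simp only [e]
  congr 1
  rw [Finset.sum_comm]
  refine Finset.sum_congr rfl fun i _ => Finset.sum_congr rfl fun b _ => ?_
  ring

/-- the trivial inequality -/
theorem map_ext_le (A₀ : Matrix n n k) (A : Fin s → Matrix n n k) (W : Submodule k (n → k)) :
    (ext s W).map (symbK A₀ A).mulVecLin ≤ ext s (imageSum A₀ A W) := by
  rw [ext, Submodule.map_span, Submodule.span_le]
  rintro _ ⟨_, ⟨u, hu, rfl⟩, rfl⟩
  rw [SetLike.mem_coe, mulVecLin_apply, symbK_apply_const]
  refine Submodule.add_mem _ (mem_ext (Submodule.mem_sup_left ⟨u, hu, rfl⟩))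
    (Submodule.sum_mem _ fun i _ => Submodule.smul_mem _ _ (mem_ext ?_))
  exact Submodule.mem_sup_right (Submodule.mem_iSup_of_mem i ⟨u, hu, rfl⟩)

theorem finrank_map_add {F V V' : Type*} [Field F] [AddCommGroup V] [Module F V]
    [AddCommGroup V'] [Module F V'] [FiniteDimensional F V] (f : V →ₗ[F] V') (W : Submodule F V) :
    finrank F (W.map f) + finrank F (LinearMap.ker f ⊓ W : Submodule F V) = finrank F W := by
  have h1 := LinearMap.finrank_range_add_finrank_ker (f.domRestrict W)
  rw [LinearMap.range_domRestrict] at h1
  rw [← h1]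
  congr 1
  have h2 : (LinearMap.ker f ⊓ W : Submodule F V) =
      (LinearMap.ker (f.domRestrict W)).map W.subtype := by
    ext x
    simp only [Submodule.mem_inf, LinearMap.mem_ker, Submodule.mem_map, LinearMap.domRestrict_apply,
      Submodule.subtype_apply, Subtype.exists, exists_and_left, exists_prop, exists_eq_right_right]
  rw [h2]
  exact Submodule.finrank_map_subtype_eq _ _

theorem rank_add_ker (A₀ : Matrix n n k) (A : Fin s → Matrix n n k) :
    (symbK A₀ A).rank + finrank (KK s k) (LinearMap.ker (symbK A₀ A).mulVecLin) =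
      Fintype.card n := by
  have h := LinearMap.finrank_range_add_finrank_ker (symbK A₀ A).mulVecLin
  rw [Module.finrank_fintype_fun_eq_card] at h
  exact h

/-- every subspace gives an upper bound of the rank -/
theorem rank_le (A₀ : Matrix n n k) (A : Fin s → Matrix n n k) (W : Submodule k (n → k)) :
    (symbK A₀ A).rank + finrank k W ≤ Fintype.card n + finrank k (imageSum A₀ A W) := by
  have h1 := finrank_map_add (symbK A₀ A).mulVecLin (ext s W)
  have h2 := Submodule.finrank_mono (map_ext_le A₀ A W)
  have h3 : finrank (KK s k)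
      (LinearMap.ker (symbK A₀ A).mulVecLin ⊓ ext s W : Submodule (KK s k) (n → KK s k)) ≤
      finrank (KK s k) (LinearMap.ker (symbK A₀ A).mulVecLin) := Submodule.finrank_mono inf_le_left
  have h4 := rank_add_ker A₀ A
  rw [finrank_ext] at h1 h2
  omega

/-- a subspace which contains the hull and has small images gives the rank -/
theorem rank_eq_of_hull [CharZero k] {A₀ : Matrix n n k} {A : Fin s → Matrix n n k}
    (h₀ : A₀.IsSymm) (h : ∀ i, (A i).IsSymm) (hW : ∀ i, WittLeOne (A i))
    (W : Submodule k (n → k)) (hle : hull A₀ A ≤ W)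
    (him : ∀ i, W.map (A i).mulVecLin ≤ (hull A₀ A).map (A i).mulVecLin) :
    (symbK A₀ A).rank + finrank k W = Fintype.card n + finrank k (imageSum A₀ A W) := by
  apply le_antisymm (rank_le A₀ A W)
  -- the images are contained in the image of the symbolic matrix
  have key : ∀ i, ext s (W.map (A i).mulVecLin) ≤ (ext s W).map (symbK A₀ A).mulVecLin := by
    intro i
    refine (ext_mono (him i)).trans ?_
    obtain ⟨w, hw⟩ := Ker.exists_const h₀ h hW i
    by_cases hz : ∀ v, Ker A₀ A v → (A i).map C *ᵥ v = 0
    · have h1 : (hull A₀ A).map (A i).mulVecLin = ⊥ := by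
        rw [eq_bot_iff, hull, Submodule.map_span, Submodule.span_le]
        rintro _ ⟨_, ⟨v, hv, α, rfl⟩, rfl⟩
        rw [SetLike.mem_coe, Submodule.mem_bot, mulVecLin_apply]
        funext a
        have h2 := congrArg (coeff α) (congrFun (hz v hv) a)
        simpa [mulVec, dotProduct, coeff_C_mul, coeff_sum] using h2
      rw [h1, ext]
      refine Submodule.span_le.2 ?_
      rintro _ ⟨u, hu, rfl⟩
      rw [SetLike.mem_coe, Submodule.mem_bot] at hu
      subst hu
      have h7 : (fun a => algebraMap k (KK s k) ((0 : n → k) a)) = 0 := by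
        funext a
        simp
      simp only [h7]
      exact Submodule.zero_mem _
    · push Not at hz
      obtain ⟨v, hv, hvz⟩ := hz
      obtain ⟨f, hf⟩ := hw v hv
      have hf0 : f ≠ 0 := by
        rintro rfl
        apply hvz
        rw [hf]
        funext a
        simp
      -- the constant vector is in the image
      have hwim : (fun a => algebraMap k (KK s k) (w a)) ∈
          (ext s W).map (symbK A₀ A).mulVecLin := by
        have h1 : toK ((A i).map C *ᵥ v) ∈ (ext s W).map (symbK A₀ A).mulVecLin := by
          rw [hv.apply i]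
          have h2 : toK (-(symb A₀ A *ᵥ dv i v)) = - (symbK A₀ A *ᵥ toK (dv i v)) := by
            rw [symbK, toK_mulVec]
            funext a
            simp [toK]
          rw [h2]
          refine Submodule.neg_mem _ ⟨toK (dv i v), ext_mono hle (hv.toK_dv_mem_hull i), rfl⟩
        have h3 : (fun a => algebraMap k (KK s k) (w a)) =
            (algebraMap (MvPolynomial (Fin s) k) (KK s k) f)⁻¹ • toK ((A i).map C *ᵥ v) := by
          funext a
          have h4 : algebraMap (MvPolynomial (Fin s) k) (KK s k) f ≠ 0 := by
            rw [Ne, FaithfulSMul.algebraMap_eq_zero_iff]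
            exact hf0
          rw [hf, Pi.smul_apply, toK, map_mul, smul_eq_mul, inv_mul_cancel_left₀ h4,
            IsScalarTower.algebraMap_apply k (MvPolynomial (Fin s) k) (KK s k), algebraMap_eq]
        rw [h3]
        exact Submodule.smul_mem _ _ h1
      rw [hull, Submodule.map_span, ext_span, Submodule.span_le]
      rintro _ ⟨_, ⟨_, ⟨v', hv', α, rfl⟩, rfl⟩, rfl⟩
      obtain ⟨f', hf'⟩ := hw v' hv'
      have h5 : (fun a => algebraMap k (KK s k)
          (((A i).mulVecLin fun a => coeff α (v' a)) a)) =
          algebraMap k (KK s k) (coeff α f') • fun a => algebraMap k (KK s k) (w a) := by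
        funext a
        rw [Pi.smul_apply, smul_eq_mul, ← map_mul]
        congr 1
        have h6 := congrArg (coeff α) (congrFun hf' a)
        rw [mul_comm, coeff_C_mul, mul_comm] at h6
        rw [← h6]
        simp [mulVec, dotProduct, coeff_C_mul, coeff_sum]
      simp only [SetLike.mem_coe, h5]
      exact Submodule.smul_mem _ _ hwim
  have hE : ext s (imageSum A₀ A W) ≤ (ext s W).map (symbK A₀ A).mulVecLin := by
    have h0 : ∀ u ∈ W, (fun a => algebraMap k (KK s k) ((A₀ *ᵥ u) a)) ∈
        (ext s W).map (symbK A₀ A).mulVecLin := by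
      intro u hu
      have h1 := symbK_apply_const A₀ A u
      have h2 : (fun a => algebraMap k (KK s k) ((A₀ *ᵥ u) a)) =
          symbK A₀ A *ᵥ (fun a => algebraMap k (KK s k) (u a)) -
          ∑ i, algebraMap (MvPolynomial (Fin s) k) (KK s k) (X i) •
          fun a => algebraMap k (KK s k) ((A i *ᵥ u) a) := by
        rw [h1]
        abel
      rw [h2]
      refine Submodule.sub_mem _ ⟨_, mem_ext hu, rfl⟩ (Submodule.sum_mem _ fun i _ =>
        Submodule.smul_mem _ _ (key i (mem_ext ⟨u, hu, rfl⟩)))
    have h3 : imageSum A₀ A W = Submodule.span k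
        ((W.map A₀.mulVecLin : Set (n → k)) ∪ ⋃ i, (W.map (A i).mulVecLin : Set (n → k))) := by
      rw [Submodule.span_union, Submodule.span_eq, Submodule.span_iUnion]
      simp only [Submodule.span_eq]
      rfl
    rw [h3, ext_span, Submodule.span_le]
    rintro _ ⟨x, hx, rfl⟩
    rcases hx with hx | hx
    · obtain ⟨u, hu, rfl⟩ := hx
      exact h0 u hu
    · obtain ⟨i, hi⟩ := Set.mem_iUnion.1 hx
      exact key i (mem_ext hi)
  have h1 := finrank_map_add (symbK A₀ A).mulVecLin (ext s W)
  have h2 := Submodule.finrank_mono hE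
  rw [inf_eq_left.2 ((ker_le_hull A₀ A).trans (ext_mono hle)), finrank_ext] at h1
  rw [finrank_ext] at h2
  have h4 := rank_add_ker A₀ A
  omega

end Pool.Agent.W925.Sym
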