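import Pool.Agent.W925.Sym3

/-!
# Symmetric matrices of Witt index at most one
-/

set_option autoImplicit false

namespace Pool.Agent.W925.Sym

open Matrix Module

variable {k : Type*} [Field k] {n : Type*} [Fintype n]

theorem wittLeOne_of_pairs {S : Matrix n n k}
    (h : ∀ u v : n → k, u ⬝ᵥ S *ᵥ u = 0 → u ⬝ᵥ S *ᵥ v = 0 → v ⬝ᵥ S *ᵥ u = 0 → v ⬝ᵥ S *ᵥ v = 0 →
      ¬ LinearIndependent k ![S *ᵥ u, S *ᵥ v]) : WittLeOne S := by
  intro V hV
  by_contra hcon
  push Not at hcon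
  obtain ⟨f, hf⟩ := exists_linearIndependent_of_le_finrank (R := k)
    (M := (V.map S.mulVecLin : Submodule k (n → k))) (n := 2) hcon
  obtain ⟨u, hu, hu'⟩ := (f 0).2
  obtain ⟨v, hv, hv'⟩ := (f 1).2
  refine h u v (hV u hu u hu) (hV u hu v hv) (hV v hv u hu) (hV v hv v hv) ?_
  have h1 := hf.map' (Submodule.subtype _) (Submodule.ker_subtype _)
  have h2 : ![S *ᵥ u, S *ᵥ v] = (Submodule.subtype (V.map S.mulVecLin)) ∘ f := by
    funext i
    fin_cases i
    · exact hu'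
    · exact hv'
  rw [h2]
  exact h1

theorem exists_dual {ι : Type*} [Finite ι] (v : ι → n → k) (hv : LinearIndependent k v) [DecidableEq ι] :
    ∃ x : ι → n → k, ∀ i j, x i ⬝ᵥ v j = if i = j then 1 else 0 := by
  classical
  set b := Module.Basis.extend hv.linearIndepOn_id with hb
  have hinj := hv.injective
  have hmem : ∀ j, v j ∈ hv.linearIndepOn_id.extend (Set.subset_univ _) := fun j =>
    hv.linearIndepOn_id.subset_extend _ ⟨j, rfl⟩
  refine ⟨fun i a => b.coord ⟨v i, hmem i⟩ (Pi.single a 1), fun i j => ?_⟩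
  have h1 : (fun a => b.coord ⟨v i, hmem i⟩ (Pi.single a 1)) ⬝ᵥ v j =
      b.coord ⟨v i, hmem i⟩ (v j) := by
    rw [LinearMap.pi_apply_eq_sum_univ (b.coord ⟨v i, hmem i⟩) (v j), dotProduct]
    refine Finset.sum_congr rfl fun a _ => ?_
    rw [smul_eq_mul, mul_comm]
    congr 2
    funext c
    rw [Pi.single_apply]
    simp [eq_comm]
  rw [h1]
  have h2 : b ⟨v j, hmem j⟩ = v j := by
    rw [hb, Module.Basis.extend_apply_self]
  conv_lhs => rw [← h2]
  rw [Module.Basis.coord_apply, Module.Basis.repr_self, Finsupp.single_apply]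
  by_cases hij : i = j
  · subst hij
    simp
  · rw [if_neg hij, if_neg]
    intro h
    exact hij (hinj (congrArg Subtype.val h)).symm

/-- symmetric matrices of rank at most three -/
theorem wittLeOne_of_rank {S : Matrix n n k} (hS : S.IsSymm) (hr : S.rank ≤ 3) : WittLeOne S := by
  classical
  refine wittLeOne_of_pairs fun u v huu huv hvu hvv hli => ?_
  obtain ⟨x, hx⟩ := exists_dual _ hli
  have e1 : u ⬝ᵥ S *ᵥ x 0 = 1 := by
    rw [sym_dot S hS]
    simpa using hx 0 0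
  have e2 : u ⬝ᵥ S *ᵥ x 1 = 0 := by
    rw [sym_dot S hS]
    simpa using hx 1 0
  have e3 : v ⬝ᵥ S *ᵥ x 0 = 0 := by
    rw [sym_dot S hS]
    simpa using hx 0 1
  have e4 : v ⬝ᵥ S *ᵥ x 1 = 1 := by
    rw [sym_dot S hS]
    simpa using hx 1 1
  have hli4 : LinearIndependent k ![S *ᵥ u, S *ᵥ v, S *ᵥ x 0, S *ᵥ x 1] := by
    rw [Fintype.linearIndependent_iff]
    intro g hg
    simp only [Fin.sum_univ_four, Matrix.cons_val_zero, Matrix.cons_val_one, Matrix.cons_val] at hg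
    have g2 : g 2 = 0 := by
      have h1 := congrArg (fun y => u ⬝ᵥ y) hg
      simpa only [dotProduct_add, dotProduct_smul, huu, huv, e1, e2, smul_eq_mul, mul_zero,
        mul_one, zero_add, add_zero, dotProduct_zero] using h1
    have g3 : g 3 = 0 := by
      have h1 := congrArg (fun y => v ⬝ᵥ y) hg
      simpa only [dotProduct_add, dotProduct_smul, hvu, hvv, e3, e4, smul_eq_mul, mul_zero,
        mul_one, zero_add, add_zero, dotProduct_zero] using h1
    rw [g2, g3, zero_smul, zero_smul, add_zero, add_zero] at hg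
    rw [LinearIndependent.pair_iff] at hli
    obtain ⟨g0, g1⟩ := hli _ _ hg
    intro i
    fin_cases i
    · exact g0
    · exact g1
    · exact g2
    · exact g3
  have h4 : (4 : ℕ) ≤ S.rank := by
    have hle : Submodule.span k (Set.range ![S *ᵥ u, S *ᵥ v, S *ᵥ x 0, S *ᵥ x 1]) ≤
        LinearMap.range S.mulVecLin := by
      rw [Submodule.span_le]
      rintro _ ⟨i, rfl⟩
      fin_cases i
      · exact ⟨u, rfl⟩
      · exact ⟨v, rfl⟩
      · exact ⟨x 0, rfl⟩
      · exact ⟨x 1, rfl⟩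
    have h5 := Submodule.finrank_mono hle
    rw [finrank_span_eq_card hli4, Fintype.card_fin] at h5
    exact h5
  omega

/-- symmetric matrices which are nonnegative on a hyperplane -/
theorem wittLeOne_of_nonneg {k : Type*} [Field k] [LinearOrder k] [IsStrictOrderedRing k]
    {S : Matrix n n k} (hS : S.IsSymm) (c : n → k)
    (h : ∀ v, c ⬝ᵥ v = 0 → 0 ≤ v ⬝ᵥ S *ᵥ v) : WittLeOne S := by
  classical
  refine wittLeOne_of_pairs fun u v huu huv hvu hvv hli => ?_
  -- an isotropic vector of the hyperplane is orthogonal to the hyperplane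
  have key : ∀ x : n → k, c ⬝ᵥ x = 0 → x ⬝ᵥ S *ᵥ x = 0 → ∀ y, c ⬝ᵥ y = 0 → y ⬝ᵥ S *ᵥ x = 0 := by
    intro x hcx hx y hcy
    by_contra hne
    set b := y ⬝ᵥ S *ᵥ x with hb
    set a := y ⬝ᵥ S *ᵥ y with ha
    have h1 : ∀ t : k, 0 ≤ a + 2 * t * b := by
      intro t
      have h2 := h (y + t • x) (by
        rw [dotProduct_add, dotProduct_smul, hcx, hcy, smul_zero, add_zero])
      have h3 : (y + t • x) ⬝ᵥ S *ᵥ (y + t • x) = a + 2 * t * b := by
        rw [mulVec_add, mulVec_smul, dotProduct_add, add_dotProduct, add_dotProduct,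
          smul_dotProduct, smul_dotProduct, dotProduct_smul, dotProduct_smul, hx,
          sym_dot S hS x y]
        simp only [smul_eq_mul]
        ring
      rw [← h3]
      exact h2
    have h2 := h1 (-(a + 1) / (2 * b))
    have h3 : 2 * (-(a + 1) / (2 * b)) * b = -(a + 1) := by
      field_simp
    rw [h3] at h2
    linarith
  by_cases hc : c = 0
  · -- the matrix is nonnegative
    have h1 : S *ᵥ u = 0 := by
      rw [← dotProduct_self_eq_zero (v := S *ᵥ u)]
      exact key u (by rw [hc, zero_dotProduct]) huu _ (by rw [hc, zero_dotProduct])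
    rw [LinearIndependent.pair_iff] at hli
    have := hli 1 0 (by rw [h1]; simp)
    exact one_ne_zero this.1
  have hcc : c ⬝ᵥ c ≠ 0 := fun h0 => hc (dotProduct_self_eq_zero.1 h0)
  -- vectors of the hyperplane
  have key2 : ∀ x : n → k, c ⬝ᵥ x = 0 → x ⬝ᵥ S *ᵥ x = 0 →
      S *ᵥ x = ((c ⬝ᵥ S *ᵥ x) / (c ⬝ᵥ c)) • c := by
    intro x hcx hx
    rw [← sub_eq_zero]
    set z := S *ᵥ x - ((c ⬝ᵥ S *ᵥ x) / (c ⬝ᵥ c)) • c with hz
    have h1 : c ⬝ᵥ z = 0 := by
      rw [hz, dotProduct_sub, dotProduct_smul, smul_eq_mul, div_mul_cancel₀ _ hcc, sub_self]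
    have h2 : z ⬝ᵥ S *ᵥ x = 0 := key x hcx hx z h1
    rw [← dotProduct_self_eq_zero (v := z)]
    conv_lhs =>
      arg 2
      rw [hz]
    rw [dotProduct_sub, dotProduct_smul, dotProduct_comm z c, h1, smul_zero, h2, sub_zero]
  rw [LinearIndependent.pair_iff] at hli
  -- a nonzero combination in the hyperplane
  set x := (c ⬝ᵥ v) • u - (c ⬝ᵥ u) • v with hx
  have hcx : c ⬝ᵥ x = 0 := by
    rw [hx, dotProduct_sub, dotProduct_smul, dotProduct_smul, smul_eq_mul, smul_eq_mul]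
    ring
  have hxx : x ⬝ᵥ S *ᵥ x = 0 := by
    rw [hx, mulVec_sub, mulVec_smul, mulVec_smul]
    simp only [dotProduct_sub, sub_dotProduct, smul_dotProduct, dotProduct_smul, huu, huv, hvu,
      hvv, smul_zero, sub_zero]
  have hux : u ⬝ᵥ S *ᵥ x = 0 := by
    rw [hx, mulVec_sub, mulVec_smul, mulVec_smul]
    simp only [dotProduct_sub, dotProduct_smul, huu, huv, smul_zero, sub_zero]
  have hvx : v ⬝ᵥ S *ᵥ x = 0 := by
    rw [hx, mulVec_sub, mulVec_smul, mulVec_smul]
    simp only [dotProduct_sub, dotProduct_smul, hvu, hvv, smul_zero, sub_zero]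
  have h1 := key2 x hcx hxx
  by_cases h2 : c ⬝ᵥ S *ᵥ x = 0
  · rw [h2, zero_div, zero_smul, hx, mulVec_sub, mulVec_smul, mulVec_smul, sub_eq_add_neg,
      ← neg_smul] at h1
    obtain ⟨h3, h4⟩ := hli _ _ h1
    have hcu : c ⬝ᵥ u = 0 := neg_eq_zero.1 h4
    -- both vectors are in the hyperplane
    have h5 := key2 u hcu huu
    have h6 := key2 v h3 hvv
    have h7 := hli (c ⬝ᵥ S *ᵥ v) (-(c ⬝ᵥ S *ᵥ u)) (by
      rw [h5, h6]
      simp only [dotProduct_smul, smul_smul, smul_eq_mul, div_mul_cancel₀ _ hcc]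
      rw [← add_smul]
      have : c ⬝ᵥ S *ᵥ v * (c ⬝ᵥ S *ᵥ u / c ⬝ᵥ c) + -(c ⬝ᵥ S *ᵥ u) * (c ⬝ᵥ S *ᵥ v / c ⬝ᵥ c) = 0 := by
        ring
      rw [this, zero_smul])
    have h8 : c ⬝ᵥ S *ᵥ u = 0 := neg_eq_zero.1 h7.2
    rw [h8, zero_div, zero_smul] at h5
    have := hli 1 0 (by rw [h5]; simp)
    exact one_ne_zero this.1
  · have h3 : (c ⬝ᵥ S *ᵥ x) / (c ⬝ᵥ c) ≠ 0 := div_ne_zero h2 hcc
    have hcu : c ⬝ᵥ u = 0 := by
      rw [h1, dotProduct_smul, smul_eq_mul, dotProduct_comm u c] at hux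
      exact (mul_eq_zero.1 hux).resolve_left h3
    have hcv : c ⬝ᵥ v = 0 := by
      rw [h1, dotProduct_smul, smul_eq_mul, dotProduct_comm v c] at hvx
      exact (mul_eq_zero.1 hvx).resolve_left h3
    apply h2
    rw [hx, hcu, hcv, zero_smul, zero_smul, sub_zero, mulVec_zero, dotProduct_zero]

theorem wittLeOne_neg {S : Matrix n n k} (h : WittLeOne (-S)) : WittLeOne S := by
  intro V hV
  have h1 := h V (fun u hu v hv => by rw [neg_mulVec, dotProduct_neg, hV u hu v hv, neg_zero])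
  have h2 : V.map (-S).mulVecLin = V.map S.mulVecLin := by
    ext y
    constructor
    · rintro ⟨x, hx, rfl⟩
      exact ⟨-x, V.neg_mem hx, by simp [mulVec_neg]⟩
    · rintro ⟨x, hx, rfl⟩
      exact ⟨-x, V.neg_mem hx, by simp [mulVec_neg]⟩
  rwa [h2] at h1

end Pool.Agent.W925.Sym
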