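import Pool.Agent.W925.UnifPr

/-! Degree components and duality (project of helper373, MP_424f45_al). -/

set_option autoImplicit false

namespace Pool.Agent.W925.Unif

open Pool.Agent.W373.Unif

/-- digit sum: length of a word from its weight -/
def lenN (N : ℕ) : ℕ :=
  N % 5 + N / 5 % 5 + N / 25 % 5 + N / 125 % 5 + N / 625 % 5 + N / 3125 % 5

theorem lenN_wt : ∀ a : X, lenN (wt a) = 1 := by decide +kernel
theorem lenN_wt2 : ∀ w : W2, lenN (wt2 w) = 2 := by decide +kernel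
theorem lenN_wt3 : ∀ w : W3, lenN (wt3 w) = 3 := by decide +kernel
theorem lenN_wt4 : ∀ w : W4, lenN (wt4 w) = 4 := by decide +kernel
theorem wt_inj : ∀ a b : X, wt a = wt b → a = b := by decide +kernel

section
variable {p : ℕ} [Fact p.Prime]

theorem isUnit_of_toZMod {r : ℤ_[p]} (h : PadicInt.toZMod r ≠ 0) : IsUnit r := by
  by_contra hu
  have h1 : r ∈ IsLocalRing.maximalIdeal ℤ_[p] := (IsLocalRing.mem_maximalIdeal r).2 hu
  rw [← PadicInt.ker_toZMod] at h1
  exact h h1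

theorem isUnit_natCast {n : ℕ} (hn : 0 < n) (hp : n < p) : IsUnit ((n : ℕ) : ℤ_[p]) := by
  apply isUnit_of_toZMod
  rw [map_natCast]
  intro h
  rw [ZMod.natCast_eq_zero_iff] at h
  have := Nat.le_of_dvd hn h
  omega

theorem unit2 (hp : 5 < p) : IsUnit (2 : ℤ_[p]) := by
  have := isUnit_natCast (p := p) (n := 2) (by norm_num) (by omega)
  exact_mod_cast this
theorem unit3 (hp : 5 < p) : IsUnit (3 : ℤ_[p]) := by
  have := isUnit_natCast (p := p) (n := 3) (by norm_num) (by omega)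
  exact_mod_cast this
theorem unit4 (hp : 5 < p) : IsUnit (4 : ℤ_[p]) := by
  have := isUnit_natCast (p := p) (n := 4) (by norm_num) (by omega)
  exact_mod_cast this
theorem unit6 (hp : 5 < p) : IsUnit (6 : ℤ_[p]) := by
  have := (unit2 hp).mul (unit3 hp)
  norm_num at this
  exact this
theorem unit12 (hp : 5 < p) : IsUnit (12 : ℤ_[p]) := by
  have := (unit3 hp).mul (unit4 hp)
  norm_num at this
  exact this

variable {L : Type} [LieRing L] [LieAlgebra ℤ_[p] L] {x : X → L}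

theorem mem_of_unit_smul {N : Submodule ℤ_[p] L} {r : ℤ_[p]} (hr : IsUnit r) {y : L}
    (h : r • y ∈ N) : y ∈ N := by
  obtain ⟨u, rfl⟩ := hr
  have := N.smul_mem (↑u⁻¹ : ℤ_[p]) h
  rwa [smul_smul, Units.inv_mul, one_smul] at this

theorem unit_cancel {r : ℤ_[p]} (hr : IsUnit r) {y z : L} (h : r • y = r • z) : y = z := by
  obtain ⟨u, rfl⟩ := hr
  have := congrArg (fun t => (↑u⁻¹ : ℤ_[p]) • t) h
  simpa only [smul_smul, Units.inv_mul, one_smul] using this

/-- unnormalised degree components -/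
noncomputable def S1 (M : Model ℤ_[p] L x) (y : L) : L := ∑ a, M.cf1 y a • x a
noncomputable def S2 (M : Model ℤ_[p] L x) (y : L) : L := ∑ w, M.cf2 y w • b2 x w
noncomputable def S3 (M : Model ℤ_[p] L x) (y : L) : L := ∑ w, M.cf3 y w • b3 x w
noncomputable def S4 (M : Model ℤ_[p] L x) (y : L) : L := ∑ w, M.cf4 y w • b4 x w

theorem S1_add (M : Model ℤ_[p] L x) (y z : L) : S1 M (y + z) = S1 M y + S1 M z := by
  simp only [S1, map_add, Pi.add_apply, add_smul, Finset.sum_add_distrib]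
theorem S2_add (M : Model ℤ_[p] L x) (y z : L) : S2 M (y + z) = S2 M y + S2 M z := by
  simp only [S2, map_add, Pi.add_apply, add_smul, Finset.sum_add_distrib]
theorem S3_add (M : Model ℤ_[p] L x) (y z : L) : S3 M (y + z) = S3 M y + S3 M z := by
  simp only [S3, map_add, Pi.add_apply, add_smul, Finset.sum_add_distrib]
theorem S4_add (M : Model ℤ_[p] L x) (y z : L) : S4 M (y + z) = S4 M y + S4 M z := by
  simp only [S4, map_add, Pi.add_apply, add_smul, Finset.sum_add_distrib]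
theorem S1_smul (M : Model ℤ_[p] L x) (r : ℤ_[p]) (y : L) : S1 M (r • y) = r • S1 M y := by
  simp only [S1, map_smul, Pi.smul_apply, smul_eq_mul, mul_smul, Finset.smul_sum]
theorem S2_smul (M : Model ℤ_[p] L x) (r : ℤ_[p]) (y : L) : S2 M (r • y) = r • S2 M y := by
  simp only [S2, map_smul, Pi.smul_apply, smul_eq_mul, mul_smul, Finset.smul_sum]
theorem S3_smul (M : Model ℤ_[p] L x) (r : ℤ_[p]) (y : L) : S3 M (r • y) = r • S3 M y := by
  simp only [S3, map_smul, Pi.smul_apply, smul_eq_mul, mul_smul, Finset.smul_sum]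
theorem S4_smul (M : Model ℤ_[p] L x) (r : ℤ_[p]) (y : L) : S4 M (r • y) = r • S4 M y := by
  simp only [S4, map_smul, Pi.smul_apply, smul_eq_mul, mul_smul, Finset.smul_sum]
theorem S1_zero (M : Model ℤ_[p] L x) : S1 M 0 = 0 := by simp [S1]
theorem S2_zero (M : Model ℤ_[p] L x) : S2 M 0 = 0 := by simp [S2]
theorem S3_zero (M : Model ℤ_[p] L x) : S3 M 0 = 0 := by simp [S3]
theorem S4_zero (M : Model ℤ_[p] L x) : S4 M 0 = 0 := by simp [S4]

/-- the decomposition -/
theorem dsw (hD : S_Dsw) (M : Model ℤ_[p] L x) (y : L) :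
    (12 : ℤ_[p]) • y = (12 : ℤ_[p]) • S1 M y + (6 : ℤ_[p]) • S2 M y + (4 : ℤ_[p]) • S3 M y +
      (3 : ℤ_[p]) • S4 M y := hD ℤ_[p] L x M y

theorem S2_b2 (hD : S_Dsw) (hp : 5 < p) (M : Model ℤ_[p] L x) (w : W2) :
    S2 M (b2 x w) = (2 : ℤ_[p]) • b2 x w := by
  have h := dsw hD M (b2 x w)
  have e1 : S1 M (b2 x w) = 0 := by simp [S1, M.cf1_b2]
  have e3 : S3 M (b2 x w) = 0 := by simp [S3, M.cf3_b2]
  have e4 : S4 M (b2 x w) = 0 := by simp [S4, M.cf4_b2]
  rw [e1, e3, e4, smul_zero, smul_zero, smul_zero, add_zero, add_zero, zero_add] at h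
  apply unit_cancel (unit6 hp)
  rw [← h, smul_smul]; norm_num

theorem S3_b3 (hD : S_Dsw) (hp : 5 < p) (M : Model ℤ_[p] L x) (w : W3) :
    S3 M (b3 x w) = (3 : ℤ_[p]) • b3 x w := by
  have h := dsw hD M (b3 x w)
  have e1 : S1 M (b3 x w) = 0 := by simp [S1, M.cf1_b3]
  have e3 : S2 M (b3 x w) = 0 := by simp [S2, M.cf2_b3]
  have e4 : S4 M (b3 x w) = 0 := by simp [S4, M.cf4_b3]
  rw [e1, e3, e4, smul_zero, smul_zero, smul_zero, add_zero, add_zero, zero_add] at h
  apply unit_cancel (unit4 hp)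
  rw [← h, smul_smul]; norm_num

theorem S4_b4 (hD : S_Dsw) (hp : 5 < p) (M : Model ℤ_[p] L x) (w : W4) :
    S4 M (b4 x w) = (4 : ℤ_[p]) • b4 x w := by
  have h := dsw hD M (b4 x w)
  have e1 : S1 M (b4 x w) = 0 := by simp [S1, M.cf1_b4]
  have e3 : S2 M (b4 x w) = 0 := by simp [S2, M.cf2_b4]
  have e4 : S3 M (b4 x w) = 0 := by simp [S3, M.cf3_b4]
  rw [e1, e3, e4, smul_zero, smul_zero, smul_zero, add_zero, add_zero, zero_add] at h
  apply unit_cancel (unit3 hp)
  rw [← h, smul_smul]; norm_num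

theorem S1_x (M : Model ℤ_[p] L x) (a : X) : S1 M (x a) = x a := by
  unfold S1
  rw [Finset.sum_eq_single a]
  · rw [M.cf1_x, Pi.single_eq_same, one_smul]
  · intro b _ hb
    rw [M.cf1_x, Pi.single_eq_of_ne hb, zero_smul]
  · intro h; exact absurd (Finset.mem_univ a) h

/-- degree components of weight vectors -/
theorem S2_wsp (hD : S_Dsw) (hp : 5 < p) (M : Model ℤ_[p] L x) {j : ℕ} {y : L}
    (hy : y ∈ wsp ℤ_[p] x j) : S2 M y = if lenN j = 2 then (2 : ℤ_[p]) • y else 0 := by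
  refine wsp_ind (P := fun y => S2 M y = if lenN j = 2 then (2 : ℤ_[p]) • y else 0)
    ?_ ?_ ?_ ?_ ?_ ?_ ?_ hy
  · simp [S2_zero]
  · intro y z hy hz
    rw [S2_add, hy, hz]; split_ifs
    · rw [smul_add]
    · rw [add_zero]
  · intro r y hy
    rw [S2_smul, hy]; split_ifs
    · rw [smul_smul, smul_smul, mul_comm]
    · rw [smul_zero]
  · intro a ha
    rw [← ha, lenN_wt, if_neg (by norm_num)]
    simp [S2, M.cf2_x]
  · intro w hw
    rw [← hw, lenN_wt2, if_pos rfl, S2_b2 hD hp]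
  · intro w hw
    rw [← hw, lenN_wt3, if_neg (by norm_num)]
    simp [S2, M.cf2_b3]
  · intro w hw
    rw [← hw, lenN_wt4, if_neg (by norm_num)]
    simp [S2, M.cf2_b4]

theorem S3_wsp (hD : S_Dsw) (hp : 5 < p) (M : Model ℤ_[p] L x) {j : ℕ} {y : L}
    (hy : y ∈ wsp ℤ_[p] x j) : S3 M y = if lenN j = 3 then (3 : ℤ_[p]) • y else 0 := by
  refine wsp_ind (P := fun y => S3 M y = if lenN j = 3 then (3 : ℤ_[p]) • y else 0)
    ?_ ?_ ?_ ?_ ?_ ?_ ?_ hy
  · simp [S3_zero]
  · intro y z hy hz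
    rw [S3_add, hy, hz]; split_ifs
    · rw [smul_add]
    · rw [add_zero]
  · intro r y hy
    rw [S3_smul, hy]; split_ifs
    · rw [smul_smul, smul_smul, mul_comm]
    · rw [smul_zero]
  · intro a ha
    rw [← ha, lenN_wt, if_neg (by norm_num)]
    simp [S3, M.cf3_x]
  · intro w hw
    rw [← hw, lenN_wt2, if_neg (by norm_num)]
    simp [S3, M.cf3_b2]
  · intro w hw
    rw [← hw, lenN_wt3, if_pos rfl, S3_b3 hD hp]
  · intro w hw
    rw [← hw, lenN_wt4, if_neg (by norm_num)]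
    simp [S3, M.cf3_b4]

theorem S4_wsp (hD : S_Dsw) (hp : 5 < p) (M : Model ℤ_[p] L x) {j : ℕ} {y : L}
    (hy : y ∈ wsp ℤ_[p] x j) : S4 M y = if lenN j = 4 then (4 : ℤ_[p]) • y else 0 := by
  refine wsp_ind (P := fun y => S4 M y = if lenN j = 4 then (4 : ℤ_[p]) • y else 0)
    ?_ ?_ ?_ ?_ ?_ ?_ ?_ hy
  · simp [S4_zero]
  · intro y z hy hz
    rw [S4_add, hy, hz]; split_ifs
    · rw [smul_add]
    · rw [add_zero]
  · intro r y hy
    rw [S4_smul, hy]; split_ifs
    · rw [smul_smul, smul_smul, mul_comm]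
    · rw [smul_zero]
  · intro a ha
    rw [← ha, lenN_wt, if_neg (by norm_num)]
    simp [S4, M.cf4_x]
  · intro w hw
    rw [← hw, lenN_wt2, if_neg (by norm_num)]
    simp [S4, M.cf4_b2]
  · intro w hw
    rw [← hw, lenN_wt3, if_neg (by norm_num)]
    simp [S4, M.cf4_b3]
  · intro w hw
    rw [← hw, lenN_wt4, if_pos rfl, S4_b4 hD hp]

/-- the coefficient of `x a` on weight vectors -/
theorem cf1_wsp (M : Model ℤ_[p] L x) (a : X) {j : ℕ} {y : L}
    (hy : y ∈ wsp ℤ_[p] x j) : M.cf1 y a • x a = if j = wt a then y else 0 := by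
  refine wsp_ind (P := fun y => M.cf1 y a • x a = if j = wt a then y else 0)
    ?_ ?_ ?_ ?_ ?_ ?_ ?_ hy
  · simp
  · intro y z hy hz
    rw [map_add, Pi.add_apply, add_smul, hy, hz]; split_ifs
    · rfl
    · rw [add_zero]
  · intro r y hy
    rw [map_smul, Pi.smul_apply, smul_eq_mul, mul_smul, hy]; split_ifs
    · rfl
    · rw [smul_zero]
  · intro b hb
    rw [M.cf1_x]
    by_cases hab : a = b
    · subst hab
      rw [Pi.single_eq_same, one_smul, if_pos hb.symm]
    · rw [Pi.single_eq_of_ne hab, zero_smul, if_neg]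
      intro h
      exact hab (wt_inj _ _ (by rw [hb, h]))
  · intro w hw
    rw [M.cf1_b2, Pi.zero_apply, zero_smul, if_neg]
    intro h
    have h1 := lenN_wt2 w
    rw [hw, h, lenN_wt] at h1
    omega
  · intro w hw
    rw [M.cf1_b3, Pi.zero_apply, zero_smul, if_neg]
    intro h
    have h1 := lenN_wt3 w
    rw [hw, h, lenN_wt] at h1
    omega
  · intro w hw
    rw [M.cf1_b4, Pi.zero_apply, zero_smul, if_neg]
    intro h
    have h1 := lenN_wt4 w
    rw [hw, h, lenN_wt] at h1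
    omega

/-- induction for elements of a multigraded ideal -/
theorem mg_ind {R L : Type} [CommRing R] [LieRing L] [LieAlgebra R L] {x : X → L}
    {I : LieIdeal R L} (hMG : MG x I) (P : L → Prop) (h0 : P 0)
    (hadd : ∀ y z, P y → P z → P (y + z))
    (hj : ∀ j, ∀ y ∈ I, y ∈ wsp R x j → P y) : ∀ y ∈ I, P y := by
  intro y hy
  refine Submodule.iSup_induction _ (motive := P) (hMG y hy) ?_ h0 hadd
  intro j z hz
  exact hj j z hz.1 hz.2

theorem S2_mem (hD : S_Dsw) (hp : 5 < p) (M : Model ℤ_[p] L x) {I : LieIdeal ℤ_[p] L}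
    (hMG : MG x I) {y : L} (hy : y ∈ I) : S2 M y ∈ I := by
  refine mg_ind hMG (fun y => S2 M y ∈ I) ?_ ?_ ?_ y hy
  · rw [S2_zero]; exact I.zero_mem
  · intro y z hy hz; rw [S2_add]; exact I.add_mem hy hz
  · intro j y hyI hyw
    rw [S2_wsp hD hp M hyw]; split_ifs
    · exact I.smul_mem _ hyI
    · exact I.zero_mem

theorem S3_mem (hD : S_Dsw) (hp : 5 < p) (M : Model ℤ_[p] L x) {I : LieIdeal ℤ_[p] L}
    (hMG : MG x I) {y : L} (hy : y ∈ I) : S3 M y ∈ I := by
  refine mg_ind hMG (fun y => S3 M y ∈ I) ?_ ?_ ?_ y hy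
  · rw [S3_zero]; exact I.zero_mem
  · intro y z hy hz; rw [S3_add]; exact I.add_mem hy hz
  · intro j y hyI hyw
    rw [S3_wsp hD hp M hyw]; split_ifs
    · exact I.smul_mem _ hyI
    · exact I.zero_mem

theorem S4_mem (hD : S_Dsw) (hp : 5 < p) (M : Model ℤ_[p] L x) {I : LieIdeal ℤ_[p] L}
    (hMG : MG x I) {y : L} (hy : y ∈ I) : S4 M y ∈ I := by
  refine mg_ind hMG (fun y => S4 M y ∈ I) ?_ ?_ ?_ y hy
  · rw [S4_zero]; exact I.zero_mem
  · intro y z hy hz; rw [S4_add]; exact I.add_mem hy hz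
  · intro j y hyI hyw
    rw [S4_wsp hD hp M hyw]; split_ifs
    · exact I.smul_mem _ hyI
    · exact I.zero_mem

theorem cf1_mem (M : Model ℤ_[p] L x) {I : LieIdeal ℤ_[p] L}
    (hMG : MG x I) (a : X) {y : L} (hy : y ∈ I) : M.cf1 y a • x a ∈ I := by
  refine mg_ind hMG (fun y => M.cf1 y a • x a ∈ I) ?_ ?_ ?_ y hy
  · simp
  · intro y z hy hz
    rw [map_add, Pi.add_apply, add_smul]; exact I.add_mem hy hz
  · intro j y hyI hyw
    rw [cf1_wsp M a hyw]; split_ifs
    · exact hyI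
    · exact I.zero_mem

/-! ### rotation of letters -/

theorem exists_rot : ∀ a : X, a ≠ 5 → ∃ k : Fin 5, rot^[(k : ℕ)] a = 0 := by decide +kernel
theorem exists_rot' : ∀ a : X, a ≠ 5 → ∃ k : Fin 5, rot^[(k : ℕ)] 0 = a := by decide +kernel

theorem rot_iter (M : Model ℤ_[p] L x) {I : LieIdeal ℤ_[p] L} (hR : RotSt x I) (k : ℕ) (r : ℤ_[p])
    (a : X) (h : r • x a ∈ I) : r • x (rot^[k] a) ∈ I := by
  induction k generalizing a with
  | zero => exact h
  | succ k ih =>
    rw [Function.iterate_succ_apply]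
    apply ih
    have h1 := hR (M.lift (fun a => x (rot a))) (fun a => M.lift_x _ a) _ h
    rw [map_smul, M.lift_x] at h1
    exact h1

/-! ### divisibility -/

theorem dvd_of_smul_mem {N : Submodule ℤ_[p] L} {z : L} {m : ℕ}
    (hm : ∀ n : ℕ, (p : ℤ_[p]) ^ n • z ∈ N → m ≤ n) {c : ℤ_[p]} (h : c • z ∈ N) :
    (p : ℤ_[p]) ^ m ∣ c := by
  by_cases hc : c = 0
  · rw [hc]; exact dvd_zero _
  · have h1 := PadicInt.unitCoeff_spec hc
    rw [h1, mul_smul] at h
    have h2 := mem_of_unit_smul (Units.isUnit _) h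
    have h3 := hm _ h2
    rw [h1]
    exact Dvd.dvd.mul_left (pow_dvd_pow _ h3) _

theorem smul_mem_of_dvd {N : Submodule ℤ_[p] L} {z : L} {m : ℕ}
    (h : (p : ℤ_[p]) ^ m • z ∈ N) {c : ℤ_[p]} (hc : (p : ℤ_[p]) ^ m ∣ c) : c • z ∈ N := by
  obtain ⟨d, rfl⟩ := hc
  rw [mul_comm, mul_smul]
  exact N.smul_mem d h

/-! ### duality -/

/-- linear combination of a family -/
noncomputable def lc {W : Type} [Fintype W] (B : W → L) (a : W → ℤ_[p]) : L := ∑ w, a w • B w

theorem lc_add {W : Type} [Fintype W] (B : W → L) (a b : W → ℤ_[p]) :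
    lc B (a + b) = lc B a + lc B b := by
  simp only [lc, Pi.add_apply, add_smul, Finset.sum_add_distrib]

theorem lc_sub {W : Type} [Fintype W] (B : W → L) (a b : W → ℤ_[p]) :
    lc B (a - b) = lc B a - lc B b := by
  simp only [lc, Pi.sub_apply, sub_smul, Finset.sum_sub_distrib]

theorem lc_smul {W : Type} [Fintype W] (B : W → L) (r : ℤ_[p]) (a : W → ℤ_[p]) :
    lc B (r • a) = r • lc B a := by
  simp only [lc, Pi.smul_apply, smul_eq_mul, mul_smul, Finset.smul_sum]

theorem lc_single {W : Type} [Fintype W] [DecidableEq W] (B : W → L) (w : W) :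
    lc B (Pi.single w (1 : ℤ_[p])) = B w := by
  unfold lc
  rw [Finset.sum_eq_single w]
  · rw [Pi.single_eq_same, one_smul]
  · intro b _ hb
    rw [Pi.single_eq_of_ne hb, zero_smul]
  · intro h; exact absurd (Finset.mem_univ w) h

theorem dual {W : Type} [Fintype W] [DecidableEq W] (B : W → L) (N : Submodule ℤ_[p] L)
    (hpB : ∀ w, (p : ℤ_[p]) • B w ∈ N) (c : W → ℤ_[p]) (hc : lc B c ∉ N) :
    ∃ F : W → ZMod p, (∀ a, lc B a ∈ N → ev a F = 0) ∧ ev c F ≠ 0 := by
  let K : Submodule (ZMod p) (W → ZMod p) :=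
    { carrier := {v | ∃ a : W → ℤ_[p], lc B a ∈ N ∧ ∀ w, PadicInt.toZMod (a w) = v w}
      add_mem' := by
        rintro v v' ⟨a, ha, hv⟩ ⟨a', ha', hv'⟩
        refine ⟨a + a', ?_, fun w => ?_⟩
        · rw [lc_add]; exact N.add_mem ha ha'
        · rw [Pi.add_apply, Pi.add_apply, map_add, hv, hv']
      zero_mem' := ⟨0, by simp [lc], fun w => by simp⟩
      smul_mem' := by
        rintro t v ⟨a, ha, hv⟩
        obtain ⟨r, hr⟩ := ZMod.ringHom_surjective (PadicInt.toZMod (p := p)) t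
        refine ⟨r • a, ?_, fun w => ?_⟩
        · rw [lc_smul]; exact N.smul_mem r ha
        · rw [Pi.smul_apply, Pi.smul_apply, smul_eq_mul, smul_eq_mul, map_mul, hv, hr] }
  set cb : W → ZMod p := fun w => PadicInt.toZMod (c w) with hcb
  have hcK : cb ∉ K := by
    rintro ⟨a, ha, hv⟩
    apply hc
    have h1 : ∀ w, ∃ d : ℤ_[p], c w - a w = p * d := by
      intro w
      have h2 : c w - a w ∈ RingHom.ker (PadicInt.toZMod (p := p)) := by
        rw [RingHom.mem_ker, map_sub, hv, hcb]; simp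
      rw [PadicInt.ker_toZMod, PadicInt.maximalIdeal_eq_span_p, Ideal.mem_span_singleton] at h2
      exact h2
    choose d hd using h1
    have h3 : c = a + (p : ℤ_[p]) • d := by
      funext w
      rw [Pi.add_apply, Pi.smul_apply, smul_eq_mul, ← hd]; ring
    rw [h3, lc_add]
    refine N.add_mem ha ?_
    unfold lc
    apply Submodule.sum_mem
    intro w _
    rw [Pi.smul_apply, smul_eq_mul, mul_comm, mul_smul]
    exact N.smul_mem _ (hpB w)
  obtain ⟨φ, hφ1, hφ2⟩ := Submodule.exists_le_ker_of_notMem hcK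
  have hps : ∀ w : W, (Pi.single w 1 : W → ZMod p) = fun j => if w = j then 1 else 0 := by
    intro w
    funext j
    rw [Pi.single_apply]
    simp only [eq_comm]
  refine ⟨fun w => φ (Pi.single w 1), ?_, ?_⟩
  · intro a ha
    have h1 : ev a (fun w => φ (Pi.single w 1)) = φ (fun w => PadicInt.toZMod (a w)) := by
      unfold ev
      rw [LinearMap.pi_apply_eq_sum_univ φ]
      apply Finset.sum_congr rfl
      intro w _
      rw [smul_eq_mul, ← hps]
    rw [h1]
    exact hφ2 ⟨a, ha, fun w => rfl⟩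
  · have h1 : ev c (fun w => φ (Pi.single w 1)) = φ cb := by
      unfold ev
      rw [LinearMap.pi_apply_eq_sum_univ φ]
      apply Finset.sum_congr rfl
      intro w _
      rw [smul_eq_mul, ← hps]
    rw [h1]
    exact hφ1

/-! ### the functions found by duality are in `C_n` -/

theorem C2_of_kill {N : Submodule ℤ_[p] L} {F : W2 → ZMod p}
    (h : ∀ a, lc (b2 x) a ∈ N → ev a F = 0) : F ∈ C2 (ZMod p) := by
  intro a b
  have h1 := h (Pi.single (a, b) 1 + Pi.single (b, a) 1) (by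
    rw [lc_add, lc_single, lc_single]
    have : b2 x (a, b) + b2 x (b, a) = 0 := by
      simp only [b2]; rw [← lie_skew (x a) (x b)]; exact neg_add_cancel _
    rw [this]; exact N.zero_mem)
  rw [ev_add, ev_single, ev_single] at h1
  exact h1

theorem b3_rel1 (a b c : X) : b3 x (a, b, c) + b3 x (a, c, b) = 0 := by
  simp only [b3, b2]
  have h : ⁅x b, x c⁆ + ⁅x c, x b⁆ = (0 : L) := by
    rw [← lie_skew (x b) (x c)]; exact neg_add_cancel _
  rw [← lie_add, h, lie_zero]

theorem b3_rel2 (a b c : X) : b3 x (a, b, c) + b3 x (b, c, a) + b3 x (c, a, b) = 0 := by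
  simp only [b3, b2]
  exact lie_jacobi (x a) (x b) (x c)

theorem C3_of_kill {N : Submodule ℤ_[p] L} {F : W3 → ZMod p}
    (h : ∀ a, lc (b3 x) a ∈ N → ev a F = 0) : F ∈ C3 (ZMod p) := by
  refine ⟨fun a b c => ?_, fun a b c => ?_⟩
  · have h1 := h (Pi.single (a, b, c) 1 + Pi.single (a, c, b) 1) (by
      rw [lc_add, lc_single, lc_single, b3_rel1]; exact N.zero_mem)
    rw [ev_add, ev_single, ev_single] at h1
    exact h1
  · have h1 := h (Pi.single (a, b, c) 1 + Pi.single (b, c, a) 1 + Pi.single (c, a, b) 1) (by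
      rw [lc_add, lc_add, lc_single, lc_single, lc_single, b3_rel2]; exact N.zero_mem)
    rw [ev_add, ev_add, ev_single, ev_single, ev_single] at h1
    exact h1

theorem C4_of_kill {N : Submodule ℤ_[p] L} {F : W4 → ZMod p}
    (h : ∀ a, lc (b4 x) a ∈ N → ev a F = 0) : F ∈ C4 (ZMod p) := by
  refine ⟨fun e => ⟨fun a b c => ?_, fun a b c => ?_⟩, fun a b c d => ?_⟩
  · have h1 := h (Pi.single (e, a, b, c) 1 + Pi.single (e, a, c, b) 1) (by
      rw [lc_add, lc_single, lc_single]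
      have : b4 x (e, a, b, c) + b4 x (e, a, c, b) = 0 := by
        simp only [b4]; rw [← lie_add, b3_rel1, lie_zero]
      rw [this]; exact N.zero_mem)
    rw [ev_add, ev_single, ev_single] at h1
    exact h1
  · have h1 := h (Pi.single (e, a, b, c) 1 + Pi.single (e, b, c, a) 1 + Pi.single (e, c, a, b) 1) (by
      rw [lc_add, lc_add, lc_single, lc_single, lc_single]
      have : b4 x (e, a, b, c) + b4 x (e, b, c, a) + b4 x (e, c, a, b) = 0 := by
        simp only [b4]; rw [← lie_add, ← lie_add, b3_rel2, lie_zero]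
      rw [this]; exact N.zero_mem)
    rw [ev_add, ev_add, ev_single, ev_single, ev_single] at h1
    exact h1
  · have h1 := h (Pi.single (a, b, c, d) 1 - Pi.single (b, a, c, d) 1 + Pi.single (c, d, a, b) 1 -
      Pi.single (d, c, a, b) 1) (by
      rw [lc_sub, lc_add, lc_sub, lc_single, lc_single, lc_single, lc_single]
      have : b4 x (a, b, c, d) - b4 x (b, a, c, d) + b4 x (c, d, a, b) - b4 x (d, c, a, b) = 0 := by
        simp only [b4, b3, b2]
        have e1 := leibniz_lie (x a) (x b) ⁅x c, x d⁆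
        have e2 := leibniz_lie (x c) (x d) ⁅x a, x b⁆
        have e3 : ⁅⁅x c, x d⁆, ⁅x a, x b⁆⁆ = -⁅⁅x a, x b⁆, ⁅x c, x d⁆⁆ := (lie_skew _ _).symm
        rw [e1, e2, e3]
        abel
      rw [this]; exact N.zero_mem)
    rw [ev_sub, ev_add, ev_sub, ev_single, ev_single, ev_single, ev_single] at h1
    exact h1

end

end Pool.Agent.W925.Unif
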