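import Pool.Agent.W373.Unif.Statements
import Pool.Agent.W373.Unif.Basic

/-! Calculus of the pairings with functions on words (project of helper373, MP_424f45_al). -/

set_option autoImplicit false

namespace Pool.Agent.W925.Unif

open Pool.Agent.W373.Unif

section
variable {p : ℕ} [Fact p.Prime] {L : Type} [LieRing L] [LieAlgebra ℤ_[p] L] {x : X → L}

/-- pairing of vectors -/
noncomputable def ev {W : Type} [Fintype W] (v : W → ℤ_[p]) (F : W → ZMod p) : ZMod p :=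
  ∑ w, PadicInt.toZMod (v w) * F w

variable {W : Type} [Fintype W]

theorem ev_zero (F : W → ZMod p) : ev (0 : W → ℤ_[p]) F = 0 := by simp [ev]

theorem ev_add (v v' : W → ℤ_[p]) (F : W → ZMod p) : ev (v + v') F = ev v F + ev v' F := by
  simp only [ev, Pi.add_apply, map_add, add_mul, Finset.sum_add_distrib]

theorem ev_sub (v v' : W → ℤ_[p]) (F : W → ZMod p) : ev (v - v') F = ev v F - ev v' F := by
  simp only [ev, Pi.sub_apply, map_sub, sub_mul, Finset.sum_sub_distrib]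

theorem ev_smul (r : ℤ_[p]) (v : W → ℤ_[p]) (F : W → ZMod p) :
    ev (r • v) F = PadicInt.toZMod r * ev v F := by
  simp only [ev, Pi.smul_apply, smul_eq_mul, map_mul, mul_assoc, Finset.mul_sum]

theorem ev_single [DecidableEq W] (w : W) (F : W → ZMod p) :
    ev (Pi.single w 1 : W → ℤ_[p]) F = F w := by
  unfold ev
  rw [Finset.sum_eq_single w]
  · simp
  · intro b _ hb
    rw [Pi.single_eq_of_ne hb]; simp
  · intro h; exact absurd (Finset.mem_univ w) h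

theorem pr2_eq (M : Model ℤ_[p] L x) (F : W2 → ZMod p) (y : L) : pr2 M F y = ev (M.cf2 y) F := rfl
theorem pr3_eq (M : Model ℤ_[p] L x) (F : W3 → ZMod p) (y : L) : pr3 M F y = ev (M.cf3 y) F := rfl
theorem pr4_eq (M : Model ℤ_[p] L x) (F : W4 → ZMod p) (y : L) : pr4 M F y = ev (M.cf4 y) F := rfl

/-- values on words -/
theorem pr2_x (M : Model ℤ_[p] L x) (F : W2 → ZMod p) (a : X) : pr2 M F (x a) = 0 := by
  rw [pr2_eq, M.cf2_x, ev_zero]
theorem pr2_b3 (M : Model ℤ_[p] L x) (F : W2 → ZMod p) (w : W3) : pr2 M F (b3 x w) = 0 := by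
  rw [pr2_eq, M.cf2_b3, ev_zero]
theorem pr2_b4 (M : Model ℤ_[p] L x) (F : W2 → ZMod p) (w : W4) : pr2 M F (b4 x w) = 0 := by
  rw [pr2_eq, M.cf2_b4, ev_zero]
theorem pr2_b2 (M : Model ℤ_[p] L x) (F : W2 → ZMod p) (a b : X) :
    pr2 M F (b2 x (a, b)) = F (a, b) - F (b, a) := by
  rw [pr2_eq, M.cf2_b2, ev_sub, ev_single, ev_single]

theorem pr3_x (M : Model ℤ_[p] L x) (F : W3 → ZMod p) (a : X) : pr3 M F (x a) = 0 := by
  rw [pr3_eq, M.cf3_x, ev_zero]
theorem pr3_b2 (M : Model ℤ_[p] L x) (F : W3 → ZMod p) (w : W2) : pr3 M F (b2 x w) = 0 := by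
  rw [pr3_eq, M.cf3_b2, ev_zero]
theorem pr3_b4 (M : Model ℤ_[p] L x) (F : W3 → ZMod p) (w : W4) : pr3 M F (b4 x w) = 0 := by
  rw [pr3_eq, M.cf3_b4, ev_zero]
theorem pr3_b3 (M : Model ℤ_[p] L x) (F : W3 → ZMod p) (a b c : X) :
    pr3 M F (b3 x (a, b, c)) = F (a, b, c) - F (a, c, b) - F (b, c, a) + F (c, b, a) := by
  rw [pr3_eq, M.cf3_b3, ev_add, ev_sub, ev_sub, ev_single, ev_single, ev_single, ev_single]

theorem pr4_x (M : Model ℤ_[p] L x) (F : W4 → ZMod p) (a : X) : pr4 M F (x a) = 0 := by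
  rw [pr4_eq, M.cf4_x, ev_zero]
theorem pr4_b2 (M : Model ℤ_[p] L x) (F : W4 → ZMod p) (w : W2) : pr4 M F (b2 x w) = 0 := by
  rw [pr4_eq, M.cf4_b2, ev_zero]
theorem pr4_b3 (M : Model ℤ_[p] L x) (F : W4 → ZMod p) (w : W3) : pr4 M F (b3 x w) = 0 := by
  rw [pr4_eq, M.cf4_b3, ev_zero]
theorem pr4_b4 (M : Model ℤ_[p] L x) (F : W4 → ZMod p) (a b c d : X) :
    pr4 M F (b4 x (a, b, c, d)) = F (a, b, c, d) - F (a, b, d, c) - F (a, c, d, b) +
      F (a, d, c, b) - F (b, c, d, a) + F (b, d, c, a) + F (c, d, b, a) - F (d, c, b, a) := by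
  rw [pr4_eq, M.cf4_b4]
  simp only [ev_add, ev_sub, ev_single]

theorem pr2_add (M : Model ℤ_[p] L x) (F : W2 → ZMod p) (y z : L) :
    pr2 M F (y + z) = pr2 M F y + pr2 M F z := by rw [pr2_eq, map_add, ev_add]; rfl
theorem pr3_add (M : Model ℤ_[p] L x) (F : W3 → ZMod p) (y z : L) :
    pr3 M F (y + z) = pr3 M F y + pr3 M F z := by rw [pr3_eq, map_add, ev_add]; rfl
theorem pr4_add (M : Model ℤ_[p] L x) (F : W4 → ZMod p) (y z : L) :
    pr4 M F (y + z) = pr4 M F y + pr4 M F z := by rw [pr4_eq, map_add, ev_add]; rfl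
theorem pr2_smul (M : Model ℤ_[p] L x) (F : W2 → ZMod p) (r : ℤ_[p]) (y : L) :
    pr2 M F (r • y) = PadicInt.toZMod r * pr2 M F y := by rw [pr2_eq, map_smul, ev_smul]; rfl
theorem pr3_smul (M : Model ℤ_[p] L x) (F : W3 → ZMod p) (r : ℤ_[p]) (y : L) :
    pr3 M F (r • y) = PadicInt.toZMod r * pr3 M F y := by rw [pr3_eq, map_smul, ev_smul]; rfl
theorem pr4_smul (M : Model ℤ_[p] L x) (F : W4 → ZMod p) (r : ℤ_[p]) (y : L) :
    pr4 M F (r • y) = PadicInt.toZMod r * pr4 M F y := by rw [pr4_eq, map_smul, ev_smul]; rfl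
theorem pr2_zero (M : Model ℤ_[p] L x) (F : W2 → ZMod p) : pr2 M F 0 = 0 := by
  rw [pr2_eq, map_zero, ev_zero]
theorem pr3_zero (M : Model ℤ_[p] L x) (F : W3 → ZMod p) : pr3 M F 0 = 0 := by
  rw [pr3_eq, map_zero, ev_zero]
theorem pr4_zero (M : Model ℤ_[p] L x) (F : W4 → ZMod p) : pr4 M F 0 = 0 := by
  rw [pr4_eq, map_zero, ev_zero]

/-- values on words for the functions in `C_n` -/
theorem pr2_C2 (M : Model ℤ_[p] L x) {F : W2 → ZMod p} (hF : F ∈ C2 (ZMod p)) (w : W2) :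
    pr2 M F (b2 x w) = 2 * F w := by
  obtain ⟨a, b⟩ := w
  rw [pr2_b2]
  linear_combination -hF a b

theorem pr3_C3 (M : Model ℤ_[p] L x) {F : W3 → ZMod p} (hF : F ∈ C3 (ZMod p)) (w : W3) :
    pr3 M F (b3 x w) = 3 * F w := by
  obtain ⟨a, b, c⟩ := w
  rw [pr3_b3]
  linear_combination -hF.1 a b c + hF.1 c a b - hF.2 a b c

theorem pr4_C4 (M : Model ℤ_[p] L x) {F : W4 → ZMod p} (hF : F ∈ C4 (ZMod p)) (w : W4) :
    pr4 M F (b4 x w) = 4 * F w := by
  obtain ⟨a, b, c, d⟩ := w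
  rw [pr4_b4]
  have e1 : ∀ x b c : X, ∀ a, F (x, a, b, c) + F (x, a, c, b) = 0 := fun x b c a => (hF.1 x).1 a b c
  have e2 : ∀ x a b c : X, F (x, a, b, c) + F (x, b, c, a) + F (x, c, a, b) = 0 :=
    fun x a b c => (hF.1 x).2 a b c
  have e3 := hF.2 a b c d
  linear_combination -e1 a c d b + e1 a b c d - e2 a b c d + e1 b a c d - e2 b a c d +
    e1 c a b d - e1 d a b c - e3

/-- induction on words -/
theorem word_ind {R L : Type} [CommRing R] [LieRing L] [LieAlgebra R L] {x : X → L}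
    (M : Model R L x) {P : L → Prop} (h0 : P 0)
    (hadd : ∀ y z, P y → P z → P (y + z)) (hsmul : ∀ (r : R) y, P y → P (r • y))
    (hx : ∀ a, P (x a)) (h2 : ∀ w, P (b2 x w)) (h3 : ∀ w, P (b3 x w)) (h4 : ∀ w, P (b4 x w))
    (y : L) : P y := by
  refine Submodule.span_induction ?_ h0 (fun y z _ _ => hadd y z) (fun r y _ => hsmul r y)
    (M.span y)
  rintro y (((⟨a, rfl⟩ | ⟨w, rfl⟩) | ⟨w, rfl⟩) | ⟨w, rfl⟩)
  · exact hx a
  · exact h2 w
  · exact h3 w
  · exact h4 w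

/-- derivation identities -/
theorem pr3_bracket (M : Model ℤ_[p] L x) {F : W3 → ZMod p} (hF : F ∈ C3 (ZMod p)) (a : X) (y : L) :
    2 * pr3 M F ⁅x a, y⁆ = 3 * pr2 M (fun w => F (a, w)) y := by
  have hG : (fun w => F (a, w)) ∈ C2 (ZMod p) := fun b c => hF.1 a b c
  refine word_ind M (P := fun y => 2 * pr3 M F ⁅x a, y⁆ = 3 * pr2 M (fun w => F (a, w)) y)
    ?_ ?_ ?_ ?_ ?_ ?_ ?_ y
  · rw [lie_zero, pr3_zero, pr2_zero]; ring
  · intro y z hy hz
    rw [lie_add, pr3_add, pr2_add]; linear_combination hy + hz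
  · intro r y hy
    rw [lie_smul, pr3_smul, pr2_smul]; linear_combination (PadicInt.toZMod r) * hy
  · intro b
    have : ⁅x a, x b⁆ = b2 x (a, b) := rfl
    rw [this, pr3_b2, pr2_x]; ring
  · intro w
    have : ⁅x a, b2 x w⁆ = b3 x (a, w) := rfl
    rw [this, pr3_C3 M hF, pr2_C2 M hG]; ring
  · intro w
    have : ⁅x a, b3 x w⁆ = b4 x (a, w) := rfl
    rw [this, pr3_b4, pr2_b3]; ring
  · intro w
    rw [M.nil, pr3_zero, pr2_b4]; ring

theorem pr4_bracket (M : Model ℤ_[p] L x) {F : W4 → ZMod p} (hF : F ∈ C4 (ZMod p)) (a : X) (y : L) :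
    3 * pr4 M F ⁅x a, y⁆ = 4 * pr3 M (fun w => F (a, w)) y := by
  have hG : (fun w => F (a, w)) ∈ C3 (ZMod p) := hF.1 a
  refine word_ind M (P := fun y => 3 * pr4 M F ⁅x a, y⁆ = 4 * pr3 M (fun w => F (a, w)) y)
    ?_ ?_ ?_ ?_ ?_ ?_ ?_ y
  · rw [lie_zero, pr4_zero, pr3_zero]; ring
  · intro y z hy hz
    rw [lie_add, pr4_add, pr3_add]; linear_combination hy + hz
  · intro r y hy
    rw [lie_smul, pr4_smul, pr3_smul]; linear_combination (PadicInt.toZMod r) * hy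
  · intro b
    have : ⁅x a, x b⁆ = b2 x (a, b) := rfl
    rw [this, pr4_b2, pr3_x]; ring
  · intro w
    have : ⁅x a, b2 x w⁆ = b3 x (a, w) := rfl
    rw [this, pr4_b3, pr3_b2]; ring
  · intro w
    have : ⁅x a, b3 x w⁆ = b4 x (a, w) := rfl
    rw [this, pr4_C4 M hF, pr3_C3 M hG]; ring
  · intro w
    rw [M.nil, pr4_zero, pr3_b4]; ring

/-! ### rotation -/

section Rot
variable (f : L →ₗ⁅ℤ_[p]⁆ L) (hf : ∀ a, f (x a) = x (rot a))
include hf

theorem f_b2 (w : W2) : f (b2 x w) = b2 x (rot2 w) := by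
  simp only [b2, LieHom.map_lie, hf, rot2]
theorem f_b3 (w : W3) : f (b3 x w) = b3 x (rot3 w) := by
  simp only [b3, LieHom.map_lie, hf, f_b2 f hf, rot3]
theorem f_b4 (w : W4) : f (b4 x w) = b4 x (rot4 w) := by
  simp only [b4, LieHom.map_lie, hf, f_b3 f hf, rot4]

theorem pr2_rot (M : Model ℤ_[p] L x) (F : W2 → ZMod p) (y : L) :
    pr2 M (fun w => F (rot2 w)) y = pr2 M F (f y) := by
  refine word_ind M (P := fun y => pr2 M (fun w => F (rot2 w)) y = pr2 M F (f y))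
    ?_ ?_ ?_ ?_ ?_ ?_ ?_ y
  · rw [map_zero, pr2_zero, pr2_zero]
  · intro y z hy hz; rw [map_add, pr2_add, pr2_add, hy, hz]
  · intro r y hy; rw [map_smul, pr2_smul, pr2_smul, hy]
  · intro a; rw [hf, pr2_x, pr2_x]
  · rintro ⟨a, b⟩; rw [f_b2 f hf, pr2_b2]; simp only [rot2]; rw [pr2_b2]
  · intro w; rw [f_b3 f hf, pr2_b3, pr2_b3]
  · intro w; rw [f_b4 f hf, pr2_b4, pr2_b4]

theorem pr3_rot (M : Model ℤ_[p] L x) (F : W3 → ZMod p) (y : L) :
    pr3 M (fun w => F (rot3 w)) y = pr3 M F (f y) := by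
  refine word_ind M (P := fun y => pr3 M (fun w => F (rot3 w)) y = pr3 M F (f y))
    ?_ ?_ ?_ ?_ ?_ ?_ ?_ y
  · rw [map_zero, pr3_zero, pr3_zero]
  · intro y z hy hz; rw [map_add, pr3_add, pr3_add, hy, hz]
  · intro r y hy; rw [map_smul, pr3_smul, pr3_smul, hy]
  · intro a; rw [hf, pr3_x, pr3_x]
  · intro w; rw [f_b2 f hf, pr3_b2, pr3_b2]
  · rintro ⟨a, b, c⟩; rw [f_b3 f hf, pr3_b3]; simp only [rot3, rot2]; rw [pr3_b3]
  · intro w; rw [f_b4 f hf, pr3_b4, pr3_b4]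

theorem pr4_rot (M : Model ℤ_[p] L x) (F : W4 → ZMod p) (y : L) :
    pr4 M (fun w => F (rot4 w)) y = pr4 M F (f y) := by
  refine word_ind M (P := fun y => pr4 M (fun w => F (rot4 w)) y = pr4 M F (f y))
    ?_ ?_ ?_ ?_ ?_ ?_ ?_ y
  · rw [map_zero, pr4_zero, pr4_zero]
  · intro y z hy hz; rw [map_add, pr4_add, pr4_add, hy, hz]
  · intro r y hy; rw [map_smul, pr4_smul, pr4_smul, hy]
  · intro a; rw [hf, pr4_x, pr4_x]
  · intro w; rw [f_b2 f hf, pr4_b2, pr4_b2]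
  · intro w; rw [f_b3 f hf, pr4_b3, pr4_b3]
  · rintro ⟨a, b, c, d⟩; rw [f_b4 f hf, pr4_b4]; simp only [rot4, rot3, rot2]; rw [pr4_b4]

end Rot

/-! ### weights -/

/-- induction on the words of a weight space -/
theorem wsp_ind {R L : Type} [CommRing R] [LieRing L] [LieAlgebra R L] {x : X → L} {j : ℕ}
    {P : L → Prop} (h0 : P 0) (hadd : ∀ y z, P y → P z → P (y + z))
    (hsmul : ∀ (r : R) y, P y → P (r • y)) (hx : ∀ a, wt a = j → P (x a))
    (h2 : ∀ w, wt2 w = j → P (b2 x w)) (h3 : ∀ w, wt3 w = j → P (b3 x w))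
    (h4 : ∀ w, wt4 w = j → P (b4 x w)) {y : L} (hy : y ∈ wsp R x j) : P y := by
  refine Submodule.span_induction ?_ h0 (fun y z _ _ => hadd y z) (fun r y _ => hsmul r y) hy
  rintro y (((⟨a, ha, rfl⟩ | ⟨w, hw, rfl⟩) | ⟨w, hw, rfl⟩) | ⟨w, hw, rfl⟩)
  · exact hx a ha
  · exact h2 w hw
  · exact h3 w hw
  · exact h4 w hw

theorem pr2_mask (M : Model ℤ_[p] L x) (F : W2 → ZMod p) (i j : ℕ) {y : L}
    (hy : y ∈ wsp ℤ_[p] x i) : pr2 M (fun w => if wt2 w = j then F w else 0) y =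
      if i = j then pr2 M F y else 0 := by
  refine wsp_ind (P := fun y => pr2 M (fun w => if wt2 w = j then F w else 0) y =
      if i = j then pr2 M F y else 0) ?_ ?_ ?_ ?_ ?_ ?_ ?_ hy
  · simp only [pr2_zero, ite_self]
  · intro y z hy hz
    rw [pr2_add, pr2_add, hy, hz]; split_ifs <;> ring
  · intro r y hy
    rw [pr2_smul, pr2_smul, hy]; split_ifs <;> ring
  · intro a _; rw [pr2_x, pr2_x, ite_self]
  · rintro ⟨a, b⟩ hw
    rw [pr2_b2, pr2_b2]
    simp only [wt2_swap a b, hw]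
    split_ifs <;> ring
  · intro w _; rw [pr2_b3, pr2_b3, ite_self]
  · intro w _; rw [pr2_b4, pr2_b4, ite_self]

theorem pr3_mask (M : Model ℤ_[p] L x) (F : W3 → ZMod p) (i j : ℕ) {y : L}
    (hy : y ∈ wsp ℤ_[p] x i) : pr3 M (fun w => if wt3 w = j then F w else 0) y =
      if i = j then pr3 M F y else 0 := by
  refine wsp_ind (P := fun y => pr3 M (fun w => if wt3 w = j then F w else 0) y =
      if i = j then pr3 M F y else 0) ?_ ?_ ?_ ?_ ?_ ?_ ?_ hy
  · simp only [pr3_zero, ite_self]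
  · intro y z hy hz
    rw [pr3_add, pr3_add, hy, hz]; split_ifs <;> ring
  · intro r y hy
    rw [pr3_smul, pr3_smul, hy]; split_ifs <;> ring
  · intro a _; rw [pr3_x, pr3_x, ite_self]
  · intro w _; rw [pr3_b2, pr3_b2, ite_self]
  · rintro ⟨a, b, c⟩ hw
    rw [pr3_b3, pr3_b3]
    have e1 : wt3 (a, c, b) = i := by rw [← hw]; simp only [wt2, wt3]; omega
    have e2 : wt3 (b, c, a) = i := by rw [← hw]; simp only [wt2, wt3]; omega
    have e3 : wt3 (c, b, a) = i := by rw [← hw]; simp only [wt2, wt3]; omega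
    simp only [hw, e1, e2, e3]
    split_ifs <;> ring
  · intro w _; rw [pr3_b4, pr3_b4, ite_self]

theorem pr4_mask (M : Model ℤ_[p] L x) (F : W4 → ZMod p) (i j : ℕ) {y : L}
    (hy : y ∈ wsp ℤ_[p] x i) : pr4 M (fun w => if wt4 w = j then F w else 0) y =
      if i = j then pr4 M F y else 0 := by
  refine wsp_ind (P := fun y => pr4 M (fun w => if wt4 w = j then F w else 0) y =
      if i = j then pr4 M F y else 0) ?_ ?_ ?_ ?_ ?_ ?_ ?_ hy
  · simp only [pr4_zero, ite_self]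
  · intro y z hy hz
    rw [pr4_add, pr4_add, hy, hz]; split_ifs <;> ring
  · intro r y hy
    rw [pr4_smul, pr4_smul, hy]; split_ifs <;> ring
  · intro a _; rw [pr4_x, pr4_x, ite_self]
  · intro w _; rw [pr4_b2, pr4_b2, ite_self]
  · intro w _; rw [pr4_b3, pr4_b3, ite_self]
  · rintro ⟨a, b, c, d⟩ hw
    rw [pr4_b4, pr4_b4]
    have e1 : wt4 (a, b, d, c) = i := by rw [← hw]; simp only [wt2, wt3, wt4]; omega
    have e2 : wt4 (a, c, d, b) = i := by rw [← hw]; simp only [wt2, wt3, wt4]; omega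
    have e3 : wt4 (a, d, c, b) = i := by rw [← hw]; simp only [wt2, wt3, wt4]; omega
    have e4 : wt4 (b, c, d, a) = i := by rw [← hw]; simp only [wt2, wt3, wt4]; omega
    have e5 : wt4 (b, d, c, a) = i := by rw [← hw]; simp only [wt2, wt3, wt4]; omega
    have e6 : wt4 (c, d, b, a) = i := by rw [← hw]; simp only [wt2, wt3, wt4]; omega
    have e7 : wt4 (d, c, b, a) = i := by rw [← hw]; simp only [wt2, wt3, wt4]; omega
    simp only [hw, e1, e2, e3, e4, e5, e6, e7]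
    split_ifs <;> ring

theorem three_ne (hp : 5 < p) : (3 : ZMod p) ≠ 0 := by
  intro h
  have h1 : ((3 : ℕ) : ZMod p) = 0 := by exact_mod_cast h
  rw [ZMod.natCast_eq_zero_iff] at h1
  have := Nat.le_of_dvd (by norm_num) h1
  omega

theorem four_ne (hp : 5 < p) : (4 : ZMod p) ≠ 0 := by
  intro h
  have h1 : ((4 : ℕ) : ZMod p) = 0 := by exact_mod_cast h
  rw [ZMod.natCast_eq_zero_iff] at h1
  have := Nat.le_of_dvd (by norm_num) h1
  omega

end

end Pool.Agent.W925.Unif
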