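import Pool.Agent.W792.WA.Stm4
import Pool.Agent.W335.WAB.BaseJ

/-!
Project WA, part WA-J0K: lower bound of the averaged imaginary part for the first level, for a
general kinetic energy.
-/

set_option autoImplicit false

namespace Pool.Agent.W925.WAJ0k

open MeasureTheory Filter Pool.Agent.W792.LL Pool.Agent.W792.WA Pool.Agent.W335.WAB.BaseJ
open scoped Topology

variable {d : ℕ} (K : C(UnitAddTorus (Fin d), ℝ))

/-- A bump around the level set. -/
noncomputable def bumpK (r E : ℝ) (k : UnitAddTorus (Fin d)) : ℝ :=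
  max 0 (1 - 4 / r * |K k - E|)

theorem bumpK_cont (r E : ℝ) : Continuous (bumpK K r E) := by
  unfold bumpK
  fun_prop

theorem bumpK_int (r E : ℝ) : Integrable (bumpK K r E) :=
  (bumpK_cont K r E).integrable_of_hasCompactSupport (HasCompactSupport.of_compactSpace _)

theorem bumpK_nonneg (r E : ℝ) (k) : 0 ≤ bumpK K r E k := le_max_left _ _

theorem bumpK_le {r : ℝ} (hr : 0 < r) (E : ℝ) (k) : bumpK K r E k ≤ 1 := by
  unfold bumpK
  refine max_le zero_le_one ?_
  have : 0 ≤ 4 / r * |K k - E| := by positivity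
  linarith

theorem gminK_exists (hK : ∀ E : ℝ, 0 ≤ E → E ≤ 4 * d → ∃ k, K k = E) {r : ℝ} (hr : 0 < r) :
    ∃ g : ℝ, 0 < g ∧ ∀ E : ℝ, 0 ≤ E → E ≤ 4 * d → g ≤ ∫ k, bumpK K r E k := by
  have hcont : Continuous fun E => ∫ k, bumpK K r E k := by
    refine continuous_of_dominated (fun E => (bumpK_cont K r E).aestronglyMeasurable)
      (bound := fun _ => 1) ?_ (integrable_const _) ?_
    · intro E
      refine ae_of_all _ fun k => ?_
      rw [Real.norm_of_nonneg (bumpK_nonneg K r E k)]
      exact bumpK_le K hr E k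
    · refine ae_of_all _ fun k => ?_
      unfold bumpK
      fun_prop
  have hpos : ∀ E : ℝ, 0 ≤ E → E ≤ 4 * d → 0 < ∫ k, bumpK K r E k := by
    intro E h0 h1
    obtain ⟨k, hk⟩ := hK E h0 h1
    refine (bumpK_cont K r E).integral_pos_of_hasCompactSupport_nonneg_nonzero (x := k)
      (HasCompactSupport.of_compactSpace _) (bumpK_nonneg K r E) ?_
    simp [bumpK, hk]
  obtain ⟨E₀, hE₀, hmin⟩ := (isCompact_Icc (a := (0 : ℝ)) (b := 4 * (d : ℝ))).exists_isMinOn
    ⟨0, by constructor <;> positivity⟩ hcont.continuousOn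
  refine ⟨∫ k, bumpK K r E₀ k, hpos E₀ hE₀.1 hE₀.2, fun E h0 h1 => ?_⟩
  exact hmin ⟨h0, h1⟩

theorem main : Pool.Agent.W792.WA.S_J0K := by
  intro ψ hψ r d K hr _ hK
  obtain ⟨g, hg, hgE⟩ := gminK_exists K hK hr
  set c₀ : ℝ := 1 / r * (9 / 5 / (2 * (3 / 8 + 1 / r) + 1)) with hc₀
  have hc₀p : 0 < c₀ := by positivity
  refine ⟨c₀ * g, by positivity, ?_⟩
  intro ρ hρ hS z hz
  have hzim : 0 < z.im := hz.2.2.1
  have hx : ∀ k, ((K k : ℂ) - z).im < 0 := by
    intro k
    simp
    exact hzim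
  have hin : ∀ k, ∫ a, 1 / ((K k : ℂ) + a - z) ∂((lev ψ r).conv ρ) =
      Hf ψ r ρ ((K k : ℂ) - z) := by
    intro k
    rw [← conv_eq ψ r ρ (hx k)]
    congr 1
    funext a
    rw [add_sub_right_comm]
  have hjf : jf ((lev ψ r).conv ρ) K z = ∫ k, (Hf ψ r ρ ((K k : ℂ) - z)).im := by
    unfold jf
    congr 1
    funext k
    rw [hin k]
  rw [hjf]
  have hlow : ∀ k, c₀ * bumpK K r z.re k ≤ (Hf ψ r ρ ((K k : ℂ) - z)).im := by
    intro k
    by_cases hk : |K k - z.re| ≤ r / 4
    · have h3 : c₀ ≤ (Hf ψ r ρ ((K k : ℂ) - z)).im := by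
        refine Hf_im_lower hψ hr (hx k) ρ hS ?_ ?_
        · simpa using hk
        · simp
          exact hz.2.2.2
      have h4 := bumpK_le K hr z.re k
      nlinarith
    · push Not at hk
      have h5 : bumpK K r z.re k = 0 := by
        unfold bumpK
        refine max_eq_left ?_
        have : 1 < 4 / r * |K k - z.re| := by
          have e : 4 / r * (r / 4) = 1 := by field_simp
          calc (1 : ℝ) = 4 / r * (r / 4) := e.symm
            _ < _ := mul_lt_mul_of_pos_left hk (by positivity)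
        linarith
      rw [h5, mul_zero]
      exact Hf_im_nonneg hψ hr (hx k) ρ
  have hHc : Continuous fun k => Hf ψ r ρ ((K k : ℂ) - z) := by
    rw [continuous_iff_continuousAt]
    intro k₀
    rw [ContinuousAt, tendsto_iff_norm_sub_tendsto_zero]
    refine squeeze_zero (fun _ => norm_nonneg _)
      (fun k => Hf_holder hψ hr (hx k) (hx k₀) ρ) ?_
    have h1 : Continuous fun k => 2 / r * Real.sqrt (2 / r *
        ‖((K k : ℂ) - z) - ((K k₀ : ℂ) - z)‖) := by fun_prop
    have h2 := h1.tendsto k₀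
    simpa using h2
  have hFi := (Complex.continuous_im.comp hHc).integrable_of_hasCompactSupport (μ := volume)
    (HasCompactSupport.of_compactSpace _)
  have hbi := bumpK_int K r z.re
  have hmono := integral_mono (hbi.const_mul c₀) hFi hlow
  refine le_trans ?_ hmono
  rw [integral_const_mul]
  exact mul_le_mul_of_nonneg_left (hgE z.re hz.1 hz.2.1) hc₀p.le

end Pool.Agent.W925.WAJ0k
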